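import Pool.Agent.H316.TF.Lem

/-!
# Project TF: the assembly
-/

set_option autoImplicit false

namespace Pool.Agent.H316.TF

open Finsupp

theorem circle_div (n : ℕ) (hn : 0 < n) (a : AddCircle (1 : ℚ)) : ∃ a', n • a' = a := by
  obtain ⟨q, rfl⟩ := QuotientAddGroup.mk_surjective a
  refine ⟨((q / n : ℚ) : AddCircle (1 : ℚ)), ?_⟩
  rw [← AddCircle.coe_nsmul]
  congr 1
  rw [nsmul_eq_mul]
  field_simp

theorem homology_free (h_HW : S_HW) (h_HB : S_HB) (h_lift : S_lift) (h_chase : S_chase)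
    (h_bridge : S_bridge) {I Γ B Ω : Type} [Group Γ] [Group B] [MulAction B Ω] (π : Γ →* B)
    (hπ : Function.Surjective π) (y : I → Γ) (D : Γ → (I × B) →₀ ℤ) (hD : Fox π y D)
    (j : FA Ω →* Γ) (hj : Function.Injective j) (hker : ∀ g, π g = 1 ↔ g ∈ j.range)
    (heq : ∀ (g : Γ) (w : FA Ω), g * j w * g⁻¹ = j (fam (fun ω : Ω => π g • ω) w))
    (n : ℕ) (hn : Odd n) (hB : ∀ b : B, b ^ n = 1) :
    ∀ m : ℕ, 1 ≤ m → ∀ (k : ℕ) (x : groupHomology (Rep.trivial ℤ Γ ℤ) m), 0 < k → k • x = 0 →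
      x = 0 := by
  refine h_bridge Γ ?_
  intro m u hu k hk hku
  obtain ⟨H⟩ := h_HB Ω Γ B π j hπ hj hker heq (m + 1) (h_HW Ω B n hn hB m)
  exact h_chase Γ B π m H (h_lift I Γ B π y D hD hπ n hB _
    (circle_div n hn.pos) m H) u hu k hk hku

theorem main (h_HW : S_HW) (h_HB : S_HB) (h_lift : S_lift) (h_chase : S_chase)
    (h_bridge : S_bridge) (h_fox : S_fox) (h_theta : S_theta) (h_relmod : S_relmod)
    (h_tower : S_tower) (h_verb : S_verb) (h_proper : S_proper) :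
    ∃ p0 : ℕ, ∀ p : ℕ, p.Prime → p0 ≤ p →
      (¬ Sat (lawP p) (FreeGroup (Fin 2))) ∧
      (∃ (G : Type) (_ : Group G), Sat (lawP p) G ∧ ∃ a b : G, a * b ≠ b * a) ∧
      ∀ (I : Type) (n : ℕ), 1 ≤ n → ∀ (k : ℕ)
        (x : groupHomology (Rep.trivial ℤ (RelFree (lawP p) I) ℤ) n), 0 < k → k • x = 0 →
        x = 0 := by
  obtain ⟨p0, hp0⟩ := h_tower
  refine ⟨max p0 3, fun p hp hpp => ?_⟩
  have hp1 : p0 ≤ p := (le_max_left _ _).trans hpp
  have hp3 : 3 ≤ p := (le_max_right _ _).trans hpp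
  have hodd : Odd p := hp.odd_of_ne_two (by omega)
  obtain ⟨htow, hnc⟩ := hp0 p hp hp1
  have hexp : ∀ (I : Type) (b : Bu p I), b ^ p = 1 := by
    intro I b
    obtain ⟨g, rfl⟩ := QuotientGroup.mk_surjective b
    rw [← QuotientGroup.mk_pow, QuotientGroup.eq_one_iff]
    exact Subgroup.subset_normalClosure ⟨g, rfl⟩
  refine ⟨(h_proper p hp.pos).1, ⟨Bu p (Fin 2), inferInstance, (h_proper p hp.pos).2 _ (hexp _),
    hnc⟩, ?_⟩
  intro I
  obtain ⟨t⟩ := htow I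
  obtain ⟨θ, hθ1, hθ2⟩ := h_theta p I t
  obtain ⟨j, hj, hker, heq⟩ := h_relmod p I t θ hθ1 hθ2
  obtain ⟨D, hD⟩ := h_fox I (pw (FreeGroup I) p)
  have hsurj : Function.Surjective (pr (pw (FreeGroup I) p)) := by
    intro b
    obtain ⟨g, rfl⟩ := QuotientGroup.mk_surjective b
    exact ⟨(g : FreeGroup I ⧸ _), rfl⟩
  have key := homology_free h_HW h_HB h_lift h_chase h_bridge (pr (pw (FreeGroup I) p)) hsurj _ D
    hD j hj hker heq p hodd (hexp I)
  have transfer : ∀ (V : Subgroup (FreeGroup I)) [V.Normal],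
      V = ⁅pw (FreeGroup I) p, pw (FreeGroup I) p⁆ →
      ∀ n : ℕ, 1 ≤ n → ∀ (k : ℕ) (x : groupHomology (Rep.trivial ℤ (FreeGroup I ⧸ V) ℤ) n),
        0 < k → k • x = 0 → x = 0 := by
    intro V _ hV
    subst hV
    exact key
  exact transfer _ (h_verb p (FreeGroup I))

end Pool.Agent.H316.TF
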