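import Pool.Agent.H316.TF.Stm2

/-!
# TF-25: the bridge to the group homology of Mathlib
-/

set_option autoImplicit false

namespace Pool.Agent.H316.TF

open Finsupp

namespace BridgeAux

open CategoryTheory groupHomology

section gen
variable {G : Type} [Group G] (A : Rep.{0} ℤ G)

theorem d_cyc (n : ℕ) (y : cycles A (n + 1)) :
    inhomogeneousChains.d A n (iCycles A (n + 1) y) = 0 := by
  have h1 : iCycles A (n + 1) ≫ (inhomogeneousChains A).d (n + 1) n = 0 :=
    (inhomogeneousChains A).iCycles_d (n + 1) n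
  rw [inhomogeneousChains.d_def] at h1
  exact congrArg (fun f => f.hom y) h1

theorem pi_eq_zero_iff (n : ℕ) (y : cycles A n) : groupHomology.π A n y = 0 ↔
    ∃ w : (Fin (n + 1) → G) →₀ A, inhomogeneousChains.d A n w = iCycles A n y := by
  have hex : (ShortComplex.mk ((inhomogeneousChains A).toCycles (n + 1) n)
      ((inhomogeneousChains A).homologyπ n) (by simp)).Exact :=
    ShortComplex.exact_of_g_is_cokernel _
      ((inhomogeneousChains A).homologyIsCokernel (n + 1) n (by simp))
  rw [ShortComplex.moduleCat_exact_iff] at hex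
  have hti : ∀ w : (Fin (n + 1) → G) →₀ A,
      iCycles A n ((inhomogeneousChains A).toCycles (n + 1) n w) =
        inhomogeneousChains.d A n w := by
    intro w
    have h1 : (inhomogeneousChains A).toCycles (n + 1) n ≫ iCycles A n =
        (inhomogeneousChains A).d (n + 1) n := (inhomogeneousChains A).toCycles_i (n + 1) n
    rw [inhomogeneousChains.d_def] at h1
    exact congrArg (fun f => f.hom w) h1
  constructor
  · intro h0
    obtain ⟨w, hw⟩ := hex y h0
    refine ⟨w, ?_⟩
    rw [← hti]
    exact congrArg (iCycles A n) hw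
  · rintro ⟨w, hw⟩
    have hinj : Function.Injective (iCycles A n) :=
      (ModuleCat.mono_iff_injective (iCycles A n)).1 inferInstance
    have h1 : (inhomogeneousChains A).toCycles (n + 1) n w = y := by
      apply hinj
      rw [hti]
      exact hw
    have h2 : (inhomogeneousChains A).toCycles (n + 1) n ≫ (inhomogeneousChains A).homologyπ n
      = 0 := (inhomogeneousChains A).toCycles_comp_homologyπ (n + 1) n
    rw [← h1]
    exact congrArg (fun f => f.hom w) h2

end gen

/-! ### the trivial representation -/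

variable {G : Type} [Group G]

/-- adding the base point -/
noncomputable def ad (G : Type) (n : ℕ) : ((Fin n → G) →₀ ℤ) ≃+ Ch Unit G ℤ n :=
  Finsupp.domCongr (Equiv.punitProd (Fin n → G)).symm

theorem ad_single (n : ℕ) (g : Fin n → G) (a : ℤ) :
    ad G n (Finsupp.single g a) = Finsupp.single ((), g) a := by
  unfold ad
  rw [Finsupp.domCongr_apply, Finsupp.equivMapDomain_single]
  rfl

theorem ad_d (n : ℕ) (w : (Fin (n + 1) → G) →₀ ℤ) :
    ad G n (inhomogeneousChains.d (Rep.trivial ℤ G ℤ) n w) = (pt G).bd ℤ n (ad G (n + 1) w) := by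
  have key : ((ad G n : ((Fin n → G) →₀ ℤ) →+ Ch Unit G ℤ n).comp
      ((inhomogeneousChains.d (Rep.trivial ℤ G ℤ) n).hom.toAddMonoidHom :
        ((Fin (n + 1) → G) →₀ ℤ) →+ ((Fin n → G) →₀ ℤ))) =
      ((pt G).bd ℤ n).comp (ad G (n + 1) : ((Fin (n + 1) → G) →₀ ℤ) →+ Ch Unit G ℤ (n + 1)) := by
    apply Finsupp.addHom_ext
    intro g a
    show ad G n (inhomogeneousChains.d (Rep.trivial ℤ G ℤ) n (Finsupp.single g a)) =
      (pt G).bd ℤ n (ad G (n + 1) (Finsupp.single g a))
    rw [ad_single, RA.bd_single, Fin.sum_univ_succ]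
    have h1 : inhomogeneousChains.d (Rep.trivial ℤ G ℤ) n (Finsupp.single g a) =
        (Finsupp.single (fun i => g i.succ) a : (Fin n → G) →₀ ℤ) +
          ∑ j : Fin (n + 1), ((-1 : ℤ) ^ ((j : ℕ) + 1)) •
            (Finsupp.single (Fin.contractNth j (· * ·) g) a : (Fin n → G) →₀ ℤ) :=
      inhomogeneousChains.d_single n g a
    rw [h1, map_add, map_sum, ad_single]
    congr 1
    · show _ = ((-1 : ℤ) ^ 0) • _
      rw [pow_zero, one_smul]
      rfl
    · refine Finset.sum_congr rfl fun j _ => ?_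
      rw [map_zsmul, ad_single, RA.face_succ, Fin.val_succ]
  exact DFunLike.congr_fun key w

end BridgeAux

open BridgeAux in
theorem t_bridge : S_bridge := by
  intro Γ _ H n hn k x hk hx
  obtain ⟨m, rfl⟩ : ∃ m, n = m + 1 := ⟨n - 1, by omega⟩
  induction x using groupHomology_induction_on with
  | h y =>
    have h1 : groupHomology.π (Rep.trivial ℤ Γ ℤ) (m + 1) (k • y) = 0 := by
      rw [map_nsmul]; exact hx
    obtain ⟨w, hw⟩ := (pi_eq_zero_iff _ _ _).1 h1
    rw [pi_eq_zero_iff]
    set z : (Fin (m + 1) → Γ) →₀ ℤ := groupHomology.iCycles (Rep.trivial ℤ Γ ℤ) (m + 1) y with hz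
    have hc : (pt Γ).IsC (ad Γ (m + 1) z) := by
      show (pt Γ).bd ℤ m (ad Γ (m + 1) z) = 0
      rw [← ad_d, hz]
      have := d_cyc (Rep.trivial ℤ Γ ℤ) m y
      rw [this]
      exact map_zero _
    have hb : (pt Γ).IsB (k • ad Γ (m + 1) z) := by
      refine ⟨ad Γ (m + 2) w, ?_⟩
      rw [← ad_d, hw, ← map_nsmul]
      congr 1
      exact map_nsmul _ _ _
    obtain ⟨v, hv⟩ := H m _ hc k hk hb
    refine ⟨(ad Γ (m + 2)).symm v, ?_⟩
    apply (ad Γ (m + 1)).injective
    rw [ad_d, AddEquiv.apply_symm_apply]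
    exact hv

end Pool.Agent.H316.TF
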