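import Pool.Agent.H316.TF.Lem

set_option autoImplicit false

namespace Pool.Agent.H316.TF

open Finsupp

namespace ChaseL

variable {X : Type}

/-- integers as rationals -/
noncomputable def iz : ℤ →+ ℚ := Int.castAddHom ℚ

/-- rationals modulo integers -/
noncomputable def qz : ℚ →+ AddCircle (1 : ℚ) := QuotientAddGroup.mk' _

/-- integers divided by `k` -/
noncomputable def dk (k : ℕ) : ℤ →+ ℚ := (AddMonoidHom.mulRight (1 / (k : ℚ))).comp iz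

lemma iz_apply (n : ℤ) : iz n = (n : ℚ) := rfl

lemma dk_apply (k : ℕ) (n : ℤ) : dk k n = (n : ℚ) * (1 / (k : ℚ)) := rfl

lemma qz_iz (n : ℤ) : qz (iz n) = 0 := by
  show ((n : ℚ) : AddCircle (1 : ℚ)) = 0
  rw [AddCircle.coe_eq_zero_iff]
  exact ⟨n, by simp⟩

lemma qz_surj : Function.Surjective qz := QuotientAddGroup.mk_surjective

lemma qz_zero (a : ℚ) (h : qz a = 0) : ∃ n : ℤ, (n : ℚ) = a := by
  have h1 : ((a : ℚ) : AddCircle (1 : ℚ)) = 0 := h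
  rw [AddCircle.coe_eq_zero_iff] at h1
  obtain ⟨n, hn⟩ := h1
  exact ⟨n, by simpa using hn⟩

lemma cf_iz_inj (v w : X →₀ ℤ) (h : cf iz v = cf iz w) : v = w := by
  ext x
  have h1 := DFunLike.congr_fun h x
  rw [cf_apply, cf_apply, iz_apply, iz_apply] at h1
  exact_mod_cast h1

lemma cf_qz_iz (v : X →₀ ℤ) : cf qz (cf iz v) = 0 := by
  ext x
  rw [cf_apply, cf_apply, qz_iz]
  rfl

lemma cf_qz_zero (w : X →₀ ℚ) (h : cf qz w = 0) : ∃ w0 : X →₀ ℤ, cf iz w0 = w := by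
  refine ⟨w.mapRange Rat.num Rat.num_zero, ?_⟩
  ext x
  have h1 := DFunLike.congr_fun h x
  rw [cf_apply] at h1
  obtain ⟨n, hn⟩ := qz_zero (w x) h1
  rw [cf_apply, iz_apply, Finsupp.mapRange_apply, ← hn, Rat.num_intCast]

lemma cf_qz_surj (w : X →₀ AddCircle (1 : ℚ)) : ∃ w0 : X →₀ ℚ, cf qz w0 = w :=
  Finsupp.mapRange_surjective qz (map_zero qz) qz_surj w

lemma cf_dk (k : ℕ) (hk : 0 < k) (v : X →₀ ℤ) : cf (dk k) (k • v) = cf iz v := by
  ext x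
  rw [cf_apply, cf_apply, dk_apply, iz_apply, Finsupp.smul_apply]
  have : (k : ℚ) ≠ 0 := by exact_mod_cast hk.ne'
  push_cast [nsmul_eq_mul]
  field_simp

lemma denom (Y : X →₀ ℚ) : ∃ N : ℕ, 0 < N ∧ ∃ Y1 : X →₀ ℤ, cf iz Y1 = N • Y := by
  induction Y using Finsupp.induction_linear with
  | zero => exact ⟨1, one_pos, 0, by simp⟩
  | add f g hf hg =>
    obtain ⟨N, hN, F, hF⟩ := hf
    obtain ⟨M, hM, G, hG⟩ := hg
    refine ⟨N * M, Nat.mul_pos hN hM, M • F + N • G, ?_⟩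
    rw [map_add, map_nsmul, map_nsmul, hF, hG, smul_add, smul_smul, smul_smul, mul_comm M N]
  | single x a =>
    refine ⟨a.den, a.den_pos, Finsupp.single x a.num, ?_⟩
    rw [cf_single, Finsupp.smul_single, iz_apply]
    congr 1
    rw [nsmul_eq_mul, mul_comm]
    exact (Rat.mul_den_eq_num a).symm

variable {S Γ : Type} [Group Γ] {A A' : Type} [AddCommGroup A] [AddCommGroup A']

lemma cf_bd (f : A →+ A') (R : RA S Γ) (m : ℕ) (c : Ch S Γ A (m + 1)) :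
    cf f (R.bd A m c) = R.bd A' m (cf f c) := cf_comb f _ c

omit [Group Γ] in
lemma cf_eps (f : A →+ A') (m : ℕ) (c : Ch S Γ A m) :
    cf f (eps S Γ A m c) = eps S Γ A' m (cf f c) := cf_comb f _ c

end ChaseL

open ChaseL in
theorem t_chase (h_dd : S_dd) (h_map : S_map) : S_chase := by
  intro Γ B _ _ π m H hlift u hu k hk hku
  obtain ⟨v, hv⟩ := hku
  have hu0 : (pt Γ).bd ℤ m u = 0 := hu
  obtain ⟨v', hv'⟩ : ∃ v', v' = cf (dk k) v := ⟨_, rfl⟩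
  have hbv' : (pt Γ).bd ℚ (m + 1) v' = cf iz u := by
    rw [hv', ← cf_bd, hv, cf_dk k hk]
  have hc : (pt Γ).IsC (cf qz v') := by
    show (pt Γ).bd _ (m + 1) (cf qz v') = 0
    rw [← cf_bd, hbv', cf_qz_iz]
  obtain ⟨c', hc', hec'⟩ := hlift _ hc
  have hc'0 : (rt π).bd _ (m + 1) c' = 0 := hc'
  obtain ⟨Y, hY⟩ := cf_qz_surj c'
  obtain ⟨z, hz⟩ := cf_qz_zero ((rt π).bd ℚ (m + 1) Y) (by rw [cf_bd, hY, hc'0])
  have hzc : (rt π).IsC z := by
    show (rt π).bd ℤ m z = 0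
    refine cf_iz_inj _ _ ?_
    rw [cf_bd, hz, h_dd, map_zero]
  obtain ⟨N, hN, Y1, hY1⟩ := denom Y
  have hNz : (rt π).bd ℤ (m + 1) Y1 = N • z := by
    refine cf_iz_inj _ _ ?_
    rw [cf_bd, hY1, map_nsmul, map_nsmul, hz]
  obtain ⟨a, ha⟩ := H.gen ℤ z hzc
  have hNa : N • a = 0 := by
    refine H.ind ℤ (N • a) ?_
    obtain ⟨w, hw⟩ := ha
    refine ⟨Y1 - N • w, ?_⟩
    rw [map_sub, map_nsmul, map_nsmul, hNz, hw, smul_sub, sub_sub_cancel]
  have ha0 : a = 0 := by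
    rcases smul_eq_zero.1 hNa with h | h
    · exact absurd h hN.ne'
    · exact h
  rw [ha0, map_zero, sub_zero] at ha
  obtain ⟨Y0, hY0⟩ := ha
  have hb0 : (rt π).bd ℚ (m + 1) (Y - cf iz Y0) = 0 := by
    rw [map_sub, ← cf_bd, hY0, hz, sub_self]
  have hq : cf qz (eps B Γ ℚ (m + 2) (Y - cf iz Y0) - v') = 0 := by
    rw [map_sub, cf_eps, map_sub, hY, cf_qz_iz, sub_zero, hec', sub_self]
  obtain ⟨v0, hv0⟩ := cf_qz_zero _ hq
  refine ⟨-v0, ?_⟩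
  refine cf_iz_inj _ _ ?_
  rw [map_neg, map_neg, cf_bd, hv0, map_sub, hbv', eps_bd h_map (rt π), hb0, map_zero, zero_sub,
    neg_neg]

end Pool.Agent.H316.TF
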