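import Pool.Agent.H316.TF.Lem

/-! TF-07 and TF-08 for helper316: conjugation, and the product with a central element. -/

set_option autoImplicit false

namespace Pool.Agent.H316.TF

open Finsupp

namespace ConjProd

section conj

variable {N Γ B : Type} [Group N] [Group Γ] [Group B] (π : Γ →* B) (j : N →* Γ)

/-- the functor `n ↦ (π γ; j n)` -/
def Fc (γ : Γ) (hj : ∀ n, π (j n) = 1) : GF (pt N) (rt π) where
  f _ := π γ
  φ _ n := j n
  f_act _ n := by
    show π γ = π γ * π (j n)
    rw [hj, mul_one]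
  φ_mul _ g h := map_mul j g h

/-- the functor `n ↦ (1; j (κ n))` -/
def Fk (κ : N →* N) (hj : ∀ n, π (j n) = 1) : GF (pt N) (rt π) where
  f _ := 1
  φ _ n := j (κ n)
  f_act _ n := by
    show (1 : B) = 1 * π (j (κ n))
    rw [hj, mul_one]
  φ_mul _ g h := by rw [map_mul, map_mul]

/-- the natural transformation `γ` -/
def ntc (κ : N →* N) (γ : Γ) (hj : ∀ n, π (j n) = 1) (hκ : ∀ n, j (κ n) = γ * j n * γ⁻¹) :
    NT (Fk π j κ hj) (Fc π j γ hj) where
  τ _ := γ
  f_act _ := by
    show (1 : B) * π γ = π γ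
    rw [one_mul]
  nat _ n := by
    show j (κ n) * γ = γ * j n
    rw [hκ, inv_mul_cancel_right]

theorem Fc_map (γ : Γ) (hj : ∀ n, π (j n) = 1) {A : Type} [AddCommGroup A] {m : ℕ}
    (c : Ch Unit N A m) : (Fc π j γ hj).map A m c = lm (π γ) Γ A m (jm B j A m c) := by
  unfold lm jm GF.map
  rw [psh_eq, mapDomain_comb]
  congr 2
  funext x
  rw [Finsupp.mapDomain_single, mul_one]
  rfl

theorem Fk_map (κ : N →* N) (hj : ∀ n, π (j n) = 1) {A : Type} [AddCommGroup A] {m : ℕ}
    (c : Ch Unit N A m) : (Fk π j κ hj).map A m c = jm B j A m (hm κ A m c) := by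
  unfold jm GF.map
  rw [hm_eq, comb_mapDomain]
  rfl

end conj

section prod

variable {G : Type} [Group G]

/-- the natural transformation of a central element -/
def ntp (t : G) (ht : ∀ g, t * g = g * t) :
    NT (GF.hom (MonoidHom.id G)) (GF.hom (MonoidHom.id G)) where
  τ _ := t
  f_act _ := rfl
  nat _ g := (ht g).symm

theorem ntp_hmt (t : G) (ht : ∀ g, t * g = g * t) {A : Type} [AddCommGroup A] {m : ℕ}
    (c : Ch Unit G A m) : (ntp t ht).hmt A m c = prod t A m c := by
  have h : ∀ (j : Fin (m + 1)) (x : Unit × (Fin m → G)),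
      (ntp t ht).tup j x = ((), Fin.insertNth (α := fun _ => G) j t x.2) := by
    intro j x
    unfold NT.tup
    show ((), Fin.insertNth (α := fun _ => G) j t
      fun i => if i.castSucc < j then x.2 i else x.2 i) = _
    simp only [ite_self]
  unfold NT.hmt prod
  simp only [h]

end prod

end ConjProd

open ConjProd in
/-- TF-07 -/
theorem t_conj (_h_map : S_map) (h_hmt : S_hmt) : S_conj := by
  intro N Γ B _ _ _ π j κ γ hj hκ A _ m z0 hz
  obtain ⟨h0, h1⟩ := h_hmt Unit B N Γ (pt N) (rt π) _ _ (ntc π j κ γ hj hκ) A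
  rw [← Fc_map π j γ hj, ← Fk_map π j κ hj]
  cases m with
  | zero => exact ⟨_, h0 z0⟩
  | succ m =>
    have h2 := h1 m z0
    have h3 : (pt N).bd A m z0 = 0 := hz
    rw [h3, map_zero, add_zero] at h2
    exact ⟨_, h2⟩

open ConjProd in
/-- TF-08 -/
theorem t_prod (h_hmt : S_hmt) : S_prod := by
  intro G _ t ht A _
  obtain ⟨h0, h1⟩ := h_hmt Unit Unit G G (pt G) (pt G) _ _ (ntp t ht) A
  refine ⟨fun c => ?_, fun m c => ?_⟩
  · have h2 := h0 c
    rw [ntp_hmt, sub_self] at h2
    exact h2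
  · have h2 := h1 m c
    rw [ntp_hmt, ntp_hmt, sub_self] at h2
    exact eq_neg_of_add_eq_zero_left h2

end Pool.Agent.H316.TF
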