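import Pool.Agent.H316.TF.Stm2

/-!
# Project TF (helper316): cycles in copies, the boundary relation, the kernel elements
-/

set_option autoImplicit false
set_option linter.unusedSectionVars false

namespace Pool.Agent.H316.TF

open Finsupp

namespace H349C

variable {I Γ B T : Type} [Group Γ] [Group B] {A : Type} [AddCommGroup A] {m : ℕ}

/-- the faces preserve the copy -/
theorem face_cop (π : Γ →* B) (k : Fin (m + 2)) (x : (I × B) × (Fin (m + 1) → Γ)) :
    (cop I (rt π)).face k x =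
      ((x.1.1, ((rt π).face k (x.1.2, x.2)).1), ((rt π).face k (x.1.2, x.2)).2) := by
  refine Fin.cases ?_ (fun j => ?_) k
  · rw [RA.face_zero, RA.face_zero]
    rfl
  · rw [RA.face_succ, RA.face_succ]

open Classical in
/-- the projection to the copy `i` -/
noncomputable def q (i : I) (Γ B A : Type) [AddCommGroup A] (m : ℕ) :
    Ch (I × B) Γ A m →+ Ch B Γ A m :=
  comb A fun x => if x.1.1 = i then Finsupp.single (x.1.2, x.2) 1 else 0

theorem q_single_self (x : (I × B) × (Fin m → Γ)) (a : A) :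
    q x.1.1 Γ B A m (Finsupp.single x a) = Finsupp.single (x.1.2, x.2) a := by
  unfold q
  rw [comb_single, if_pos rfl, tens_single, one_smul]

theorem q_single_ne {i : I} (x : (I × B) × (Fin m → Γ)) (hx : x.1.1 ≠ i) (a : A) :
    q i Γ B A m (Finsupp.single x a) = 0 := by
  unfold q
  rw [comb_single, if_neg hx, map_zero, AddMonoidHom.zero_apply]

theorem q_bd (π : Γ →* B) (i : I) (c : Ch (I × B) Γ A (m + 1)) :
    (rt π).bd A m (q i Γ B A (m + 1) c) = q i Γ B A m ((cop I (rt π)).bd A m c) := by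
  induction c using Finsupp.induction_linear with
  | zero => simp
  | add f g hf hg => simp only [map_add, hf, hg]
  | single x a =>
    rw [RA.bd_single, map_sum]
    by_cases h : x.1.1 = i
    · subst h
      rw [q_single_self, RA.bd_single]
      refine Finset.sum_congr rfl fun k _ => ?_
      rw [map_zsmul, face_cop]
      congr 1
      exact (q_single_self
        ((x.1.1, ((rt π).face k (x.1.2, x.2)).1), ((rt π).face k (x.1.2, x.2)).2) a).symm
    · rw [q_single_ne x h, map_zero]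
      symm
      refine Finset.sum_eq_zero fun k _ => ?_
      rw [map_zsmul, face_cop, q_single_ne, smul_zero]
      exact h

theorem q_isC (π : Γ →* B) (i : I) {z : Ch (I × B) Γ A m} (hz : (cop I (rt π)).IsC z) :
    (rt π).IsC (q i Γ B A m z) := by
  cases m with
  | zero => trivial
  | succ m =>
    have h1 : (cop I (rt π)).bd A m z = 0 := hz
    show (rt π).bd A m (q i Γ B A (m + 1) z) = 0
    rw [q_bd, h1, map_zero]

/-- a chain is the sum of its projections to the copies -/
theorem sum_q (z : Ch (I × B) Γ A m) : ∃ s0 : Finset I, ∀ s : Finset I, s0 ⊆ s →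
    ∑ i ∈ s, psh (fun b : B => (i, b)) Γ A m (q i Γ B A m z) = z := by
  classical
  induction z using Finsupp.induction_linear with
  | zero => exact ⟨∅, fun s _ => by simp⟩
  | add f g hf hg =>
    obtain ⟨s1, h1⟩ := hf
    obtain ⟨s2, h2⟩ := hg
    refine ⟨s1 ∪ s2, fun s hs => ?_⟩
    simp only [map_add, Finset.sum_add_distrib]
    rw [h1 s (Finset.union_subset_left hs), h2 s (Finset.union_subset_right hs)]
  | single x a =>
    refine ⟨{x.1.1}, fun s hs => ?_⟩
    have hx : x.1.1 ∈ s := hs (Finset.mem_singleton_self _)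
    rw [Finset.sum_eq_single_of_mem x.1.1 hx]
    · rw [q_single_self, psh_single]
    · intro i _ hi
      rw [q_single_ne x (Ne.symm hi), map_zero]

theorem cmb_mk (w : T → Ch B Γ ℤ m) (i : I) (t : T) :
    cmb w (i, t) = psh (fun b : B => (i, b)) Γ ℤ m (w t) := rfl

/-- push forward of a combination -/
theorem psh_comb {S S' : Type} (f : S → S') (w : T → Ch S Γ ℤ m) (v : T →₀ A) :
    psh f Γ A m (comb A w v) = comb A (fun t => psh f Γ ℤ m (w t)) v := by
  rw [psh_eq, mapDomain_comb]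
  simp only [psh_eq]

theorem comb_cmb_mapDomain (w : T → Ch B Γ ℤ m) (i : I) (v : T →₀ A) :
    comb A (cmb w) (Finsupp.mapDomain (fun t => (i, t)) v) =
      psh (fun b : B => (i, b)) Γ A m (comb A w v) := by
  rw [comb_mapDomain, psh_comb]
  rfl

theorem psh_isB (h_map : S_map) (π : Γ →* B) (i : I) {c : Ch B Γ A m} (hc : (rt π).IsB c) :
    (cop I (rt π)).IsB (psh (fun b : B => (i, b)) Γ A m c) := by
  obtain ⟨y, rfl⟩ := hc
  exact ⟨_, psh_bd h_map (rt π) (cop I (rt π)) (fun b : B => (i, b)) (fun _ _ => rfl) y⟩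

theorem psh_psh {S S' S'' : Type} (f : S → S') (g : S' → S'') (c : Ch S Γ A m) :
    psh g Γ A m (psh f Γ A m c) = psh (fun s => g (f s)) Γ A m c := by
  rw [psh_eq, psh_eq, psh_eq, ← Finsupp.mapDomain_comp]
  rfl

theorem psh_id (c : Ch B Γ A m) : psh (fun b : B => b) Γ A m c = c := by
  rw [psh_eq]
  exact Finsupp.mapDomain_id

theorem Xm_comb (x : I → B) (w : T → Ch (I × B) Γ ℤ m) (v : T →₀ A) :
    Xm x Γ A m (comb A w v) = comb A (fun t => Xm x Γ ℤ m (w t)) v := by
  unfold Xm
  rw [AddMonoidHom.sub_apply, psh_comb, psh_comb, ← comb_sub]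
  rfl

/-- `Xm` on the copy `i` -/
theorem Xm_psh (x : I → B) (i : I) (c : Ch B Γ A m) :
    Xm x Γ A m (psh (fun b : B => (i, b)) Γ A m c) = lm (x i) Γ A m c - c := by
  unfold Xm
  rw [AddMonoidHom.sub_apply, psh_psh, psh_psh]
  have h : psh (fun s : B => ((i, s) : I × B).2) Γ A m c = c := psh_id c
  rw [h]
  rfl

theorem psh_tens {S S' : Type} (f : S → S') (c : Ch S Γ ℤ m) (a : A) :
    psh f Γ A m (tens A c a) = tens A (psh f Γ ℤ m c) a := by
  unfold psh
  rw [comb_tens]

theorem Xm_tens (x : I → B) (c : Ch (I × B) Γ ℤ m) (a : A) :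
    Xm x Γ A m (tens A c a) = tens A (Xm x Γ ℤ m c) a := by
  unfold Xm
  rw [AddMonoidHom.sub_apply, AddMonoidHom.sub_apply, psh_tens, psh_tens, map_sub,
    AddMonoidHom.sub_apply]

theorem lm_lm (b b' : B) (c : Ch B Γ A m) :
    lm b Γ A m (lm b' Γ A m c) = lm (b * b') Γ A m c := by
  unfold lm
  rw [psh_psh]
  congr 2
  funext s
  exact (mul_assoc b b' s).symm

theorem bd_tens {S : Type} (R : RA S Γ) (c : Ch S Γ ℤ (m + 1)) (a : A) :
    R.bd A m (tens A c a) = tens A (R.bd ℤ m c) a := by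
  unfold RA.bd
  rw [comb_tens]

end H349C

open H349C

theorem t_copies (h_map : S_map) : S_copies := by
  intro I Γ B _ _ π A _ m H z hz
  obtain ⟨s, hs⟩ := sum_q z
  have hs := hs s (Finset.Subset.refl s)
  have hg : ∀ i : I, ∃ v : H.T →₀ A, (rt π).IsB (q i Γ B A m z - comb A H.w v) :=
    fun i => H.gen A _ (q_isC π i hz)
  choose v hv using hg
  refine ⟨∑ i ∈ s, Finsupp.mapDomain (fun t => (i, t)) (v i), ?_⟩
  have key : z - comb A (cmb H.w) (∑ i ∈ s, Finsupp.mapDomain (fun t => (i, t)) (v i)) =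
      ∑ i ∈ s, psh (fun b : B => (i, b)) Γ A m (q i Γ B A m z - comb A H.w (v i)) := by
    rw [map_sum]
    simp only [comb_cmb_mapDomain, map_sub, Finset.sum_sub_distrib]
    rw [hs]
  rw [key]
  exact RA.IsB.sum s _ fun i _ => psh_isB h_map π i (hv i)

theorem t_rel (_h_map : S_map) : S_rel := by
  intro I Γ B _ _ π x A _ m H V hV
  rw [Xm_comb] at hV
  have h1 : (rt π).IsB (comb A (fun s : I × H.T => Xm x Γ ℤ m (cmb H.w s)) V -
      comb A (fun s : I × H.T => H.w (H.act.smul (x s.1) s.2) - H.w s.2) V) := by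
    refine isB_comb_sub (rt π) _ _ (fun s => ?_) V
    obtain ⟨i, t⟩ := s
    have h2 : Xm x Γ ℤ m (cmb H.w (i, t)) - (H.w (H.act.smul (x i) t) - H.w t) =
        lm (x i) Γ ℤ m (H.w t) - H.w (H.act.smul (x i) t) := by
      rw [cmb_mk, Xm_psh]
      abel
    show (rt π).IsB (Xm x Γ ℤ m (cmb H.w (i, t)) - (H.w (H.act.smul (x i) t) - H.w t))
    rw [h2]
    exact H.equiv (x i) t
  have h3 := hV.sub h1
  rw [sub_sub_cancel, comb_sub] at h3
  refine H.ind A _ ?_
  rw [map_sub, comb_mapDomain, comb_mapDomain]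
  exact h3

theorem t_kill (h_map : S_map) : S_kill := by
  intro I Γ B _ _ π y D hD A _ m H V hV
  induction hV using AddSubgroup.closure_induction with
  | mem V hV =>
    obtain ⟨ρ, t, a, hρ, rfl⟩ := hV
    have he : ∀ b : B, ∃ e : Ch B Γ ℤ (m + 1),
        (rt π).bd ℤ m e = lm b Γ ℤ m (H.w t) - H.w (H.act.smul b t) := fun b => H.equiv b t
    choose e he using he
    set η0 : Ch (I × B) Γ ℤ (m + 1) :=
      comb ℤ (fun s : I × B => psh (fun b : B => (s.1, b)) Γ ℤ (m + 1) (e s.2)) (D ρ) with hη0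
    set U : Ch (I × B) Γ ℤ m :=
      comb ℤ (fun s : I × B => psh (fun b : B => (s.1, b)) Γ ℤ m (lm s.2 Γ ℤ m (H.w t))) (D ρ)
      with hU
    have h1 : comb ℤ (cmb H.w)
        (Finsupp.mapDomain (fun s : I × B => (s.1, H.act.smul s.2 t)) (D ρ)) =
        U - (cop I (rt π)).bd ℤ m η0 := by
      rw [comb_mapDomain, hη0, bd_comb, hU, ← comb_sub]
      congr 2
      funext s
      rw [psh_bd h_map (rt π) (cop I (rt π)) (fun b : B => (s.1, b)) (fun _ _ => rfl), he,
        ← map_sub, sub_sub_cancel]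
      rfl
    have h2 : Xm (fun i => π (y i)) Γ ℤ m U = 0 := by
      rw [hU, Xm_comb]
      have h3 : (fun s : I × B => Xm (fun i => π (y i)) Γ ℤ m
          (psh (fun b : B => (s.1, b)) Γ ℤ m (lm s.2 Γ ℤ m (H.w t)))) =
          fun s : I × B => lm (π (y s.1) * s.2) Γ ℤ m (H.w t) - lm s.2 Γ ℤ m (H.w t) := by
        funext s
        rw [Xm_psh, lm_lm]
      rw [h3, comb_sub,
        ← comb_mapDomain (fun s : I × B => π (y s.1) * s.2) (fun b : B => lm b Γ ℤ m (H.w t)),
        ← comb_mapDomain (fun s : I × B => s.2) (fun b : B => lm b Γ ℤ m (H.w t)), ← map_sub,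
        hD.fund ρ]
      unfold D0
      rw [hρ, sub_self, map_zero]
    refine ⟨- tens A η0 a, ?_⟩
    rw [comb_tens, h1, map_neg, bd_tens, sub_neg_eq_add, ← AddMonoidHom.add_apply, ← map_add,
      sub_add_cancel, Xm_tens, h2, map_zero, AddMonoidHom.zero_apply]
  | zero => exact ⟨0, by simp⟩
  | add V W _ _ hV hW =>
    obtain ⟨η, hη⟩ := hV
    obtain ⟨η', hη'⟩ := hW
    refine ⟨η + η', ?_⟩
    rw [map_add, map_add, add_sub_add_comm, map_add, hη, hη', add_zero]
  | neg V _ hV =>
    obtain ⟨η, hη⟩ := hV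
    refine ⟨-η, ?_⟩
    rw [map_neg, map_neg, neg_sub_neg, ← neg_sub, map_neg, hη, neg_zero]

end Pool.Agent.H316.TF
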