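import Pool.Agent.H316.TF.Stm

set_option autoImplicit false

namespace Pool.Agent.H316.TF

open Finsupp

namespace TFdd

theorem sum_sq {m : ℕ} {M : Type} [AddCommGroup M] (F : (Fin (m + 1) → Fin (m + 3)) → M) :
    ∑ j : Fin (m + 3), ∑ i : Fin (m + 2),
      ((-1 : ℤ) ^ ((j : ℕ) + (i : ℕ))) • F (fun k => j.succAbove (i.succAbove k)) = 0 := by
  rw [← Fintype.sum_prod_type' (f := fun (j : Fin (m + 3)) (i : Fin (m + 2)) =>
    ((-1 : ℤ) ^ ((j : ℕ) + (i : ℕ))) • F (fun k => j.succAbove (i.succAbove k)))]
  refine Finset.sum_involution (fun a _ => (a.1.succAbove a.2, a.2.predAbove a.1)) ?_ ?_ ?_ ?_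
  · intro a _
    simp only [Fin.succAbove_succAbove_succAbove_predAbove,
      Fin.neg_one_pow_succAbove_add_predAbove, neg_smul, add_neg_cancel]
  · intro a _ _ h
    exact Fin.succAbove_ne a.1 a.2 (congrArg Prod.fst h)
  · intro a _
    exact Finset.mem_univ _
  · intro a _
    refine Prod.ext ?_ ?_
    · exact Fin.succAbove_succAbove_predAbove a.1 a.2
    · exact Fin.predAbove_predAbove_succAbove a.1 a.2

variable {S Γ : Type} [Group Γ] (R : RA S Γ)

/-- the string with the homogeneous coordinates `P` -/
def str {m : ℕ} (s : S) (P : Fin (m + 1) → Γ) : S × (Fin m → Γ) :=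
  (R.act s (P 0), fun i => (P i.castSucc)⁻¹ * P i.succ)

theorem face_str {m : ℕ} (s : S) (P : Fin (m + 2) → Γ) (i : Fin (m + 2)) :
    R.face i (str R s P) = str R s (fun k => P (i.succAbove k)) := by
  refine Fin.cases ?_ (fun j => ?_) i
  · rw [RA.face_zero]
    refine Prod.ext ?_ ?_
    · show R.act (R.act s (P 0)) ((P (Fin.castSucc 0))⁻¹ * P (Fin.succ 0)) =
        R.act s (P (Fin.succAbove 0 0))
      rw [← R.act_mul]
      simp
    · funext k
      simp [str]
  · rw [RA.face_succ]
    refine Prod.ext ?_ ?_
    · simp [str]
    · funext k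
      simp only [str, Fin.contractNth]
      rcases lt_trichotomy (k : ℕ) (j : ℕ) with h | h | h
      · rw [if_pos h]
        have h1 : j.succ.succAbove k.castSucc = k.castSucc.castSucc :=
          Fin.succAbove_of_castSucc_lt _ _ (by
            rw [Fin.lt_def]
            simp only [Fin.val_castSucc, Fin.val_succ]
            omega)
        have h2 : j.succ.succAbove k.succ = k.succ.castSucc :=
          Fin.succAbove_of_castSucc_lt _ _ (by
            rw [Fin.lt_def]
            simp only [Fin.val_castSucc, Fin.val_succ]
            omega)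
        rw [h1, h2]
        rfl
      · rw [if_neg (by omega), if_pos h]
        have h1 : j.succ.succAbove k.castSucc = k.castSucc.castSucc :=
          Fin.succAbove_of_castSucc_lt _ _ (by
            rw [Fin.lt_def]
            simp only [Fin.val_castSucc, Fin.val_succ]
            omega)
        have h2 : j.succ.succAbove k.succ = k.succ.succ :=
          Fin.succAbove_of_le_castSucc _ _ (by
            rw [Fin.le_def]
            simp only [Fin.val_castSucc, Fin.val_succ]
            omega)
        rw [h1, h2]
        have h3 : k.castSucc.succ = k.succ.castSucc := Fin.succ_castSucc k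
        rw [h3]
        group
      · rw [if_neg (by omega), if_neg (by omega)]
        have h1 : j.succ.succAbove k.castSucc = k.castSucc.succ :=
          Fin.succAbove_of_le_castSucc _ _ (by
            rw [Fin.le_def]
            simp only [Fin.val_castSucc, Fin.val_succ]
            omega)
        have h2 : j.succ.succAbove k.succ = k.succ.succ :=
          Fin.succAbove_of_le_castSucc _ _ (by
            rw [Fin.le_def]
            simp only [Fin.val_castSucc, Fin.val_succ]
            omega)
        rw [h1, h2]
        rfl

theorem eq_str {m : ℕ} (x : S × (Fin m → Γ)) : x = str R x.1 (Fin.partialProd x.2) := by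
  refine Prod.ext ?_ ?_
  · simp only [str, Fin.partialProd_zero, R.act_one]
  · funext i
    exact (Fin.partialProd_right_inv x.2 i).symm

end TFdd

theorem t_dd : S_dd := by
  intro S Γ _ R A _ m c
  induction c using Finsupp.induction_linear with
  | zero => simp
  | add f g hf hg => rw [map_add, map_add, hf, hg, add_zero]
  | single x a =>
    rw [TFdd.eq_str R x, RA.bd_single, map_sum]
    have h : ∀ j : Fin (m + 3), R.bd A m (((-1 : ℤ) ^ (j : ℕ)) •
        Finsupp.single (R.face j (TFdd.str R x.1 (Fin.partialProd x.2))) a) =
        ∑ i : Fin (m + 2), ((-1 : ℤ) ^ ((j : ℕ) + (i : ℕ))) • Finsupp.single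
          (TFdd.str R x.1 (fun k => Fin.partialProd x.2 (j.succAbove (i.succAbove k)))) a := by
      intro j
      rw [map_zsmul, RA.bd_single, Finset.smul_sum]
      refine Finset.sum_congr rfl fun i _ => ?_
      rw [TFdd.face_str, TFdd.face_str, smul_smul, pow_add]
    rw [Finset.sum_congr rfl fun j _ => h j]
    exact TFdd.sum_sq (fun q => Finsupp.single
      (TFdd.str R x.1 (fun k => Fin.partialProd x.2 (q k))) a)

end Pool.Agent.H316.TF
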