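import Mathlib

/-!
# Chains of the action groupoid of a right action, and operators given by integral matrices
(helper316, project TF: torsion-free homology of relatively free groups)
-/

set_option autoImplicit false

namespace Pool.Agent.H316.TF

open Finsupp

/-! ### Integral matrices acting on finitely supported functions -/

section comb

variable {T X Y A A' : Type} [AddCommGroup A] [AddCommGroup A']

/-- `w ⊗ a` for an integral chain `w` and a coefficient `a` -/
noncomputable def tens (A : Type) [AddCommGroup A] {X : Type} : (X →₀ ℤ) →+ A →+ (X →₀ A) :=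
  Finsupp.liftAddHom fun x => zmultiplesHom (A →+ (X →₀ A)) (Finsupp.singleAddHom x)

theorem tens_single (x : X) (n : ℤ) (a : A) :
    tens A (Finsupp.single x n) a = Finsupp.single x (n • a) := by
  unfold tens
  rw [Finsupp.liftAddHom_apply_single]
  show (n • Finsupp.singleAddHom x : A →+ (X →₀ A)) a = _
  rw [AddMonoidHom.smul_apply, Finsupp.singleAddHom_apply, Finsupp.smul_single]

/-- the operator with the integral columns `w t` -/
noncomputable def comb (A : Type) [AddCommGroup A] {T X : Type} (w : T → X →₀ ℤ) :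
    (T →₀ A) →+ (X →₀ A) :=
  Finsupp.liftAddHom fun t => tens A (w t)

theorem comb_single (w : T → X →₀ ℤ) (t : T) (a : A) :
    comb A w (Finsupp.single t a) = tens A (w t) a := by
  unfold comb
  rw [Finsupp.liftAddHom_apply_single]

theorem comb_single_one (w : T → X →₀ ℤ) (t : T) : comb ℤ w (Finsupp.single t 1) = w t := by
  rw [comb_single]
  induction w t using Finsupp.induction_linear with
  | zero => simp
  | add f g hf hg => rw [map_add, AddMonoidHom.add_apply, hf, hg]
  | single x n => rw [tens_single]; simp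

/-- operators are equal if they agree on single terms -/
theorem hom_ext {M : Type} [AddZeroClass M] {f g : (T →₀ A) →+ M}
    (h : ∀ t a, f (Finsupp.single t a) = g (Finsupp.single t a)) : f = g :=
  Finsupp.addHom_ext h

theorem comb_tens (w : T → X →₀ ℤ) (v : T →₀ ℤ) (a : A) :
    comb A w (tens A v a) = tens A (comb ℤ w v) a := by
  induction v using Finsupp.induction_linear with
  | zero => simp
  | add f g hf hg => simp only [map_add, AddMonoidHom.add_apply, hf, hg]
  | single x n =>
    rw [tens_single, comb_single, comb_single, map_zsmul]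
    induction w x using Finsupp.induction_linear with
    | zero => simp
    | add f g hf hg => simp only [map_add, AddMonoidHom.add_apply, smul_add, hf, hg]
    | single y m =>
      rw [tens_single, tens_single, tens_single, Finsupp.smul_single, smul_eq_mul, mul_comm,
        mul_smul, smul_comm]

theorem comb_comp (w' : X → Y →₀ ℤ) (w : T → X →₀ ℤ) (v : T →₀ A) :
    comb A w' (comb A w v) = comb A (fun t => comb ℤ w' (w t)) v := by
  induction v using Finsupp.induction_linear with
  | zero => simp
  | add f g hf hg => simp only [map_add, hf, hg]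
  | single t a => rw [comb_single, comb_single, comb_tens]

theorem comb_add (w w' : T → X →₀ ℤ) (v : T →₀ A) :
    comb A (fun t => w t + w' t) v = comb A w v + comb A w' v := by
  induction v using Finsupp.induction_linear with
  | zero => simp
  | add f g hf hg => simp only [map_add, hf, hg]; abel
  | single t a => rw [comb_single, comb_single, comb_single, map_add, AddMonoidHom.add_apply]

theorem comb_neg (w : T → X →₀ ℤ) (v : T →₀ A) :
    comb A (fun t => - w t) v = - comb A w v := by
  induction v using Finsupp.induction_linear with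
  | zero => simp
  | add f g hf hg => simp only [map_add, hf, hg]; abel
  | single t a => rw [comb_single, comb_single, map_neg, AddMonoidHom.neg_apply]

theorem comb_sub (w w' : T → X →₀ ℤ) (v : T →₀ A) :
    comb A (fun t => w t - w' t) v = comb A w v - comb A w' v := by
  simp only [sub_eq_add_neg]
  rw [comb_add, comb_neg]

theorem comb_zero (v : T →₀ A) : comb A (fun _ => (0 : X →₀ ℤ)) v = 0 := by
  induction v using Finsupp.induction_linear with
  | zero => simp
  | add f g hf hg => simp only [map_add, hf, hg]; abel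
  | single t a => rw [comb_single, map_zero, AddMonoidHom.zero_apply]

theorem comb_sum {ι : Type} (s : Finset ι) (w : ι → T → X →₀ ℤ) (v : T →₀ A) :
    comb A (fun t => ∑ i ∈ s, w i t) v = ∑ i ∈ s, comb A (w i) v := by
  classical
  induction s using Finset.induction_on with
  | empty => simpa using comb_zero v
  | insert i s hi ih => simp only [Finset.sum_insert hi, comb_add, ih]

theorem comb_zsmul (n : ℤ) (w : T → X →₀ ℤ) (v : T →₀ A) :
    comb A (fun t => n • w t) v = n • comb A w v := by
  induction v using Finsupp.induction_linear with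
  | zero => simp
  | add f g hf hg => simp only [map_add, hf, hg, smul_add]
  | single t a => rw [comb_single, comb_single, map_zsmul, AddMonoidHom.smul_apply]

/-- push forward along a map is an operator -/
theorem comb_map (f : T → X) (v : T →₀ A) :
    comb A (fun t => Finsupp.single (f t) 1) v = Finsupp.mapDomain f v := by
  induction v using Finsupp.induction_linear with
  | zero => simp
  | add f g hf hg => simp only [map_add, hf, hg, Finsupp.mapDomain_add]
  | single t a => rw [comb_single, tens_single, one_smul, Finsupp.mapDomain_single]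

theorem comb_mapDomain (f : T → X) (w : X → Y →₀ ℤ) (v : T →₀ A) :
    comb A w (Finsupp.mapDomain f v) = comb A (fun t => w (f t)) v := by
  rw [← comb_map, comb_comp]
  simp only [comb_single_one]

theorem mapDomain_comb (f : X → Y) (w : T → X →₀ ℤ) (v : T →₀ A) :
    Finsupp.mapDomain f (comb A w v) = comb A (fun t => Finsupp.mapDomain f (w t)) v := by
  rw [← comb_map, comb_comp]
  simp only [comb_map]

/-- change of coefficients -/
noncomputable def cf (f : A →+ A') {X : Type} : (X →₀ A) →+ (X →₀ A') :=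
  Finsupp.mapRange.addMonoidHom f

theorem cf_single (f : A →+ A') (x : X) (a : A) :
    cf f (Finsupp.single x a) = Finsupp.single x (f a) := by
  simp [cf]

theorem cf_apply (f : A →+ A') (v : X →₀ A) (x : X) : cf f v x = f (v x) := rfl

theorem cf_tens (f : A →+ A') (w : X →₀ ℤ) (a : A) : cf f (tens A w a) = tens A' w (f a) := by
  induction w using Finsupp.induction_linear with
  | zero => simp
  | add g h hg hh => simp only [map_add, AddMonoidHom.add_apply, hg, hh]
  | single x n => rw [tens_single, tens_single, cf_single, map_zsmul]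

/-- operators commute with the change of coefficients -/
theorem cf_comb (f : A →+ A') (w : T → X →₀ ℤ) (v : T →₀ A) :
    cf f (comb A w v) = comb A' w (cf f v) := by
  induction v using Finsupp.induction_linear with
  | zero => simp
  | add g h hg hh => simp only [map_add, hg, hh]
  | single t a => rw [comb_single, cf_single, comb_single, cf_tens]

end comb

/-! ### Right actions and the chains of their action groupoids -/

/-- a right action of a group `Γ` on a type `S` -/
structure RA (S Γ : Type) [Group Γ] where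
  act : S → Γ → S
  act_one : ∀ s, act s 1 = s
  act_mul : ∀ s g h, act s (g * h) = act (act s g) h

/-- the chains with coefficients in `A`: `(s; g 0, …, g (m-1))` is the string
`s → s·g0 → s·g0·g1 → …` -/
abbrev Ch (S Γ A : Type) [AddCommGroup A] (m : ℕ) : Type := (S × (Fin m → Γ)) →₀ A

section RA

variable {S S' Γ Γ' : Type} [Group Γ] [Group Γ'] (R : RA S Γ)

/-- the faces: the face `0` is `(s·g0; g1, …)`, the face `j+1` is `(s; …, gj * g(j+1), …)`, the last
face is `(s; g0, …, g(m-1))` -/
def RA.face {m : ℕ} (i : Fin (m + 2)) (x : S × (Fin (m + 1) → Γ)) : S × (Fin m → Γ) :=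
  Fin.cases (motive := fun _ => S × (Fin m → Γ)) (R.act x.1 (x.2 0), fun k => x.2 k.succ)
    (fun j : Fin (m + 1) => (x.1, Fin.contractNth j (· * ·) x.2)) i

theorem RA.face_zero {m : ℕ} (x : S × (Fin (m + 1) → Γ)) :
    R.face 0 x = (R.act x.1 (x.2 0), fun k => x.2 k.succ) := rfl

theorem RA.face_succ {m : ℕ} (j : Fin (m + 1)) (x : S × (Fin (m + 1) → Γ)) :
    R.face j.succ x = (x.1, Fin.contractNth j (· * ·) x.2) := rfl

/-- the boundary of one string -/
noncomputable def RA.bdz {m : ℕ} (x : S × (Fin (m + 1) → Γ)) : Ch S Γ ℤ m :=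
  ∑ i : Fin (m + 2), ((-1 : ℤ) ^ (i : ℕ)) • Finsupp.single (R.face i x) 1

/-- the boundary -/
noncomputable def RA.bd (A : Type) [AddCommGroup A] (m : ℕ) : Ch S Γ A (m + 1) →+ Ch S Γ A m :=
  comb A R.bdz

theorem tens_zsmul {X A : Type} [AddCommGroup A] (n : ℤ) (w : X →₀ ℤ) (a : A) :
    tens A (n • w) a = n • tens A w a := by
  rw [map_zsmul, AddMonoidHom.smul_apply]

theorem RA.bd_single {A : Type} [AddCommGroup A] {m : ℕ} (x : S × (Fin (m + 1) → Γ)) (a : A) :
    R.bd A m (Finsupp.single x a) =
      ∑ i : Fin (m + 2), ((-1 : ℤ) ^ (i : ℕ)) • Finsupp.single (R.face i x) a := by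
  unfold RA.bd RA.bdz
  rw [comb_single, map_sum, AddMonoidHom.finsetSum_apply]
  refine Finset.sum_congr rfl fun i _ => ?_
  rw [tens_zsmul, tens_single, one_smul]

/-- cycles (every chain of degree `0` is a cycle) -/
def RA.IsC {A : Type} [AddCommGroup A] : ∀ {m : ℕ}, Ch S Γ A m → Prop
  | 0, _ => True
  | (m + 1), z => R.bd A m z = 0

/-- boundaries -/
def RA.IsB {A : Type} [AddCommGroup A] {m : ℕ} (z : Ch S Γ A m) : Prop :=
  ∃ y : Ch S Γ A (m + 1), R.bd A m y = z

section IsB

variable {R} {A : Type} [AddCommGroup A] {m : ℕ}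

theorem RA.IsB.zero : R.IsB (0 : Ch S Γ A m) := ⟨0, map_zero _⟩

theorem RA.IsB.add {z z' : Ch S Γ A m} (h : R.IsB z) (h' : R.IsB z') : R.IsB (z + z') := by
  obtain ⟨y, rfl⟩ := h
  obtain ⟨y', rfl⟩ := h'
  exact ⟨y + y', map_add _ _ _⟩

theorem RA.IsB.neg {z : Ch S Γ A m} (h : R.IsB z) : R.IsB (-z) := by
  obtain ⟨y, rfl⟩ := h
  exact ⟨-y, map_neg _ _⟩

theorem RA.IsB.sub {z z' : Ch S Γ A m} (h : R.IsB z) (h' : R.IsB z') : R.IsB (z - z') := by
  rw [sub_eq_add_neg]
  exact h.add h'.neg

theorem RA.IsB.sum {ι : Type} (s : Finset ι) (z : ι → Ch S Γ A m) (h : ∀ i ∈ s, R.IsB (z i)) :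
    R.IsB (∑ i ∈ s, z i) := by
  classical
  induction s using Finset.induction_on with
  | empty => simpa using RA.IsB.zero
  | insert i s hi ih =>
    rw [Finset.sum_insert hi]
    exact (h i (Finset.mem_insert_self i s)).add (ih fun j hj => h j (Finset.mem_insert_of_mem hj))

end IsB

end RA

/-- the action on one point -/
def pt (Γ : Type) [Group Γ] : RA Unit Γ where
  act _ _ := ()
  act_one _ := rfl
  act_mul _ _ _ := rfl

/-- the action on the group `B` by right multiplication through `π` -/
def rt {Γ B : Type} [Group Γ] [Group B] (π : Γ →* B) : RA B Γ where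
  act b g := b * π g
  act_one b := by rw [map_one, mul_one]
  act_mul b g h := by rw [map_mul, mul_assoc]

/-- `I` copies of an action -/
def cop (I : Type) {S Γ : Type} [Group Γ] (R : RA S Γ) : RA (I × S) Γ where
  act s g := (s.1, R.act s.2 g)
  act_one s := by rw [R.act_one]
  act_mul s g h := by rw [R.act_mul]

/-! ### Functors between action groupoids -/

/-- functors between action groupoids -/
structure GF {S S' Γ Γ' : Type} [Group Γ] [Group Γ'] (R : RA S Γ) (R' : RA S' Γ') where
  f : S → S'
  φ : S → Γ → Γ'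
  f_act : ∀ s g, f (R.act s g) = R'.act (f s) (φ s g)
  φ_mul : ∀ s g h, φ s (g * h) = φ s g * φ (R.act s g) h

section GF

variable {S S' Γ Γ' : Type} [Group Γ] [Group Γ'] {R : RA S Γ} {R' : RA S' Γ'}

/-- the image of a string -/
def GF.tup (F : GF R R') {m : ℕ} (x : S × (Fin m → Γ)) : S' × (Fin m → Γ') :=
  (F.f x.1, fun i => F.φ (R.act x.1 (Fin.partialProd x.2 i.castSucc)) (x.2 i))

/-- the chain map of a functor -/
noncomputable def GF.map (F : GF R R') (A : Type) [AddCommGroup A] (m : ℕ) :
    Ch S Γ A m →+ Ch S' Γ' A m :=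
  comb A fun x => Finsupp.single (F.tup x) 1

theorem GF.map_eq (F : GF R R') {A : Type} [AddCommGroup A] {m : ℕ} (c : Ch S Γ A m) :
    F.map A m c = Finsupp.mapDomain F.tup c := comb_map _ _

theorem GF.map_single (F : GF R R') {A : Type} [AddCommGroup A] {m : ℕ} (x : S × (Fin m → Γ))
    (a : A) : F.map A m (Finsupp.single x a) = Finsupp.single (F.tup x) a := by
  rw [GF.map_eq, Finsupp.mapDomain_single]

/-- a natural transformation between two functors -/
structure NT (F F' : GF R R') where
  τ : S → Γ'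
  f_act : ∀ s, R'.act (F.f s) (τ s) = F'.f s
  nat : ∀ s g, F.φ s g * τ (R.act s g) = τ s * F'.φ s g

/-- the prism with the transformation at the place `j`:
`(f s; φ g0, …, φ g(j-1), τ, φ' gj, …, φ' g(m-1))` -/
def NT.tup {F F' : GF R R'} (t : NT F F') {m : ℕ} (j : Fin (m + 1)) (x : S × (Fin m → Γ)) :
    S' × (Fin (m + 1) → Γ') :=
  (F.f x.1, Fin.insertNth (α := fun _ => Γ') j (t.τ (R.act x.1 (Fin.partialProd x.2 j)))
    fun i => if i.castSucc < j then F.φ (R.act x.1 (Fin.partialProd x.2 i.castSucc)) (x.2 i)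
      else F'.φ (R.act x.1 (Fin.partialProd x.2 i.castSucc)) (x.2 i))

/-- the prism operator -/
noncomputable def NT.hmt {F F' : GF R R'} (t : NT F F') (A : Type) [AddCommGroup A] (m : ℕ) :
    Ch S Γ A m →+ Ch S' Γ' A (m + 1) :=
  comb A fun x => ∑ j : Fin (m + 1), ((-1 : ℤ) ^ (j : ℕ)) • Finsupp.single (t.tup j x) 1

end GF

/-- push forward along a map of the sets on which the same group acts -/
noncomputable def psh {S S' : Type} (f : S → S') (Γ A : Type) [AddCommGroup A] (m : ℕ) :
    Ch S Γ A m →+ Ch S' Γ A m :=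
  comb A fun x => Finsupp.single (f x.1, x.2) 1

theorem psh_eq {S S' : Type} (f : S → S') {Γ A : Type} [AddCommGroup A] {m : ℕ}
    (c : Ch S Γ A m) : psh f Γ A m c = Finsupp.mapDomain (fun x => (f x.1, x.2)) c := comb_map _ _

theorem psh_single {S S' : Type} (f : S → S') {Γ A : Type} [AddCommGroup A] {m : ℕ}
    (x : S × (Fin m → Γ)) (a : A) :
    psh f Γ A m (Finsupp.single x a) = Finsupp.single (f x.1, x.2) a := by
  rw [psh_eq, Finsupp.mapDomain_single]

/-- the functor of a homomorphism between one point actions -/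
def GF.hom {N Γ : Type} [Group N] [Group Γ] (ι : N →* Γ) : GF (pt N) (pt Γ) where
  f _ := ()
  φ _ n := ι n
  f_act _ _ := rfl
  φ_mul _ g h := map_mul ι g h

/-- the chain map of a homomorphism -/
noncomputable def hm {N Γ : Type} [Group N] [Group Γ] (ι : N →* Γ) (A : Type) [AddCommGroup A]
    (m : ℕ) : Ch Unit N A m →+ Ch Unit Γ A m :=
  comb A fun x => Finsupp.single ((), fun i => ι (x.2 i)) 1

theorem hm_eq {N Γ : Type} [Group N] [Group Γ] (ι : N →* Γ) {A : Type} [AddCommGroup A]
    {m : ℕ} (c : Ch Unit N A m) :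
    hm ι A m c = Finsupp.mapDomain (fun x => ((), fun i => ι (x.2 i))) c := comb_map _ _

theorem hm_single {N Γ : Type} [Group N] [Group Γ] (ι : N →* Γ) {A : Type} [AddCommGroup A]
    {m : ℕ} (x : Unit × (Fin m → N)) (a : A) :
    hm ι A m (Finsupp.single x a) = Finsupp.single ((), fun i => ι (x.2 i)) a := by
  rw [hm_eq, Finsupp.mapDomain_single]

theorem hom_map {N Γ : Type} [Group N] [Group Γ] (ι : N →* Γ) (A : Type) [AddCommGroup A]
    (m : ℕ) : (GF.hom ι).map A m = hm ι A m := rfl

/-- the inclusion of the kernel at the base point `1`: `(n 0, …) ↦ (1; j (n 0), …)` -/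
noncomputable def jm {N Γ : Type} (B : Type) [Group N] [Group Γ] [Group B] (j : N →* Γ) (A : Type)
    [AddCommGroup A] (m : ℕ) : Ch Unit N A m →+ Ch B Γ A m :=
  comb A fun x => Finsupp.single ((1 : B), fun i => j (x.2 i)) 1

theorem jm_single {N Γ B : Type} [Group N] [Group Γ] [Group B] (j : N →* Γ) {A : Type}
    [AddCommGroup A] {m : ℕ} (x : Unit × (Fin m → N)) (a : A) :
    jm B j A m (Finsupp.single x a) = Finsupp.single (1, fun i => j (x.2 i)) a := by
  unfold jm
  rw [comb_single, tens_single, one_smul]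

/-! ### Crossed homomorphisms -/

section crossed

variable {S Γ : Type} [Group Γ]

/-- crossed homomorphisms `D (g h) = (D g)·h + D h` -/
def IsX (R : RA S Γ) (D : Γ → S →₀ ℤ) : Prop :=
  ∀ g h, D (g * h) = Finsupp.mapDomain (fun s => R.act s h) (D g) + D h

/-- `(g 0, …, g m) ↦ D (g 0) (g 1, …, g m)` -/
noncomputable def LD (D : Γ → S →₀ ℤ) (A : Type) [AddCommGroup A] (m : ℕ) :
    Ch Unit Γ A (m + 1) →+ Ch S Γ A m :=
  comb A fun x => Finsupp.mapDomain (fun s => (s, fun k => x.2 k.succ)) (D (x.2 0))

/-- the crossed homomorphism `g ↦ [π g] - [1]` -/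
noncomputable def D0 {Γ B : Type} [Group Γ] [Group B] (π : Γ →* B) (g : Γ) : B →₀ ℤ :=
  Finsupp.single (π g) 1 - Finsupp.single 1 1

/-- `c ↦ (1; c)` -/
noncomputable def Lam (Γ B : Type) [Group B] (A : Type) [AddCommGroup A] (m : ℕ) :
    Ch Unit Γ A m →+ Ch B Γ A m :=
  psh (fun _ => (1 : B)) Γ A m

/-- `(b; c) ↦ c` -/
noncomputable def eps (S Γ A : Type) [AddCommGroup A] (m : ℕ) :
    Ch S Γ A m →+ Ch Unit Γ A m :=
  psh (fun _ => ()) Γ A m

/-- left multiplication by `b` -/
noncomputable def lm {B : Type} [Group B] (b : B) (Γ A : Type) [AddCommGroup A] (m : ℕ) :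
    Ch B Γ A m →+ Ch B Γ A m :=
  psh (fun s => b * s) Γ A m

/-- `(i, b; c) ↦ (x i * b; c) - (b; c)` -/
noncomputable def Xm {I B : Type} [Group B] (x : I → B) (Γ A : Type) [AddCommGroup A] (m : ℕ) :
    Ch (I × B) Γ A m →+ Ch B Γ A m :=
  psh (fun s => x s.1 * s.2) Γ A m - psh (fun s => s.2) Γ A m

/-- `Fox D`: a crossed homomorphism `D` into `I` copies of `ℤ B` with
`∑ i, (x i - 1) D i g = g - 1` and `D (y i) = e i` for some elements `y i` over `x i` -/
structure Fox {I Γ B : Type} [Group Γ] [Group B] (π : Γ →* B) (y : I → Γ)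
    (D : Γ → (I × B) →₀ ℤ) : Prop where
  crossed : IsX (cop I (rt π)) D
  fund : ∀ g, Finsupp.mapDomain (fun s : I × B => π (y s.1) * s.2) (D g) -
    Finsupp.mapDomain (fun s : I × B => s.2) (D g) = D0 π g
  gen : ∀ i, D (y i) = Finsupp.single (i, 1) 1

end crossed

/-! ### Shuffles -/

/-- the product with a central element `t`:
`(g 0, …, g (m-1)) ↦ ∑ j, (-1)^j (g 0, …, g (j-1), t, g j, …)` -/
noncomputable def prod {G : Type} (t : G) (A : Type) [AddCommGroup A] (m : ℕ) :
    Ch Unit G A m →+ Ch Unit G A (m + 1) :=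
  comb A fun x => ∑ j : Fin (m + 1), ((-1 : ℤ) ^ (j : ℕ)) •
    Finsupp.single ((), Fin.insertNth (α := fun _ => G) j t x.2) 1

/-- the shuffle cycle of a tuple -/
noncomputable def sh {G : Type} {m : ℕ} (g : Fin m → G) : Ch Unit G ℤ m :=
  ∑ σ : Equiv.Perm (Fin m), (Equiv.Perm.sign σ : ℤ) • Finsupp.single ((), g ∘ σ) 1

/-- the homology of `G` is generated by the shuffle cycles of the elements of `C` -/
def Gen (G : Type) [Group G] (C : Set G) : Prop :=
  ∀ (A : Type) [AddCommGroup A] (m : ℕ) (z : Ch Unit G A m), (pt G).IsC z →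
    ∃ a : (Fin m → G) →₀ A, (∀ s ∈ a.support, ∀ i, s i ∈ C) ∧ (pt G).IsB (z - comb A sh a)

/-- free abelian groups, written multiplicatively -/
abbrev FA (Ω : Type) : Type := Multiplicative (Ω →₀ ℤ)

/-- the basis elements -/
noncomputable def be {Ω : Type} (ω : Ω) : FA Ω := Multiplicative.ofAdd (Finsupp.single ω 1)

/-- the map of free abelian groups of a map of the bases -/
noncomputable def fam {Ω Ω' : Type} (f : Ω → Ω') : FA Ω →* FA Ω' :=
  AddMonoidHom.toMultiplicative (Finsupp.mapDomain.addMonoidHom f)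

theorem fam_be {Ω Ω' : Type} (f : Ω → Ω') (ω : Ω) : fam f (be ω) = be (f ω) := by
  show Multiplicative.ofAdd (Finsupp.mapDomain f (Finsupp.single ω 1)) = _
  rw [Finsupp.mapDomain_single]
  rfl

/-- the product of the coordinates `τ i` of the `g i` -/
noncomputable def phi {Ω : Type} {m : ℕ} (τ : Fin m → Ω) (A : Type) [AddCommGroup A] :
    Ch Unit (FA Ω) A m →+ A :=
  Finsupp.liftAddHom fun x =>
    (∏ i, (Multiplicative.toAdd (x.2 i)) (τ i) : ℤ) • AddMonoidHom.id A

/-- a basis of the homology of the free abelian group `FA Ω` in degree `m` which is permuted by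
a group `B` acting on `Ω` -/
structure HW (Ω B : Type) [Group B] [MulAction B Ω] (m : ℕ) where
  T : Type
  act : MulAction B T
  u : T → Ch Unit (FA Ω) ℤ m
  cyc : ∀ t, (pt (FA Ω)).IsC (u t)
  equiv : ∀ (b : B) (t : T), hm (fam fun ω : Ω => b • ω) ℤ m (u t) = u (act.smul b t)
  gen : ∀ (A : Type) [AddCommGroup A] (z : Ch Unit (FA Ω) A m), (pt (FA Ω)).IsC z →
    ∃ a : T →₀ A, (pt (FA Ω)).IsB (z - comb A u a)
  ind : ∀ (A : Type) [AddCommGroup A] (a : T →₀ A), (pt (FA Ω)).IsB (comb A u a) → a = 0

/-- a basis of the homology of `Γ` with coefficients in `A[B]` in degree `m` which is permuted by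
`B` -/
structure HB {Γ B : Type} [Group Γ] [Group B] (π : Γ →* B) (m : ℕ) where
  T : Type
  act : MulAction B T
  w : T → Ch B Γ ℤ m
  cyc : ∀ t, (rt π).IsC (w t)
  equiv : ∀ (b : B) (t : T), (rt π).IsB (lm b Γ ℤ m (w t) - w (act.smul b t))
  gen : ∀ (A : Type) [AddCommGroup A] (z : Ch B Γ A m), (rt π).IsC z →
    ∃ a : T →₀ A, (rt π).IsB (z - comb A w a)
  ind : ∀ (A : Type) [AddCommGroup A] (a : T →₀ A), (rt π).IsB (comb A w a) → a = 0

end Pool.Agent.H316.TF
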