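import Pool.Agent.H316.TF.Lem

set_option autoImplicit false

namespace Pool.Agent.H316.TF

open Finsupp

namespace GFA

theorem hm_sh {G G' : Type} [Group G] [Group G'] (ψ : G →* G') (m : ℕ) (s : Fin m → G) :
    Finsupp.mapDomain (fun x : Unit × (Fin m → G) => (((), fun i => ψ (x.2 i)) :
      Unit × (Fin m → G'))) (sh s) = sh fun i => ψ (s i) := by
  unfold sh
  rw [Finsupp.mapDomain_finsetSum]
  refine Finset.sum_congr rfl fun σ _ => ?_
  rw [Finsupp.mapDomain_smul, Finsupp.mapDomain_single]
  rfl

theorem hm_comb_sh {G G' A : Type} [Group G] [Group G'] [AddCommGroup A] (ψ : G →* G') (m : ℕ)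
    (a : (Fin m → G) →₀ A) :
    hm ψ A m (comb A sh a) =
      comb A sh (Finsupp.mapDomain (fun (s : Fin m → G) (i : Fin m) => ψ (s i)) a) := by
  rw [hm_eq, mapDomain_comb, comb_mapDomain]
  simp only [hm_sh]

theorem fam_inj {Ω Ω' : Type} (f : Ω → Ω') (hf : Function.Injective f) :
    Function.Injective (fam f) := by
  intro x y h
  exact Finsupp.mapDomain_injective hf h

theorem fin_gen (h_triv : S_triv) (h_gstep : S_gstep) (n : ℕ) :
    Gen (FA (Fin n)) (Set.range (be : Fin n → FA (Fin n))) := by
  induction n with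
  | zero =>
    have h1 : Subsingleton (FA (Fin 0)) := by
      refine ⟨fun a b => ?_⟩
      have : Multiplicative.toAdd a = Multiplicative.toAdd b := by
        ext i
        exact i.elim0
      exact this
    have h2 : Set.range (be : Fin 0 → FA (Fin 0)) = ∅ := Set.range_eq_empty _
    rw [h2]
    exact h_triv _ h1
  | succ n ih =>
    have h1 := h_gstep (FA (Fin (n + 1))) (FA (Fin n))
      (AddMonoidHom.toMultiplicative (Finsupp.applyAddHom (0 : Fin (n + 1)))) (be 0)
      (fam Fin.succ) (fun g => mul_comm _ _) ?_ (fam_inj _ (Fin.succ_injective n)) ?_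
      (Set.range be) ih
    · have h2 : insert (be (0 : Fin (n + 1))) (⇑(fam (Fin.succ : Fin n → Fin (n + 1))) ''
          Set.range be) = Set.range be := by
        ext g
        constructor
        · rintro (rfl | ⟨_, ⟨i, rfl⟩, rfl⟩)
          · exact ⟨0, rfl⟩
          · exact ⟨i.succ, (fam_be _ _).symm⟩
        · rintro ⟨i, rfl⟩
          refine Fin.cases ?_ (fun j => ?_) i
          · exact Or.inl rfl
          · exact Or.inr ⟨be j, ⟨j, rfl⟩, fam_be _ _⟩
      rw [h2] at h1
      exact h1
    · show Multiplicative.ofAdd ((Finsupp.single (0 : Fin (n + 1)) (1 : ℤ)) 0) = _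
      rw [Finsupp.single_eq_same]
    · intro g
      constructor
      · intro h
        have h3 : (Multiplicative.toAdd g) (0 : Fin (n + 1)) = 0 := h
        refine ⟨Multiplicative.ofAdd (Finsupp.comapDomain Fin.succ (Multiplicative.toAdd g)
          (Fin.succ_injective n).injOn), ?_⟩
        show Finsupp.mapDomain Fin.succ (Finsupp.comapDomain Fin.succ (Multiplicative.toAdd g)
          (Fin.succ_injective n).injOn) = Multiplicative.toAdd g
        refine Finsupp.mapDomain_comapDomain _ (Fin.succ_injective n) _ ?_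
        intro i hi
        rcases Fin.eq_zero_or_eq_succ i with rfl | ⟨j, rfl⟩
        · exact absurd h3 (Finsupp.mem_support_iff.1 hi)
        · exact ⟨j, rfl⟩
      · rintro ⟨g, rfl⟩
        show (Finsupp.mapDomain Fin.succ (Multiplicative.toAdd g)) (0 : Fin (n + 1)) = 0
        refine Finsupp.mapDomain_of_notMem_range _ _ ?_
        rintro ⟨j, hj⟩
        exact absurd hj (Fin.succ_ne_zero j)

end GFA

open GFA in
theorem t_gFA (h_map : S_map) (h_triv : S_triv) (h_gstep : S_gstep) : S_gFA := by
  classical
  intro Ω A _ m z hz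
  set Z : Finset Ω := z.support.biUnion (fun x => Finset.univ.biUnion
    (fun i : Fin m => (Multiplicative.toAdd (x.2 i)).support)) with hZ
  set c : Fin Z.card → Ω := fun i => (Z.equivFin.symm i).1 with hc
  have hcinj : Function.Injective c := by
    intro i j h
    exact Z.equivFin.symm.injective (Subtype.ext h)
  have hcr : ∀ ω ∈ Z, ∃ i, c i = ω := by
    intro ω hω
    exact ⟨Z.equivFin ⟨ω, hω⟩, by rw [hc]; simp⟩
  have hψ := fam_inj c hcinj
  set P : Unit × (Fin m → FA (Fin Z.card)) → Unit × (Fin m → FA Ω) :=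
    fun x => ((), fun i => fam c (x.2 i)) with hP
  have hPinj : Function.Injective P := by
    rintro ⟨_, x⟩ ⟨_, y⟩ h
    have h1 : (fun i => fam c (x i)) = fun i => fam c (y i) := congrArg Prod.snd h
    have h2 : x = y := by
      funext i
      exact hψ (congrFun h1 i)
    rw [h2]
  have hrange : ↑z.support ⊆ Set.range P := by
    rintro ⟨u, x⟩ hx
    refine ⟨((), fun i => Multiplicative.ofAdd (Finsupp.comapDomain c
      (Multiplicative.toAdd (x i)) hcinj.injOn)), ?_⟩
    refine Prod.ext rfl ?_
    funext i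
    show Finsupp.mapDomain c (Finsupp.comapDomain c (Multiplicative.toAdd (x i)) hcinj.injOn) =
      Multiplicative.toAdd (x i)
    refine Finsupp.mapDomain_comapDomain _ hcinj _ ?_
    intro ω hω
    obtain ⟨j, hj⟩ := hcr ω (by
      rw [hZ, Finset.mem_biUnion]
      exact ⟨(u, x), hx, Finset.mem_biUnion.2 ⟨i, Finset.mem_univ _, hω⟩⟩)
    exact ⟨j, hj⟩
  set z' : Ch Unit (FA (Fin Z.card)) A m := Finsupp.comapDomain P z hPinj.injOn with hz'
  have hzz : hm (fam c) A m z' = z := by
    rw [hm_eq]
    exact Finsupp.mapDomain_comapDomain P hPinj z hrange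
  have hcyc : (pt (FA (Fin Z.card))).IsC z' := by
    clear_value z'
    cases m with
    | zero => trivial
    | succ m =>
      show (pt (FA (Fin Z.card))).bd A m z' = 0
      have h1 := hm_bd h_map (fam c) z'
      rw [hzz] at h1
      have h2 : (pt (FA Ω)).bd A m z = 0 := hz
      rw [h2, hm_eq] at h1
      have h3 : Function.Injective (fun x : Unit × (Fin m → FA (Fin Z.card)) =>
          (((), fun i => fam c (x.2 i)) : Unit × (Fin m → FA Ω))) := by
        rintro ⟨_, x⟩ ⟨_, y⟩ h
        have h1 : (fun i => fam c (x i)) = fun i => fam c (y i) := congrArg Prod.snd h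
        have h2 : x = y := by
          funext i
          exact hψ (congrFun h1 i)
        rw [h2]
      apply Finsupp.mapDomain_injective h3
      rw [← h1, Finsupp.mapDomain_zero]
  obtain ⟨a, ha, hb⟩ := fin_gen h_triv h_gstep Z.card A m z' hcyc
  refine ⟨Finsupp.mapDomain (fun (s : Fin m → FA (Fin Z.card)) (i : Fin m) => fam c (s i)) a,
    ?_, ?_⟩
  · intro s hs i
    have h1 := Finsupp.mapDomain_support hs
    rw [Finset.mem_image] at h1
    obtain ⟨s', hs', rfl⟩ := h1
    obtain ⟨j, hj⟩ := ha s' hs' i
    exact ⟨c j, by rw [← fam_be, hj]⟩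
  · have h1 := hm_isB h_map (fam c) hb
    rw [map_sub, hzz, hm_comb_sh] at h1
    exact h1

end Pool.Agent.H316.TF
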