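import Pool.Agent.H316.TF.Lem

/-!
# Project TF (helper316): TF-12, the homology of `G = G0 × ⟨t⟩` (helper404)
-/

set_option autoImplicit false

namespace Pool.Agent.H316.TF

open Finsupp

namespace H404G

variable {G G0 : Type} [Group G] [Group G0] (π : G →* Multiplicative ℤ) (t : G) (ι : G0 →* G)

theorem surj (hπ : π t = Multiplicative.ofAdd 1) : Function.Surjective π := by
  intro b
  refine ⟨t ^ (Multiplicative.toAdd b), ?_⟩
  rw [map_zpow, hπ, ← ofAdd_zsmul, smul_eq_mul, mul_one]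
  rfl

/-- the functor `n ↦ (T; ι n)` -/
def F' (hι : ∀ n, π (ι n) = 1) (T : Multiplicative ℤ) : GF (pt G0) (rt π) where
  f _ := T
  φ _ n := ι n
  f_act _ n := by
    show T = T * π (ι n)
    rw [hι, mul_one]
  φ_mul _ g h := map_mul ι g h

/-- the natural transformation given by the central element -/
def nt (hι : ∀ n, π (ι n) = 1) (ht : ∀ g, t * g = g * t) :
    NT (GF.jm π ι hι) (F' π ι hι (π t)) where
  τ _ := t
  f_act _ := by
    show (1 : Multiplicative ℤ) * π t = π t
    rw [one_mul]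
  nat _ g := by
    show ι g * t = t * ι g
    rw [ht]

theorem F'_map (hι : ∀ n, π (ι n) = 1) (T : Multiplicative ℤ) {A : Type} [AddCommGroup A] {m : ℕ}
    (c : Ch Unit G0 A m) :
    (F' π ι hι T).map A m c = lm T G A m (jm (Multiplicative ℤ) ι A m c) := by
  unfold lm jm
  rw [psh_eq, mapDomain_comb, GF.map]
  simp only [Finsupp.mapDomain_single]
  show comb A _ c = comb A _ c
  refine congrArg (fun w => comb A w c) ?_
  funext x
  show Finsupp.single (T, fun i => ι (x.2 i)) (1 : ℤ) =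
    Finsupp.single (T * 1, fun i => ι (x.2 i)) 1
  rw [mul_one]

theorem eps_hmt (hι : ∀ n, π (ι n) = 1) (ht : ∀ g, t * g = g * t) {A : Type} [AddCommGroup A]
    {m : ℕ} (c : Ch Unit G0 A m) :
    eps (Multiplicative ℤ) G A (m + 1) ((nt π t ι hι ht).hmt A m c) =
      prod t A m (hm ι A m c) := by
  unfold eps prod NT.hmt
  rw [psh_eq, mapDomain_comb, hm_eq, comb_mapDomain]
  refine congrArg (fun w => comb A w c) ?_
  funext x
  rw [Finsupp.mapDomain_finsetSum]
  refine Finset.sum_congr rfl fun j _ => ?_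
  rw [Finsupp.mapDomain_smul, Finsupp.mapDomain_single]
  refine congrArg (fun y => ((-1 : ℤ) ^ (j : ℕ)) • Finsupp.single y (1 : ℤ)) ?_
  refine Prod.ext rfl ?_
  show Fin.insertNth (α := fun _ => G) j t
      (fun i : Fin m => if i.castSucc < j then ι (x.2 i) else ι (x.2 i)) =
    Fin.insertNth (α := fun _ => G) j t (fun i => ι (x.2 i))
  simp only [ite_self]

end H404G

theorem t_G (h_dd : S_dd) (h_map : S_map) (h_hmt : S_hmt) (h_LD : S_LD) (h_Lam : S_Lam)
    (h_shap : S_shap) (h_foxZ : S_foxZ) : S_G := by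
  intro G G0 _ _ π t ι ht hπt hinj hker A _ m z hz
  obtain ⟨D, hD⟩ := h_foxZ G π t hπt
  have hsurj := H404G.surj π t hπt
  have hι : ∀ n, π (ι n) = 1 := fun n => (hker _).2 ⟨n, rfl⟩
  have hz0 : (pt G).bd A m z = 0 := hz
  obtain ⟨sh1, -⟩ := h_shap G0 G (Multiplicative ℤ) π ι hsurj hinj hker A m
  obtain ⟨sh2, -⟩ := h_shap G0 G (Multiplicative ℤ) π ι hsurj hinj hker A (m + 1)
  -- the lift
  have hy : (rt π).bd A m (Lam G (Multiplicative ℤ) A (m + 1) z) =
      Xm (fun _ : Unit => π t) G A m (LD D A m z) := by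
    rw [h_Lam G (Multiplicative ℤ) π A m z, hz0, map_zero, zero_add]
    exact (Xm_LD π hD z).symm
  have hz' : (cop Unit (rt π)).IsC (LD D A m z) := by
    cases m with
    | zero => trivial
    | succ m =>
      show (cop Unit (rt π)).bd A m (LD D A (m + 1) z) = 0
      rw [h_LD (Unit × Multiplicative ℤ) G (cop Unit (rt π)) D hD.crossed A m z, hz0, map_zero,
        neg_zero]
  have hsnd : ∀ (s : Unit × Multiplicative ℤ) (g : G),
      Prod.snd ((cop Unit (rt π)).act s g) = (rt π).act (Prod.snd s) g := fun _ _ => rfl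
  have hz'' : (rt π).IsC (psh Prod.snd G A m (LD D A m z)) :=
    (GF.eqv (cop Unit (rt π)) (rt π) Prod.snd hsnd).map_isC h_map hz'
  have hXm : Xm (fun _ : Unit => π t) G A m (LD D A m z) =
      lm (π t) G A m (psh Prod.snd G A m (LD D A m z)) - psh Prod.snd G A m (LD D A m z) := by
    unfold Xm lm
    rw [AddMonoidHom.sub_apply]
    refine congrArg₂ (· - ·) ?_ rfl
    rw [psh_eq, psh_eq, psh_eq, ← Finsupp.mapDomain_comp]
    rfl
  generalize psh Prod.snd G A m (LD D A m z) = z'' at hz'' hXm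
  obtain ⟨z1, hz1, η, hη⟩ := sh1 z'' hz''
  have hz''eq : z'' = jm (Multiplicative ℤ) ι A m z1 + (rt π).bd A m η := by
    rw [hη]; abel
  -- the prism
  have hpr : (rt π).bd A m ((H404G.nt π t ι hι ht).hmt A m z1) =
      lm (π t) G A m (jm (Multiplicative ℤ) ι A m z1) - jm (Multiplicative ℤ) ι A m z1 := by
    rw [← H404G.F'_map π ι hι, jm_eq_map π ι hι]
    obtain ⟨hh0, hh1⟩ := h_hmt Unit (Multiplicative ℤ) G0 G (pt G0) (rt π) _ _
      (H404G.nt π t ι hι ht) A
    cases m with
    | zero => exact hh0 z1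
    | succ m =>
      have h1 : (pt G0).bd A m z1 = 0 := hz1
      have h2 := hh1 m z1
      rw [h1, map_zero, add_zero] at h2
      exact h2
  have hy' : (rt π).IsC (Lam G (Multiplicative ℤ) A (m + 1) z -
      (H404G.nt π t ι hι ht).hmt A m z1 - (lm (π t) G A (m + 1) η - η)) := by
    show (rt π).bd A m _ = 0
    rw [map_sub, map_sub, map_sub, hy, hXm, hpr, lm_bd π h_map, hz''eq, map_add]
    abel
  obtain ⟨z0, hz0', hB⟩ := sh2 _ hy'
  refine ⟨z0, z1, hz0', hz1, ?_⟩
  have hE := eps_isB h_map hB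
  rw [map_sub, map_sub, map_sub, map_sub, eps_Lam, H404G.eps_hmt, eps_jm] at hE
  have hl : eps (Multiplicative ℤ) G A (m + 1) (lm (π t) G A (m + 1) η) =
      eps (Multiplicative ℤ) G A (m + 1) η := eps_psh _ η
  rw [hl, sub_self, sub_zero] at hE
  rw [sub_right_comm]
  exact hE

end Pool.Agent.H316.TF
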