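import Pool.Agent.H316.TF.Lem

/-!
# Project TF (helper316), tasks TF-13 and TF-14: generation by shuffle cycles
-/

set_option autoImplicit false

namespace Pool.Agent.H316.TF

open Finsupp

namespace Gen975

variable {A : Type} [AddCommGroup A]

/-- the shuffle chain of the empty tuple -/
theorem sh_zero {G : Type} (g : Fin 0 → G) : sh g = Finsupp.single ((), g) 1 := by
  unfold sh
  rw [Fintype.sum_eq_single (1 : Equiv.Perm (Fin 0)) (fun σ hσ => absurd (Subsingleton.elim σ 1) hσ)]
  rw [Equiv.Perm.sign_one]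
  simp

theorem tens_one_single {X : Type} (x : X) (a : A) :
    tens A (Finsupp.single x 1) a = Finsupp.single x a := by
  rw [tens_single, one_smul]

/-- degree `0` -/
theorem deg_zero {G : Type} (z : Ch Unit G A 0) :
    z = comb A (sh : (Fin 0 → G) → Ch Unit G ℤ 0)
      (Finsupp.single (default : Fin 0 → G) (z ((), default))) := by
  rw [comb_single, sh_zero, tens_one_single]
  ext x
  have hx : x = ((), default) := Subsingleton.elim _ _
  rw [hx, Finsupp.single_eq_same]

theorem gen_zero {G : Type} [Group G] (C : Set G) (z : Ch Unit G A 0) :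
    ∃ a : (Fin 0 → G) →₀ A, (∀ s ∈ a.support, ∀ i, s i ∈ C) ∧
      (pt G).IsB (z - comb A sh a) := by
  refine ⟨Finsupp.single default (z ((), default)), fun _ _ i => i.elim0, ?_⟩
  rw [← deg_zero, sub_self]
  exact RA.IsB.zero

/-- the boundary of a string of the trivial group -/
theorem bd_triv {G : Type} [Group G] [Subsingleton G] {m : ℕ} (x : Unit × (Fin (m + 1) → G))
    (y : Unit × (Fin m → G)) (a : A) : (pt G).bd A m (Finsupp.single x a) =
      (if Even (m + 2) then (0 : ℤ) else 1) • Finsupp.single y a := by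
  rw [RA.bd_single, ← Fin.sum_neg_one_pow, Finset.sum_smul]
  refine Finset.sum_congr rfl fun i _ => ?_
  have h : (pt G).face i x = y := Subsingleton.elim _ _
  rw [h]

theorem eq_single {G : Type} [Subsingleton G] {m : ℕ} (z : Ch Unit G A m) (x : Unit × (Fin m → G)) :
    z = Finsupp.single x (z x) := by
  ext y
  have hy : y = x := Subsingleton.elim _ _
  rw [hy, Finsupp.single_eq_same]

theorem hm_sh {G G0 : Type} [Group G] [Group G0] (ι : G0 →* G) {m : ℕ} (g : Fin m → G0) :
    hm ι ℤ m (sh g) = sh (fun i => ι (g i)) := by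
  unfold sh
  rw [map_sum]
  refine Finset.sum_congr rfl fun σ _ => ?_
  rw [map_zsmul, hm_single]
  rfl

theorem hm_comb {G G0 T : Type} [Group G] [Group G0] (ι : G0 →* G) {m : ℕ}
    (w : T → Ch Unit G0 ℤ m) (a : T →₀ A) :
    hm ι A m (comb A w a) = comb A (fun t => hm ι ℤ m (w t)) a := by
  unfold hm
  rw [comb_comp]

theorem prod_comb {G T : Type} (t : G) {m : ℕ} (w : T → Ch Unit G ℤ m) (a : T →₀ A) :
    prod t A m (comb A w a) = comb A (fun s => prod t ℤ m (w s)) a := by
  unfold prod
  rw [comb_comp]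

end Gen975

open Gen975

theorem t_triv : S_triv := by
  intro G _ hG A _ m z hz
  cases m with
  | zero => exact gen_zero ∅ z
  | succ m =>
    refine ⟨0, fun s hs => absurd hs (by simp), ?_⟩
    rw [map_zero, sub_zero]
    obtain ⟨x0, hx0⟩ : ∃ x0 : Unit × (Fin (m + 1) → G), x0 = ((), fun _ => 1) := ⟨_, rfl⟩
    obtain ⟨x1, hx1⟩ : ∃ x1 : Unit × (Fin m → G), x1 = ((), fun _ => 1) := ⟨_, rfl⟩
    obtain ⟨x2, hx2⟩ : ∃ x2 : Unit × (Fin (m + 2) → G), x2 = ((), fun _ => 1) := ⟨_, rfl⟩
    have hz1 : (pt G).bd A m z = 0 := hz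
    have hzs := eq_single z x0
    by_cases hm : Even (m + 2)
    · -- `z` is the boundary of a string
      refine ⟨Finsupp.single x2 (z x0), ?_⟩
      have h1 : ¬ Even (m + 1 + 2) := by
        rw [Nat.even_iff] at hm ⊢
        omega
      rw [bd_triv x2 x0, if_neg h1, one_smul]
      exact hzs.symm
    · rw [hzs, bd_triv x0 x1, if_neg hm, one_smul] at hz1
      have h2 : z x0 = 0 := by
        have h3 := congrArg (fun f : Ch Unit G A m => f x1) hz1
        simpa using h3
      rw [hzs, h2, Finsupp.single_zero]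
      exact RA.IsB.zero

theorem t_gstep (h_map : S_map) (h_G : S_G) (h_prod : S_prod) (h_shuf : S_shuf) : S_gstep := by
  intro G G0 _ _ π t ι ht hπ hι hker C0 hG0 A _ m z hz
  cases m with
  | zero => exact gen_zero _ z
  | succ m =>
    obtain ⟨z0, z1, hz0, hz1, hzz⟩ := h_G G G0 π t ι ht hπ hι hker A m z hz
    obtain ⟨a0, ha0, hb0⟩ := hG0 A (m + 1) z0 hz0
    obtain ⟨a1, ha1, hb1⟩ := hG0 A m z1 hz1
    refine ⟨Finsupp.mapDomain (fun (g : Fin (m + 1) → G0) (i : Fin (m + 1)) => ι (g i)) a0 +
      Finsupp.mapDomain (fun (g : Fin m → G0) =>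
        (Fin.cons (α := fun _ => G) t (fun i => ι (g i)) : Fin (m + 1) → G)) a1, ?_, ?_⟩
    · intro s hs i
      classical
      rcases Finset.mem_union.1 (Finsupp.support_add hs) with h | h
      · obtain ⟨g, hg, rfl⟩ := Finset.mem_image.1 (Finsupp.mapDomain_support h)
        exact Set.mem_insert_of_mem _ ⟨g i, ha0 g hg i, rfl⟩
      · obtain ⟨g, hg, rfl⟩ := Finset.mem_image.1 (Finsupp.mapDomain_support h)
        refine Fin.cases ?_ (fun j => ?_) i
        · exact Set.mem_insert _ _
        · exact Set.mem_insert_of_mem _ ⟨g j, ha1 g hg j, rfl⟩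
    · have e0 : comb A sh (Finsupp.mapDomain
          (fun (g : Fin (m + 1) → G0) (i : Fin (m + 1)) => ι (g i)) a0) =
          hm ι A (m + 1) (comb A sh a0) := by
        rw [comb_mapDomain, hm_comb]
        have : (fun g : Fin (m + 1) → G0 => sh (fun i => ι (g i))) =
            fun g : Fin (m + 1) → G0 => hm ι ℤ (m + 1) (sh g) := by
          funext g
          rw [hm_sh]
        rw [this]
      have e1 : comb A sh (Finsupp.mapDomain (fun (g : Fin m → G0) =>
          (Fin.cons (α := fun _ => G) t (fun i => ι (g i)) : Fin (m + 1) → G)) a1) =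
          prod t A m (hm ι A m (comb A sh a1)) := by
        rw [comb_mapDomain, hm_comb, prod_comb]
        have : (fun g : Fin m → G0 => sh (Fin.cons (α := fun _ => G) t (fun i => ι (g i)) :
            Fin (m + 1) → G)) = fun g : Fin m → G0 => prod t ℤ m (hm ι ℤ m (sh g)) := by
          funext g
          rw [hm_sh, h_shuf G m t (fun i => ι (g i))]
        rw [this]
      rw [map_add, e0, e1]
      have hpB : ∀ {w : Ch Unit G A m}, (pt G).IsB w → (pt G).IsB (prod t A m w) := by
        rintro _ ⟨y, rfl⟩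
        refine ⟨- prod t A (m + 1) y, ?_⟩
        rw [map_neg, (h_prod G t ht A).2 m y, neg_neg]
      have h0 := hm_isB h_map ι hb0
      have h1 := hpB (hm_isB h_map ι hb1)
      have h2 := (hzz.add h0).add h1
      have e2 : z - hm ι A (m + 1) z0 - prod t A m (hm ι A m z1) +
          hm ι A (m + 1) (z0 - comb A sh a0) + prod t A m (hm ι A m (z1 - comb A sh a1)) =
          z - (hm ι A (m + 1) (comb A sh a0) + prod t A m (hm ι A m (comb A sh a1))) := by
        rw [map_sub, map_sub, map_sub]
        abel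
      rwa [e2] at h2

end Pool.Agent.H316.TF
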