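import Pool.Agent.H316.TF.Lem

/-!
# Project TF, task TF-HB: transfer of the permuted basis by Shapiro
-/

set_option autoImplicit false

namespace Pool.Agent.H316.TF

open Finsupp

theorem HB_aux_comb {N Γ B T A : Type} [Group N] [Group Γ] [Group B] [AddCommGroup A] (j : N →* Γ)
    (m : ℕ) (u : T → Ch Unit N ℤ m) (a : T →₀ A) :
    comb A (fun t => jm B j ℤ m (u t)) a = jm B j A m (comb A u a) := by
  unfold jm
  rw [comb_comp]

theorem t_HB (h_map : S_map) (h_shap : S_shap) (h_conj : S_conj) : S_HB := by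
  rintro Ω Γ B _ _ _ π j hπ hj hk hconj m ⟨H⟩
  have hpj : ∀ n, π (j n) = 1 := fun n => (hk (j n)).2 ⟨n, rfl⟩
  refine ⟨⟨H.T, H.act, fun t => jm B j ℤ m (H.u t), ?_, ?_, ?_, ?_⟩⟩
  · intro t
    exact jm_isC h_map π j hpj (H.cyc t)
  · intro b t
    obtain ⟨γ, rfl⟩ := hπ b
    have h := h_conj (FA Ω) Γ B π j (fam fun ω : Ω => π γ • ω) γ hpj
      (fun n => (hconj γ n).symm) ℤ m (H.u t) (H.cyc t)
    rw [H.equiv (π γ) t] at h
    exact h
  · intro A _ z hz
    obtain ⟨z0, hz0, hB⟩ := (h_shap (FA Ω) Γ B π j hπ hj hk A m).1 z hz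
    obtain ⟨a, ha⟩ := H.gen A z0 hz0
    refine ⟨a, ?_⟩
    rw [HB_aux_comb]
    have h1 := jm_isB h_map π j hpj ha
    rw [map_sub] at h1
    have h2 := hB.add h1
    rwa [sub_add_sub_cancel] at h2
  · intro A _ a ha
    rw [HB_aux_comb] at ha
    exact H.ind A a ((h_shap (FA Ω) Γ B π j hπ hj hk A m).2 _ ha)

end Pool.Agent.H316.TF
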