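import Pool.Agent.H316.TF.Stm2

/-!
# Project TF: TF-18 (`S_half`) and TF-19 (`S_HW`)   (helper746)
-/

set_option autoImplicit false

namespace Pool.Agent.H316.TF

open Finsupp

namespace HalfHW

theorem half_pow {B S : Type} [Group B] [MulAction B S] {b : B} {x : S}
    (h : b • (b • x) = x) (k : ℕ) : b ^ (2 * k) • x = x := by
  induction k with
  | zero => simp
  | succ k ih =>
    have e : b ^ (2 * (k + 1)) = b ^ (2 * k) * b * b := by
      rw [Nat.mul_add, mul_one, pow_add, pow_two, mul_assoc]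
    rw [e, mul_smul, mul_smul, h, ih]

theorem hm_sh {G G' : Type} [Group G] [Group G'] (f : G →* G') {m : ℕ} (g : Fin m → G) :
    hm f ℤ m (sh g) = sh (f ∘ g) := by
  unfold sh
  rw [map_sum]
  refine Finset.sum_congr rfl fun σ _ => ?_
  rw [map_zsmul, hm_single]
  rfl

theorem hm_comp {G G' G'' : Type} [Group G] [Group G'] [Group G''] (f : G →* G')
    (g : G' →* G'') {A : Type} [AddCommGroup A] {m : ℕ} (c : Ch Unit G A m) :
    hm g A m (hm f A m c) = hm (g.comp f) A m c := by
  rw [hm_eq, hm_eq, hm_eq, ← Finsupp.mapDomain_comp]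
  rfl

theorem hm_id {G : Type} [Group G] {A : Type} [AddCommGroup A] {m : ℕ} (c : Ch Unit G A m) :
    hm (MonoidHom.id G) A m c = c := by
  rw [hm_eq]
  exact Finsupp.mapDomain_id

theorem fam_comp {Ω Ω' Ω'' : Type} (f : Ω → Ω') (g : Ω' → Ω'') :
    (fam g).comp (fam f) = fam (g ∘ f) := by
  refine MonoidHom.ext fun w => ?_
  show Multiplicative.ofAdd (Finsupp.mapDomain g (Finsupp.mapDomain f (Multiplicative.toAdd w))) =
    Multiplicative.ofAdd (Finsupp.mapDomain (g ∘ f) (Multiplicative.toAdd w))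
  rw [Finsupp.mapDomain_comp]

theorem fam_id {Ω : Type} : fam (fun ω : Ω => ω) = MonoidHom.id (FA Ω) := by
  refine MonoidHom.ext fun w => ?_
  show Multiplicative.ofAdd (Finsupp.mapDomain (fun ω : Ω => ω) (Multiplicative.toAdd w)) = w
  have h := Finsupp.mapDomain_id (v := Multiplicative.toAdd w)
  exact congrArg Multiplicative.ofAdd h

theorem be_inj {Ω : Type} : Function.Injective (be : Ω → FA Ω) := by
  intro x y h
  have h' : Finsupp.single x (1 : ℤ) = Finsupp.single y 1 := Multiplicative.ofAdd.injective h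
  exact Finsupp.single_left_injective one_ne_zero h'

/-- the signed shuffle cycles of injective tuples of basis elements -/
def SS (Ω : Type) (k : ℕ) : Set (Ch Unit (FA Ω) ℤ k) :=
  {c | ∃ σ : Fin k → Ω, Function.Injective σ ∧ (c = sh (be ∘ σ) ∨ c = - sh (be ∘ σ))}

theorem fam_be_comp {Ω B : Type} [Group B] [MulAction B Ω] {k : ℕ} (b : B) (σ : Fin k → Ω) :
    hm (fam fun ω : Ω => b • ω) ℤ k (sh (be ∘ σ)) = sh (be ∘ fun i => b • σ i) := by
  rw [hm_sh]
  refine congrArg sh ?_
  funext i
  exact fam_be _ _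

theorem SS_act {Ω B : Type} [Group B] [MulAction B Ω] {k : ℕ} (b : B)
    {c : Ch Unit (FA Ω) ℤ k} (hc : c ∈ SS Ω k) :
    hm (fam fun ω : Ω => b • ω) ℤ k c ∈ SS Ω k := by
  obtain ⟨σ, hσ, h⟩ := hc
  refine ⟨fun i => b • σ i, fun i j hij => hσ (MulAction.injective b hij), ?_⟩
  rcases h with rfl | rfl
  · left; exact fam_be_comp b σ
  · right; rw [map_neg, fam_be_comp]

theorem SS_neg {Ω : Type} {k : ℕ} {c : Ch Unit (FA Ω) ℤ k} (hc : c ∈ SS Ω k) : -c ∈ SS Ω k := by
  obtain ⟨σ, hσ, h⟩ := hc
  refine ⟨σ, hσ, ?_⟩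
  rcases h with rfl | rfl
  · right; rfl
  · left; rw [neg_neg]

theorem phi_self (h_phish : S_phish) {Ω : Type} {k : ℕ} {σ : Fin k → Ω}
    (hσ : Function.Injective σ) : phi σ ℤ (sh (be ∘ σ)) = 1 := by
  have h := (h_phish Ω k σ σ hσ).1 1 rfl
  rw [Equiv.Perm.sign_one] at h
  exact h

theorem phi_SS (h_phish : S_phish) {Ω : Type} {k : ℕ} {c : Ch Unit (FA Ω) ℤ k} {σ : Fin k → Ω}
    (hσ : Function.Injective σ) (h : c = sh (be ∘ σ) ∨ c = - sh (be ∘ σ)) :
    phi σ ℤ c = 1 ∨ phi σ ℤ c = -1 := by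
  rcases h with rfl | rfl
  · left; exact phi_self h_phish hσ
  · right; rw [map_neg, phi_self h_phish hσ]

theorem SS_ne_neg (h_phish : S_phish) {Ω : Type} {k : ℕ} {c : Ch Unit (FA Ω) ℤ k}
    (hc : c ∈ SS Ω k) : -c ≠ c := by
  obtain ⟨σ, hσ, h⟩ := hc
  intro e
  have e' := congrArg (phi σ ℤ) e
  rw [map_neg] at e'
  rcases phi_SS h_phish hσ h with h1 | h1 <;> rw [h1] at e' <;> omega

/-- the action on the signed shuffle cycles -/
@[reducible] noncomputable def actSS (Ω B : Type) [Group B] [MulAction B Ω] (k : ℕ) :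
    MulAction B (SS Ω k) where
  smul b c := ⟨hm (fam fun ω : Ω => b • ω) ℤ k c.1, SS_act b c.2⟩
  one_smul c := by
    refine Subtype.ext ?_
    show hm (fam fun ω : Ω => (1 : B) • ω) ℤ k c.1 = c.1
    have : (fun ω : Ω => (1 : B) • ω) = fun ω => ω := by
      funext ω
      exact one_smul B ω
    rw [this, fam_id, hm_id]
  mul_smul b b' c := by
    refine Subtype.ext ?_
    show hm (fam fun ω : Ω => (b * b') • ω) ℤ k c.1 =
      hm (fam fun ω : Ω => b • ω) ℤ k (hm (fam fun ω : Ω => b' • ω) ℤ k c.1)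
    have : (fun ω : Ω => (b * b') • ω) = (fun ω => b • ω) ∘ fun ω => b' • ω := by
      funext ω
      exact mul_smul b b' ω
    rw [this, hm_comp, fam_comp]

end HalfHW

open HalfHW

/-- TF-18 -/
theorem t_half : S_half := by
  intro B S _ _ n hn hB s hss hsx hsb
  let mk : S → MulAction.orbitRel.Quotient B S := fun x => Quotient.mk _ x
  have hmk : ∀ x y : S, mk x = mk y ↔ ∃ b : B, b • y = x := by
    intro x y
    constructor
    · intro h
      exact Quotient.exact h
    · intro h
      exact Quotient.sound h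
  have hs : ∀ x y, mk x = mk y → mk (s x) = mk (s y) := by
    intro x y h
    obtain ⟨b, rfl⟩ := (hmk x y).1 h
    exact (hmk _ _).2 ⟨b, (hsb b y).symm⟩
  have hne : ∀ x, mk (s x) ≠ mk x := by
    intro x h
    obtain ⟨b, hb⟩ := (hmk _ _).1 h
    have h2 : b • (b • x) = x := by
      rw [hb, ← hsb, hb, hss]
    obtain ⟨k, rfl⟩ := hn
    have h3 := hB b
    have h4 : b ^ (2 * k + 1) • x = b • x := by
      rw [pow_succ', mul_smul, half_pow h2]
    rw [h3, one_smul] at h4
    exact hsx x (hb.symm.trans h4.symm)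
  classical
  let _ : LinearOrder (MulAction.orbitRel.Quotient B S) := linearOrderOfSTO WellOrderingRel
  refine ⟨{x | mk x < mk (s x)}, ?_, ?_, ?_⟩
  · intro b x hx
    have h1 : mk (b • x) = mk x := (hmk _ _).2 ⟨b, rfl⟩
    have h2 : mk (s (b • x)) = mk (s x) := hs _ _ h1
    show mk (b • x) < mk (s (b • x))
    rw [h1, h2]
    exact hx
  · intro x
    rcases lt_or_gt_of_ne (hne x) with h | h
    · right
      show mk (s x) < mk (s (s x))
      rw [hss]
      exact h
    · left
      exact h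
  · intro x hx hx'
    have h1 : mk (s x) < mk (s (s x)) := hx'
    rw [hss] at h1
    exact lt_asymm h1 hx

/-- TF-19 -/
theorem t_HW (h_map : S_map) (h_shcyc : S_shcyc) (h_shalt : S_shalt) (h_gFA : S_gFA)
    (h_phi : S_phi) (h_phish : S_phish) (h_half : S_half) : S_HW := by
  have _ := h_map
  intro Ω B _ _ n hn hB m
  let _ := actSS Ω B (m + 1)
  obtain ⟨T, hT1, hT2, hT3⟩ := h_half B (SS Ω (m + 1)) n hn hB (fun c => ⟨-c.1, SS_neg c.2⟩)
    (fun c => Subtype.ext (neg_neg c.1)) (fun c hc => SS_ne_neg h_phish c.2 (congrArg Subtype.val hc))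
    (fun b c => Subtype.ext (by
      show - hm (fam fun ω : Ω => b • ω) ℤ (m + 1) c.1 =
        hm (fam fun ω : Ω => b • ω) ℤ (m + 1) (-c.1)
      rw [map_neg]))
  let actT : MulAction B T :=
    { smul := fun b t => ⟨b • t.1, hT1 b t.1 t.2⟩
      one_smul := fun t => Subtype.ext (one_smul B t.1)
      mul_smul := fun b b' t => Subtype.ext (mul_smul b b' t.1) }
  refine ⟨{ T := T, act := actT, u := fun t => t.1.1, cyc := ?_, equiv := ?_, gen := ?_, ind := ?_ }⟩
  · intro t
    obtain ⟨σ, hσ, h⟩ := t.1.2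
    rcases h with h | h
    · rw [h]
      exact h_shcyc (FA Ω) (m + 1) _
    · rw [h]
      exact (h_shcyc (FA Ω) (m + 1) _).neg
  · intro b t
    rfl
  · intro A _ z hz
    obtain ⟨a, ha, hb⟩ := h_gFA Ω A (m + 1) z hz
    have key : comb A sh a ∈ (comb A (fun t : T => t.1.1)).range := by
      have e : comb A sh a = a.sum fun s x => comb A sh (Finsupp.single s x) := by
        conv_lhs => rw [← Finsupp.sum_single a]
        rw [map_finsuppSum]
      rw [e]
      refine AddSubgroup.sum_mem _ fun s hs => ?_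
      show comb A sh (Finsupp.single s (a s)) ∈ _
      rw [comb_single]
      have hs' := ha s hs
      choose σ hσ using hs'
      have hsσ : s = be ∘ σ := by
        funext i
        exact (hσ i).symm
      by_cases hi : Function.Injective σ
      · have hmem : sh s ∈ SS Ω (m + 1) := ⟨σ, hi, Or.inl (by rw [hsσ])⟩
        rcases hT2 ⟨sh s, hmem⟩ with h | h
        · refine ⟨Finsupp.single ⟨_, h⟩ (a s), ?_⟩
          rw [comb_single]
        · refine ⟨Finsupp.single ⟨_, h⟩ (-(a s)), ?_⟩
          rw [comb_single]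
          show tens A (- sh s) (-(a s)) = _
          rw [map_neg, map_neg, AddMonoidHom.neg_apply, neg_neg]
      · have h0 : sh s = 0 := (h_shalt (FA Ω) (m + 1) s).2 fun h => hi (by
          rw [hsσ] at h
          exact h.of_comp)
        rw [h0, map_zero, AddMonoidHom.zero_apply]
        exact AddSubgroup.zero_mem _
    obtain ⟨a', ha'⟩ := key
    refine ⟨a', ?_⟩
    rw [ha']
    exact hb
  · intro A _ a ⟨y, hy⟩
    ext t0
    obtain ⟨σ, hσ, h0⟩ := t0.1.2
    have h1 : phi σ A (comb A (fun t : T => t.1.1) a) = 0 := by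
      rw [← hy]
      exact h_phi Ω (m + 1) σ A y
    rw [phi_comb] at h1
    have h2 : ∀ t : T, t ≠ t0 → phi σ ℤ t.1.1 = 0 := by
      intro t ht
      obtain ⟨σ', hσ', h⟩ := t.1.2
      have h3 : phi σ ℤ (sh (be ∘ σ')) = 0 := by
        refine (h_phish Ω (m + 1) σ' σ hσ').2 ?_
        rintro ⟨ρ, hρ⟩
        have h4 : sh (be ∘ σ) = (Equiv.Perm.sign ρ : ℤ) • sh (be ∘ σ') := by
          rw [hρ]
          exact (h_shalt (FA Ω) (m + 1) (be ∘ σ')).1 ρ
        have h5 : t0.1.1 = t.1.1 ∨ t0.1.1 = - t.1.1 := by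
          rcases Int.units_eq_one_or (Equiv.Perm.sign ρ) with hρ1 | hρ1
          · rw [hρ1, Units.val_one, one_smul] at h4
            rw [h4] at h0
            rcases h with h | h <;> rcases h0 with h0 | h0
            · left; rw [h, h0]
            · right; rw [h, h0]
            · right; rw [h, h0, neg_neg]
            · left; rw [h, h0]
          · rw [hρ1, Units.val_neg, Units.val_one, neg_smul, one_smul] at h4
            rw [h4] at h0
            rcases h with h | h <;> rcases h0 with h0 | h0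
            · right; rw [h, h0]
            · left; rw [h, h0, neg_neg]
            · left; rw [h, h0]
            · right; rw [h, h0]
        rcases h5 with h5 | h5
        · exact ht (Subtype.ext (Subtype.ext h5.symm))
        · refine hT3 t.1 t.2 ?_
          have e : (⟨-t.1.1, SS_neg t.1.2⟩ : SS Ω (m + 1)) = t0.1 := Subtype.ext h5.symm
          rw [e]
          exact t0.2
      rcases h with h | h
      · rw [h, h3]
      · rw [h, map_neg, h3, neg_zero]
    have h3 : (phi σ ℤ t0.1.1) • a t0 = 0 := by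
      rw [← h1]
      symm
      refine Finsupp.sum_eq_single t0 ?_ ?_
      · intro t _ ht
        rw [h2 t ht, zero_smul]
      · intro _
        rw [smul_zero]
    rcases phi_SS h_phish hσ h0 with h4 | h4
    · rw [h4, one_smul] at h3
      exact h3
    · rw [h4, neg_smul, one_smul, neg_eq_zero] at h3
      exact h3

end Pool.Agent.H316.TF
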