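import Pool.Agent.H316.TF.Stm

/-!
# Project TF: lemmas for the subtasks (consequences of TF-02 and formal lemmas on operators)
-/

set_option autoImplicit false

namespace Pool.Agent.H316.TF

open Finsupp

section

variable {S S' Γ Γ' T X : Type} [Group Γ] [Group Γ'] {A : Type} [AddCommGroup A] {m : ℕ}

/-- the boundary of an operator -/
theorem bd_comb (R : RA S Γ) (w : T → Ch S Γ ℤ (m + 1)) (a : T →₀ A) :
    R.bd A m (comb A w a) = comb A (fun t => R.bd ℤ m (w t)) a := by
  unfold RA.bd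
  rw [comb_comp]

/-- a combination of cycles is a cycle -/
theorem isC_comb (R : RA S Γ) (w : T → Ch S Γ ℤ m) (h : ∀ t, R.IsC (w t)) (a : T →₀ A) :
    R.IsC (comb A w a) := by
  cases m with
  | zero => trivial
  | succ m =>
    show R.bd A m (comb A w a) = 0
    rw [bd_comb]
    have : (fun t => R.bd ℤ m (w t)) = fun _ => 0 := by
      funext t
      exact h t
    rw [this, comb_zero]

/-- a combination of boundaries is a boundary -/
theorem isB_comb (R : RA S Γ) (w : T → Ch S Γ ℤ m) (h : ∀ t, R.IsB (w t)) (a : T →₀ A) :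
    R.IsB (comb A w a) := by
  choose y hy using h
  exact ⟨comb A y a, by rw [bd_comb]; simp only [hy]⟩

/-- homologous families have homologous combinations -/
theorem isB_comb_sub (R : RA S Γ) (w w' : T → Ch S Γ ℤ m) (h : ∀ t, R.IsB (w t - w' t))
    (a : T →₀ A) : R.IsB (comb A w a - comb A w' a) := by
  rw [← comb_sub]
  exact isB_comb R _ h a

theorem RA.IsC.zero (R : RA S Γ) : R.IsC (0 : Ch S Γ A m) := by
  cases m with
  | zero => trivial
  | succ m => exact map_zero _

theorem RA.IsC.add {R : RA S Γ} {z z' : Ch S Γ A m} (h : R.IsC z) (h' : R.IsC z') :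
    R.IsC (z + z') := by
  cases m with
  | zero => trivial
  | succ m =>
    have h1 : R.bd A m z = 0 := h
    have h2 : R.bd A m z' = 0 := h'
    show R.bd A m (z + z') = 0
    rw [map_add, h1, h2, add_zero]

theorem RA.IsC.neg {R : RA S Γ} {z : Ch S Γ A m} (h : R.IsC z) : R.IsC (-z) := by
  cases m with
  | zero => trivial
  | succ m =>
    have h1 : R.bd A m z = 0 := h
    show R.bd A m (-z) = 0
    rw [map_neg, h1, neg_zero]

theorem RA.IsC.sub {R : RA S Γ} {z z' : Ch S Γ A m} (h : R.IsC z) (h' : R.IsC z') :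
    R.IsC (z - z') := by
  rw [sub_eq_add_neg]
  exact h.add h'.neg

/-- with `∂∂ = 0` boundaries are cycles -/
theorem RA.IsB.isC (h : S_dd) {R : RA S Γ} {z : Ch S Γ A m} (hz : R.IsB z) : R.IsC z := by
  obtain ⟨y, rfl⟩ := hz
  cases m with
  | zero => trivial
  | succ m => exact h S Γ R A m y

/-- the value of a functional `phi` on a combination -/
theorem phi_comb {Ω : Type} {m : ℕ} (τ : Fin m → Ω) (w : T → Ch Unit (FA Ω) ℤ m) (a : T →₀ A) :
    phi τ A (comb A w a) = a.sum fun t x => (phi τ ℤ (w t)) • x := by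
  have key : ∀ (v : Ch Unit (FA Ω) ℤ m) (x : A), phi τ A (tens A v x) = (phi τ ℤ v) • x := by
    intro v x
    induction v using Finsupp.induction_linear with
    | zero => simp
    | add f g hf hg => simp only [map_add, AddMonoidHom.add_apply, hf, hg, add_smul]
    | single y n =>
      rw [tens_single]
      unfold phi
      rw [Finsupp.liftAddHom_apply_single, Finsupp.liftAddHom_apply_single,
        AddMonoidHom.smul_apply, AddMonoidHom.smul_apply]
      simp [mul_smul]
  induction a using Finsupp.induction_linear with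
  | zero => simp
  | add f g hf hg =>
    rw [map_add, map_add, hf, hg, Finsupp.sum_add_index']
    · simp
    · intro t x y; rw [smul_add]
  | single t x =>
    rw [comb_single, key, Finsupp.sum_single_index]
    simp

/-- functors preserve cycles -/
theorem GF.map_isC (h : S_map) {R : RA S Γ} {R' : RA S' Γ'} (F : GF R R') {z : Ch S Γ A m}
    (hz : R.IsC z) : R'.IsC (F.map A m z) := by
  cases m with
  | zero => trivial
  | succ m =>
    have h1 : R.bd A m z = 0 := hz
    show R'.bd A m (F.map A (m + 1) z) = 0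
    rw [h S S' Γ Γ' R R' F A m z, h1, map_zero]

/-- functors preserve boundaries -/
theorem GF.map_isB (h : S_map) {R : RA S Γ} {R' : RA S' Γ'} (F : GF R R') {z : Ch S Γ A m}
    (hz : R.IsB z) : R'.IsB (F.map A m z) := by
  obtain ⟨y, rfl⟩ := hz
  exact ⟨F.map A (m + 1) y, h S S' Γ Γ' R R' F A m y⟩

/-- the functor of an equivariant map -/
def GF.eqv (R : RA S Γ) (R' : RA S' Γ) (f : S → S')
    (hf : ∀ s g, f (R.act s g) = R'.act (f s) g) : GF R R' where
  f := f
  φ _ g := g
  f_act := hf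
  φ_mul _ _ _ := rfl

theorem psh_eq_map (R : RA S Γ) (R' : RA S' Γ) (f : S → S')
    (hf : ∀ s g, f (R.act s g) = R'.act (f s) g) (c : Ch S Γ A m) :
    psh f Γ A m c = (GF.eqv R R' f hf).map A m c := rfl

theorem psh_bd (h : S_map) (R : RA S Γ) (R' : RA S' Γ) (f : S → S')
    (hf : ∀ s g, f (R.act s g) = R'.act (f s) g) (c : Ch S Γ A (m + 1)) :
    R'.bd A m (psh f Γ A (m + 1) c) = psh f Γ A m (R.bd A m c) :=
  h _ _ _ _ _ _ (GF.eqv R R' f hf) A m c

/-- the functor `n ↦ (1; j n)` -/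
def GF.jm {N Γ B : Type} [Group N] [Group Γ] [Group B] (π : Γ →* B) (j : N →* Γ)
    (hj : ∀ n, π (j n) = 1) : GF (pt N) (rt π) where
  f _ := 1
  φ _ n := j n
  f_act _ n := by
    show (1 : B) = 1 * π (j n)
    rw [hj, mul_one]
  φ_mul _ g h := map_mul j g h

theorem jm_eq_map {N Γ B : Type} [Group N] [Group Γ] [Group B] (π : Γ →* B) (j : N →* Γ)
    (hj : ∀ n, π (j n) = 1) (c : Ch Unit N A m) :
    jm B j A m c = (GF.jm π j hj).map A m c := rfl

theorem jm_bd (h : S_map) {N Γ B : Type} [Group N] [Group Γ] [Group B] (π : Γ →* B) (j : N →* Γ)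
    (hj : ∀ n, π (j n) = 1) (c : Ch Unit N A (m + 1)) :
    (rt π).bd A m (jm B j A (m + 1) c) = jm B j A m ((pt N).bd A m c) :=
  h _ _ _ _ _ _ (GF.jm π j hj) A m c

theorem hm_bd (h : S_map) {N Γ : Type} [Group N] [Group Γ] (ι : N →* Γ)
    (c : Ch Unit N A (m + 1)) :
    (pt Γ).bd A m (hm ι A (m + 1) c) = hm ι A m ((pt N).bd A m c) :=
  h _ _ _ _ _ _ (GF.hom ι) A m c

theorem hm_isC (h : S_map) {N Γ : Type} [Group N] [Group Γ] (ι : N →* Γ) {c : Ch Unit N A m}
    (hc : (pt N).IsC c) : (pt Γ).IsC (hm ι A m c) := (GF.hom ι).map_isC h hc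

theorem hm_isB (h : S_map) {N Γ : Type} [Group N] [Group Γ] (ι : N →* Γ) {c : Ch Unit N A m}
    (hc : (pt N).IsB c) : (pt Γ).IsB (hm ι A m c) := (GF.hom ι).map_isB h hc

theorem jm_isC (h : S_map) {N Γ B : Type} [Group N] [Group Γ] [Group B] (π : Γ →* B)
    (j : N →* Γ) (hj : ∀ n, π (j n) = 1) {c : Ch Unit N A m} (hc : (pt N).IsC c) :
    (rt π).IsC (jm B j A m c) := (GF.jm π j hj).map_isC h hc

theorem jm_isB (h : S_map) {N Γ B : Type} [Group N] [Group Γ] [Group B] (π : Γ →* B)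
    (j : N →* Γ) (hj : ∀ n, π (j n) = 1) {c : Ch Unit N A m} (hc : (pt N).IsB c) :
    (rt π).IsB (jm B j A m c) := (GF.jm π j hj).map_isB h hc

section

variable {B : Type} [Group B] (π : Γ →* B)

theorem eps_bd (h : S_map) (R : RA S Γ) (c : Ch S Γ A (m + 1)) :
    (pt Γ).bd A m (eps S Γ A (m + 1) c) = eps S Γ A m (R.bd A m c) :=
  psh_bd h R (pt Γ) _ (fun _ _ => rfl) c

theorem lm_bd (h : S_map) (b : B) (c : Ch B Γ A (m + 1)) :
    (rt π).bd A m (lm b Γ A (m + 1) c) = lm b Γ A m ((rt π).bd A m c) :=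
  psh_bd h (rt π) (rt π) _ (fun s g => (mul_assoc b s (π g)).symm) c

theorem Xm_bd (h : S_map) {I : Type} (x : I → B) (c : Ch (I × B) Γ A (m + 1)) :
    (rt π).bd A m (Xm x Γ A (m + 1) c) = Xm x Γ A m ((cop I (rt π)).bd A m c) := by
  unfold Xm
  rw [AddMonoidHom.sub_apply, AddMonoidHom.sub_apply, map_sub,
    psh_bd h (cop I (rt π)) (rt π) _ (fun s g => (mul_assoc (x s.1) s.2 (π g)).symm) c,
    psh_bd h (cop I (rt π)) (rt π) _ (fun s g => rfl) c]

theorem eps_isB (h : S_map) {R : RA S Γ} {c : Ch S Γ A m} (hc : R.IsB c) :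
    (pt Γ).IsB (eps S Γ A m c) := by
  obtain ⟨y, rfl⟩ := hc
  exact ⟨_, eps_bd h R y⟩

theorem lm_isB (h : S_map) (b : B) {c : Ch B Γ A m} (hc : (rt π).IsB c) :
    (rt π).IsB (lm b Γ A m c) := by
  obtain ⟨y, rfl⟩ := hc
  exact ⟨_, lm_bd π h b y⟩

theorem Xm_isB (h : S_map) {I : Type} (x : I → B) {c : Ch (I × B) Γ A m}
    (hc : (cop I (rt π)).IsB c) : (rt π).IsB (Xm x Γ A m c) := by
  obtain ⟨y, rfl⟩ := hc
  exact ⟨_, Xm_bd π h x y⟩

theorem eps_psh (f : S → S') (c : Ch S Γ A m) :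
    eps S' Γ A m (psh f Γ A m c) = eps S Γ A m c := by
  unfold eps
  rw [psh_eq, psh_eq, psh_eq, ← Finsupp.mapDomain_comp]
  rfl

theorem eps_Xm {I : Type} (x : I → B) (c : Ch (I × B) Γ A m) :
    eps B Γ A m (Xm x Γ A m c) = 0 := by
  unfold Xm
  rw [AddMonoidHom.sub_apply, map_sub, eps_psh, eps_psh, sub_self]

theorem eps_Lam (c : Ch Unit Γ A m) : eps B Γ A m (Lam Γ B A m c) = c := by
  unfold Lam
  rw [eps_psh]
  unfold eps
  rw [psh_eq]
  exact Finsupp.mapDomain_id

theorem eps_jm {N : Type} [Group N] (j : N →* Γ) (c : Ch Unit N A m) :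
    eps B Γ A m (jm B j A m c) = hm j A m c := by
  unfold eps jm hm
  rw [psh_eq, mapDomain_comb]
  simp only [Finsupp.mapDomain_single]

/-- operators with crossed homomorphisms are natural in the set -/
theorem psh_LD (f : S → S') (D : Γ → S →₀ ℤ) (c : Ch Unit Γ A (m + 1)) :
    psh f Γ A m (LD D A m c) = LD (fun g => Finsupp.mapDomain f (D g)) A m c := by
  unfold LD
  rw [psh_eq, mapDomain_comb]
  congr 2
  funext x
  rw [← Finsupp.mapDomain_comp, ← Finsupp.mapDomain_comp]
  rfl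

theorem LD_sub (D D' : Γ → S →₀ ℤ) (c : Ch Unit Γ A (m + 1)) :
    LD (fun g => D g - D' g) A m c = LD D A m c - LD D' A m c := by
  unfold LD
  rw [← comb_sub]
  congr 2
  funext x
  exact map_sub (Finsupp.mapDomain.addMonoidHom _) _ _

/-- the fundamental formula for the operators -/
theorem Xm_LD {I : Type} {y : I → Γ} {D : Γ → (I × B) →₀ ℤ} (hD : Fox π y D)
    (c : Ch Unit Γ A (m + 1)) :
    Xm (fun i => π (y i)) Γ A m (LD D A m c) = LD (D0 π) A m c := by
  unfold Xm
  rw [AddMonoidHom.sub_apply, psh_LD, psh_LD, ← LD_sub]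
  congr 2
  funext g
  exact hD.fund g

end

end

end Pool.Agent.H316.TF
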