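import Mathlib
import Pool.Agent.H316.TF.Lem

/-!
# Project TF (helper316): the prism operator of a natural transformation is a chain homotopy
-/

set_option autoImplicit false

namespace Pool.Agent.H316.TF

open Finsupp

namespace Hmt860

section homog

variable {Y : Type}

/-- the tuple `(a 0, …, a j, b j, …, b (n-1))` -/
def prism {n : ℕ} (j : Fin n) (a b : Fin n → Y) (k : Fin (n + 1)) : Y :=
  if h : (k : ℕ) ≤ j then a ⟨k, by omega⟩ else b ⟨k - 1, by omega⟩

/-- the prism chain -/
noncomputable def pr (n : ℕ) (a b : Fin n → Y) : (Fin (n + 1) → Y) →₀ ℤ :=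
  ∑ j : Fin n, ((-1 : ℤ) ^ (j : ℕ)) • Finsupp.single (prism j a b) 1

/-- the homogeneous boundary -/
noncomputable def dd (n : ℕ) (c : Fin (n + 1) → Y) : (Fin n → Y) →₀ ℤ :=
  ∑ i : Fin (n + 1), ((-1 : ℤ) ^ (i : ℕ)) • Finsupp.single (fun k => c (i.succAbove k)) 1

/-- the map `c ↦ (y, c)` -/
def cn (y : Y) {n : ℕ} (c : Fin n → Y) : Fin (n + 1) → Y := Fin.cons (α := fun _ => Y) y c

theorem cn_zero (y : Y) {n : ℕ} (c : Fin n → Y) : cn y c 0 = y := rfl

theorem cn_succ (y : Y) {n : ℕ} (c : Fin n → Y) (k : Fin n) : cn y c k.succ = c k := rfl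

theorem prism_zero {n : ℕ} (a b : Fin (n + 1) → Y) : prism 0 a b = cn (a 0) b := by
  funext k
  refine Fin.cases ?_ (fun k => ?_) k
  · rw [cn_zero]
    unfold prism
    rw [dif_pos (by simp)]
    rfl
  · rw [cn_succ]
    unfold prism
    rw [dif_neg (by simp)]
    congr 1

theorem prism_succ {n : ℕ} (j : Fin n) (a b : Fin (n + 1) → Y) :
    prism j.succ a b = cn (a 0) (prism j (fun k => a k.succ) (fun k => b k.succ)) := by
  funext k
  refine Fin.cases ?_ (fun k => ?_) k
  · rw [cn_zero]
    unfold prism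
    rw [dif_pos (by simp)]
    rfl
  · rw [cn_succ]
    unfold prism
    by_cases h : (k : ℕ) ≤ j
    · rw [dif_pos h, dif_pos (by simpa using h)]
      rfl
    · rw [dif_neg h, dif_neg (by simpa using h)]
      congr 1
      apply Fin.ext
      simp only [Fin.val_succ]
      omega

theorem pr_succ {n : ℕ} (a b : Fin (n + 1) → Y) :
    pr (n + 1) a b = Finsupp.single (cn (a 0) b) 1 -
      Finsupp.mapDomain (cn (a 0)) (pr n (fun k => a k.succ) (fun k => b k.succ)) := by
  unfold pr
  rw [Fin.sum_univ_succ, prism_zero]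
  have e : ∀ j : Fin n, ((-1 : ℤ) ^ ((j.succ : Fin (n + 1)) : ℕ)) •
      Finsupp.single (prism j.succ a b) (1 : ℤ) =
      - Finsupp.mapDomain.addMonoidHom (cn (a 0)) (((-1 : ℤ) ^ (j : ℕ)) •
        Finsupp.single (prism j (fun k => a k.succ) (fun k => b k.succ)) 1) := by
    intro j
    rw [map_zsmul, prism_succ]
    show _ = - (((-1 : ℤ) ^ (j : ℕ)) • Finsupp.mapDomain (cn (a 0)) _)
    rw [Finsupp.mapDomain_single, Fin.val_succ, pow_succ, mul_neg_one, neg_smul]
  rw [Finset.sum_congr rfl fun j _ => e j, Finset.sum_neg_distrib, ← map_sum, ← sub_eq_add_neg]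
  simp only [Fin.val_zero, pow_zero, one_smul]
  rfl

theorem dd_succ {n : ℕ} (c : Fin (n + 2) → Y) :
    dd (n + 1) c = Finsupp.single (fun k => c k.succ) 1 -
      ∑ i : Fin (n + 1), ((-1 : ℤ) ^ (i : ℕ)) •
        Finsupp.single (cn (c 0) fun k => c (i.succAbove k).succ) 1 := by
  unfold dd
  rw [Fin.sum_univ_succ]
  have e : ∀ i : Fin (n + 1), ((-1 : ℤ) ^ ((i.succ : Fin (n + 2)) : ℕ)) •
      Finsupp.single (fun k => c (i.succ.succAbove k)) (1 : ℤ) =
      - (((-1 : ℤ) ^ (i : ℕ)) • Finsupp.single (cn (c 0) fun k => c (i.succAbove k).succ) 1) := by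
    intro i
    have h : (fun k => c (i.succ.succAbove k)) = cn (c 0) fun k => c (i.succAbove k).succ := by
      funext k
      refine Fin.cases ?_ (fun k => ?_) k
      · rw [Fin.succ_succAbove_zero, cn_zero]
      · rw [Fin.succ_succAbove_succ, cn_succ]
    rw [h, Fin.val_succ, pow_succ, mul_neg_one, neg_smul]
  rw [Finset.sum_congr rfl fun i _ => e i, Finset.sum_neg_distrib, ← sub_eq_add_neg]
  simp only [Fin.val_zero, pow_zero, one_smul, Fin.succAbove_zero]

theorem dd_cn {n : ℕ} (y : Y) (c : Fin (n + 1) → Y) :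
    dd (n + 1) (cn y c) = Finsupp.single c 1 - Finsupp.mapDomain (cn y) (dd n c) := by
  rw [dd_succ]
  have e : Finsupp.mapDomain (cn y) (dd n c) = ∑ i : Fin (n + 1), ((-1 : ℤ) ^ (i : ℕ)) •
      Finsupp.single (cn y fun k => c (i.succAbove k)) 1 := by
    show Finsupp.mapDomain.addMonoidHom (cn y) (dd n c) = _
    unfold dd
    rw [map_sum]
    refine Finset.sum_congr rfl fun i _ => ?_
    rw [map_zsmul]
    show _ • Finsupp.mapDomain (cn y) _ = _
    rw [Finsupp.mapDomain_single]
  rw [e]
  rfl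

theorem comb_dd_map {n : ℕ} (y : Y) (v : (Fin (n + 1) → Y) →₀ ℤ) :
    comb ℤ (dd (n + 1)) (Finsupp.mapDomain (cn y) v) =
      v - Finsupp.mapDomain (cn y) (comb ℤ (dd n) v) := by
  rw [comb_mapDomain, mapDomain_comb]
  simp only [dd_cn]
  rw [comb_sub, comb_map]
  congr 1
  exact Finsupp.mapDomain_id

theorem key : ∀ (n : ℕ) (a b : Fin (n + 1) → Y), comb ℤ (dd (n + 1)) (pr (n + 1) a b) +
    ∑ i : Fin (n + 1), ((-1 : ℤ) ^ (i : ℕ)) •
      pr n (fun k => a (i.succAbove k)) (fun k => b (i.succAbove k)) =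
      Finsupp.single b 1 - Finsupp.single a 1
  | 0, a, b => by
    have h0 : ∀ (a b : Fin 0 → Y), pr 0 a b = 0 := fun a b => by unfold pr; simp
    simp only [h0, smul_zero, Finset.sum_const_zero, add_zero]
    rw [pr_succ, h0, Finsupp.mapDomain_zero, sub_zero, comb_single_one, dd_cn]
    congr 1
    have e : dd 0 b = Finsupp.single (fun k : Fin 0 => k.elim0) 1 := by
      unfold dd
      rw [Fin.sum_univ_succ]
      simp only [Finset.univ_eq_empty, Finset.sum_empty, add_zero, Fin.val_zero, pow_zero, one_smul]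
      congr 1
      funext k
      exact k.elim0
    rw [e, Finsupp.mapDomain_single]
    congr 1
    funext k
    refine Fin.cases ?_ (fun k => k.elim0) k
    rw [cn_zero]
  | (n + 1), a, b => by
    set a' : Fin (n + 1) → Y := fun k => a k.succ with ha'
    set b' : Fin (n + 1) → Y := fun k => b k.succ with hb'
    have ih := key n a' b'
    have ha : cn (a 0) a' = a := by
      funext k
      refine Fin.cases ?_ (fun k => ?_) k
      · rfl
      · rfl
    -- the sum over the faces
    have e1 : ∑ i : Fin (n + 2), ((-1 : ℤ) ^ (i : ℕ)) •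
        pr (n + 1) (fun k => a (i.succAbove k)) (fun k => b (i.succAbove k)) =
        pr (n + 1) a' b' - ∑ i : Fin (n + 1), ((-1 : ℤ) ^ (i : ℕ)) •
          (Finsupp.single (cn (a 0) fun k => b (i.succ.succAbove k)) 1 -
            Finsupp.mapDomain (cn (a 0)) (pr n (fun k => a' (i.succAbove k))
              (fun k => b' (i.succAbove k)))) := by
      rw [Fin.sum_univ_succ]
      have e : ∀ i : Fin (n + 1), ((-1 : ℤ) ^ ((i.succ : Fin (n + 2)) : ℕ)) •
          pr (n + 1) (fun k => a (i.succ.succAbove k)) (fun k => b (i.succ.succAbove k)) =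
          - (((-1 : ℤ) ^ (i : ℕ)) • (Finsupp.single (cn (a 0) fun k => b (i.succ.succAbove k)) 1 -
            Finsupp.mapDomain (cn (a 0)) (pr n (fun k => a' (i.succAbove k))
              (fun k => b' (i.succAbove k))))) := by
        intro i
        have e0 : pr (n + 1) (fun k => a (i.succ.succAbove k)) (fun k => b (i.succ.succAbove k)) =
            Finsupp.single (cn (a 0) fun k => b (i.succ.succAbove k)) 1 -
            Finsupp.mapDomain (cn (a 0)) (pr n (fun k => a' (i.succAbove k))
              (fun k => b' (i.succAbove k))) := by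
          rw [pr_succ]
          have e00 : a (i.succ.succAbove 0) = a 0 := by rw [Fin.succ_succAbove_zero]
          have e01 : (fun k : Fin n => a (i.succ.succAbove k.succ)) = fun k => a' (i.succAbove k) := by
            funext k
            rw [Fin.succ_succAbove_succ]
          have e02 : (fun k : Fin n => b (i.succ.succAbove k.succ)) = fun k => b' (i.succAbove k) := by
            funext k
            rw [Fin.succ_succAbove_succ]
          rw [e00, e01, e02]
        rw [e0, Fin.val_succ, pow_succ, mul_neg_one, neg_smul]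
      rw [Finset.sum_congr rfl fun i _ => e i, Finset.sum_neg_distrib, ← sub_eq_add_neg]
      simp only [Fin.val_zero, pow_zero, one_smul, Fin.succAbove_zero]
      rfl
    have e2 : ∑ i : Fin (n + 1), ((-1 : ℤ) ^ (i : ℕ)) •
          (Finsupp.single (cn (a 0) fun k => b (i.succ.succAbove k)) 1 -
            Finsupp.mapDomain (cn (a 0)) (pr n (fun k => a' (i.succAbove k))
              (fun k => b' (i.succAbove k)))) =
        Finsupp.mapDomain.addMonoidHom (cn (a 0)) ((∑ i : Fin (n + 1), ((-1 : ℤ) ^ (i : ℕ)) •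
          Finsupp.single (fun k => b (i.succ.succAbove k)) 1) -
          ∑ i : Fin (n + 1), ((-1 : ℤ) ^ (i : ℕ)) •
            pr n (fun k => a' (i.succAbove k)) (fun k => b' (i.succAbove k))) := by
      rw [map_sub, map_sum, map_sum, ← Finset.sum_sub_distrib]
      refine Finset.sum_congr rfl fun i _ => ?_
      rw [map_zsmul, map_zsmul, ← smul_sub]
      show _ = _ • (Finsupp.mapDomain (cn (a 0)) _ - Finsupp.mapDomain (cn (a 0)) _)
      rw [Finsupp.mapDomain_single]
    have e3 : dd (n + 1) b = Finsupp.single b' 1 - ∑ i : Fin (n + 1), ((-1 : ℤ) ^ (i : ℕ)) •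
          Finsupp.single (fun k => b (i.succ.succAbove k)) 1 := by
      unfold dd
      rw [Fin.sum_univ_succ]
      have e : ∀ i : Fin (n + 1), ((-1 : ℤ) ^ ((i.succ : Fin (n + 2)) : ℕ)) •
          Finsupp.single (fun k => b (i.succ.succAbove k)) (1 : ℤ) =
          - (((-1 : ℤ) ^ (i : ℕ)) • Finsupp.single (fun k => b (i.succ.succAbove k)) 1) := by
        intro i
        rw [Fin.val_succ, pow_succ, mul_neg_one, neg_smul]
      rw [Finset.sum_congr rfl fun i _ => e i, Finset.sum_neg_distrib, ← sub_eq_add_neg]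
      simp only [Fin.val_zero, pow_zero, one_smul, Fin.succAbove_zero]
      rfl
    have e4 : comb ℤ (dd (n + 2)) (pr (n + 2) a b) =
        (Finsupp.single b 1 - Finsupp.mapDomain.addMonoidHom (cn (a 0)) (dd (n + 1) b)) -
        (pr (n + 1) a' b' - Finsupp.mapDomain.addMonoidHom (cn (a 0))
          (comb ℤ (dd (n + 1)) (pr (n + 1) a' b'))) := by
      rw [pr_succ, map_sub, comb_single_one, dd_cn, comb_dd_map]
      rfl
    rw [e4, e1, e2]
    have e5 : comb ℤ (dd (n + 1)) (pr (n + 1) a' b') = Finsupp.single b' 1 - Finsupp.single a' 1 -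
        ∑ i : Fin (n + 1), ((-1 : ℤ) ^ (i : ℕ)) •
          pr n (fun k => a' (i.succAbove k)) (fun k => b' (i.succAbove k)) := by
      rw [← ih, add_sub_cancel_right]
    rw [e5, e3]
    have e6 : Finsupp.single a (1 : ℤ) =
        Finsupp.mapDomain.addMonoidHom (cn (a 0)) (Finsupp.single a' 1) := by
      show _ = Finsupp.mapDomain (cn (a 0)) _
      rw [Finsupp.mapDomain_single, ha]
    rw [e6]
    simp only [map_sub]
    abel

end homog

section inhom

variable {S Γ : Type} [Group Γ] (R : RA S Γ)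

/-- the string of a homogeneous tuple -/
def hom (s : S) {m : ℕ} (Q : Fin (m + 1) → Γ) : S × (Fin m → Γ) :=
  (R.act s (Q 0), fun i => (Q i.castSucc)⁻¹ * Q i.succ)

theorem act_partialProd (s : S) {m : ℕ} (Q : Fin (m + 1) → Γ) (k : Fin (m + 1)) :
    R.act (hom R s Q).1 (Fin.partialProd (hom R s Q).2 k) = R.act s (Q k) := by
  have h : Fin.partialProd (hom R s Q).2 k = (Q 0)⁻¹ * Q k := by
    induction k using Fin.induction with
    | zero => rw [Fin.partialProd_zero, inv_mul_cancel]
    | succ i ih =>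
      rw [Fin.partialProd_succ, ih]
      show (Q 0)⁻¹ * Q i.castSucc * ((Q i.castSucc)⁻¹ * Q i.succ) = _
      group
  rw [h]
  show R.act (R.act s (Q 0)) _ = _
  rw [← R.act_mul, mul_inv_cancel_left]

theorem eq_hom {m : ℕ} (x : S × (Fin m → Γ)) : x = hom R x.1 (Fin.partialProd x.2) := by
  obtain ⟨s, g⟩ := x
  unfold hom
  rw [Fin.partialProd_zero, R.act_one]
  congr 1
  funext i
  rw [Fin.partialProd_succ, inv_mul_cancel_left]

theorem face_hom (s : S) {m : ℕ} (Q : Fin (m + 2) → Γ) (i : Fin (m + 2)) :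
    R.face i (hom R s Q) = hom R s (fun k => Q (i.succAbove k)) := by
  refine Fin.cases ?_ (fun j => ?_) i
  · rw [RA.face_zero]
    unfold hom
    simp only [Fin.succAbove_zero]
    rw [← R.act_mul]
    congr 1
    show R.act s (Q 0 * ((Q 0)⁻¹ * Q (Fin.succ 0))) = _
    rw [mul_inv_cancel_left]
  · rw [RA.face_succ]
    unfold hom
    refine Prod.ext ?_ ?_
    · show R.act s (Q 0) = R.act s (Q (j.succ.succAbove 0))
      rw [Fin.succ_succAbove_zero]
    funext k
    show Fin.contractNth j (· * ·) (fun i => (Q i.castSucc)⁻¹ * Q i.succ) k =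
      (Q (j.succ.succAbove k.castSucc))⁻¹ * Q (j.succ.succAbove k.succ)
    unfold Fin.contractNth
    split_ifs with h1 h2
    · have e1 : j.succ.succAbove k.castSucc = k.castSucc.castSucc := by
        apply Fin.succAbove_of_castSucc_lt
        simp only [Fin.lt_def, Fin.val_castSucc, Fin.val_succ]
        omega
      have e2 : j.succ.succAbove k.succ = k.castSucc.succ := by
        rw [Fin.succ_succAbove_succ, Fin.succAbove_of_castSucc_lt]
        simp only [Fin.lt_def, Fin.val_castSucc]
        omega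
      rw [e1, e2]
    · have e1 : j.succ.succAbove k.castSucc = k.castSucc.castSucc := by
        apply Fin.succAbove_of_castSucc_lt
        simp only [Fin.lt_def, Fin.val_castSucc, Fin.val_succ]
        omega
      have e2 : j.succ.succAbove k.succ = k.succ.succ := by
        rw [Fin.succ_succAbove_succ, Fin.succAbove_of_le_castSucc]
        simp only [Fin.le_def, Fin.val_castSucc]
        omega
      rw [e1, e2]
      show (Q k.castSucc.castSucc)⁻¹ * Q k.castSucc.succ * ((Q k.succ.castSucc)⁻¹ * Q k.succ.succ) = _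
      have e3 : k.castSucc.succ = k.succ.castSucc := rfl
      rw [e3]
      group
    · have e1 : j.succ.succAbove k.castSucc = k.castSucc.succ := by
        apply Fin.succAbove_of_le_castSucc
        simp only [Fin.le_def, Fin.val_castSucc, Fin.val_succ]
        omega
      have e2 : j.succ.succAbove k.succ = k.succ.succ := by
        rw [Fin.succ_succAbove_succ, Fin.succAbove_of_le_castSucc]
        simp only [Fin.le_def, Fin.val_castSucc]
        omega
      rw [e1, e2]
      rfl

theorem bdz_hom (s : S) {m : ℕ} (Q : Fin (m + 2) → Γ) :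
    R.bdz (hom R s Q) = Finsupp.mapDomain (hom R s) (dd (m + 1) Q) := by
  show _ = Finsupp.mapDomain.addMonoidHom (hom R s) (dd (m + 1) Q)
  unfold RA.bdz dd
  rw [map_sum]
  refine Finset.sum_congr rfl fun i _ => ?_
  rw [map_zsmul, face_hom]
  show _ = _ • Finsupp.mapDomain (hom R s) _
  rw [Finsupp.mapDomain_single]

theorem comb_bdz_hom (s : S) {m : ℕ} (v : (Fin (m + 2) → Γ) →₀ ℤ) :
    comb ℤ R.bdz (Finsupp.mapDomain (hom R s) v) =
      Finsupp.mapDomain (hom R s) (comb ℤ (dd (m + 1)) v) := by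
  rw [comb_mapDomain, mapDomain_comb]
  simp only [bdz_hom]

end inhom

section functors

variable {S S' Γ Γ' : Type} [Group Γ] [Group Γ'] {R : RA S Γ} {R' : RA S' Γ'}

theorem phi_one (F : GF R R') (s : S) : F.φ s 1 = 1 := by
  have h := F.φ_mul s 1 1
  rw [mul_one, R.act_one] at h
  exact left_eq_mul.1 h

theorem phi_diff (F : GF R R') (s : S) (g h : Γ) :
    F.φ (R.act s g) (g⁻¹ * h) = (F.φ s g)⁻¹ * F.φ s h := by
  have e := F.φ_mul s g (g⁻¹ * h)
  rw [mul_inv_cancel_left] at e
  rw [e, inv_mul_cancel_left]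

theorem tup_hom (F : GF R R') (s : S) {m : ℕ} (Q : Fin (m + 1) → Γ) :
    F.tup (hom R s Q) = hom R' (F.f s) (fun k => F.φ s (Q k)) := by
  unfold GF.tup
  simp only [act_partialProd]
  unfold hom
  rw [F.f_act]
  congr 1
  funext i
  exact phi_diff F s _ _

theorem tup_hom' {F F' : GF R R'} (t : NT F F') (s : S) {m : ℕ} (Q : Fin (m + 1) → Γ) :
    F'.tup (hom R s Q) = hom R' (F.f s) (fun k => t.τ s * F'.φ s (Q k)) := by
  rw [tup_hom]
  unfold hom
  rw [R'.act_mul, t.f_act]
  congr 1
  funext i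
  group

theorem ntup_hom {F F' : GF R R'} (t : NT F F') (s : S) {m : ℕ} (Q : Fin (m + 1) → Γ)
    (j : Fin (m + 1)) : t.tup j (hom R s Q) =
      hom R' (F.f s) (prism j (fun k => F.φ s (Q k)) (fun k => t.τ s * F'.φ s (Q k))) := by
  unfold NT.tup
  simp only [act_partialProd]
  have hbase : F.f (hom R s Q).1 = (hom R' (F.f s)
      (prism j (fun k => F.φ s (Q k)) (fun k => t.τ s * F'.φ s (Q k)))).1 := by
    unfold hom
    rw [F.f_act]
    congr 1
  rw [hbase]
  refine Prod.ext rfl ?_
  funext k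
  show Fin.insertNth (α := fun _ => Γ') j (t.τ (R.act s (Q j)))
    (fun i => if i.castSucc < j then F.φ (R.act s (Q i.castSucc)) ((Q i.castSucc)⁻¹ * Q i.succ)
      else F'.φ (R.act s (Q i.castSucc)) ((Q i.castSucc)⁻¹ * Q i.succ)) k =
    (prism j (fun k => F.φ s (Q k)) (fun k => t.τ s * F'.φ s (Q k)) k.castSucc)⁻¹ *
      prism j (fun k => F.φ s (Q k)) (fun k => t.τ s * F'.φ s (Q k)) k.succ
  rcases Fin.eq_self_or_eq_succAbove j k with rfl | ⟨i, rfl⟩
  · rw [Fin.insertNth_apply_same]
    unfold prism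
    rw [dif_pos (by simp), dif_neg (by simp)]
    have hn := t.nat s (Q k)
    rw [eq_inv_mul_iff_mul_eq]
    exact hn
  · rw [Fin.insertNth_apply_succAbove]
    unfold prism
    by_cases hi : i.castSucc < j
    · rw [if_pos hi, phi_diff]
      have e : j.succAbove i = i.castSucc := Fin.succAbove_of_castSucc_lt _ _ hi
      rw [e]
      have hi' : (i : ℕ) < j := hi
      rw [dif_pos (by simp only [Fin.val_castSucc]; omega),
        dif_pos (by simp only [Fin.val_castSucc, Fin.val_succ]; omega)]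
      rfl
    · rw [if_neg hi, phi_diff]
      have e : j.succAbove i = i.succ := Fin.succAbove_of_le_castSucc _ _ (not_lt.1 hi)
      rw [e]
      have hi' : ¬ (i : ℕ) < j := hi
      rw [dif_neg (by simp only [Fin.val_castSucc, Fin.val_succ]; omega),
        dif_neg (by simp only [Fin.val_succ]; omega)]
      have e1 : (⟨((i.succ.castSucc : Fin (m + 2)) : ℕ) - 1, by simp⟩ : Fin (m + 1)) =
          i.castSucc := by
        apply Fin.ext
        simp
      have e2 : (⟨((i.succ.succ : Fin (m + 2)) : ℕ) - 1, by simp⟩ : Fin (m + 1)) =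
          i.succ := by
        apply Fin.ext
        simp
      rw [e1, e2]
      group

/-- the prism of one string -/
noncomputable def hz {F F' : GF R R'} (t : NT F F') {m : ℕ} (x : S × (Fin m → Γ)) :
    Ch S' Γ' ℤ (m + 1) :=
  ∑ j : Fin (m + 1), ((-1 : ℤ) ^ (j : ℕ)) • Finsupp.single (t.tup j x) 1

theorem hz_hom {F F' : GF R R'} (t : NT F F') (s : S) {m : ℕ} (Q : Fin (m + 1) → Γ) :
    hz t (hom R s Q) = Finsupp.mapDomain (hom R' (F.f s))
      (pr (m + 1) (fun k => F.φ s (Q k)) (fun k => t.τ s * F'.φ s (Q k))) := by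
  show _ = Finsupp.mapDomain.addMonoidHom (hom R' (F.f s)) _
  unfold hz pr
  rw [map_sum]
  refine Finset.sum_congr rfl fun j _ => ?_
  rw [map_zsmul, ntup_hom]
  show _ = _ • Finsupp.mapDomain (hom R' (F.f s)) _
  rw [Finsupp.mapDomain_single]

theorem hmt_zero {F F' : GF R R'} (t : NT F F') (x : S × (Fin 0 → Γ)) :
    comb ℤ R'.bdz (hz t x) = Finsupp.single (F'.tup x) 1 - Finsupp.single (F.tup x) 1 := by
  rw [eq_hom R x, hz_hom, comb_bdz_hom, tup_hom' t, tup_hom]
  have h := key 0 (fun k => F.φ x.1 (Fin.partialProd x.2 k))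
    (fun k => t.τ x.1 * F'.φ x.1 (Fin.partialProd x.2 k))
  have h0 : ∀ (a b : Fin 0 → Γ'), pr 0 a b = 0 := fun a b => by unfold pr; simp
  simp only [h0, smul_zero, Finset.sum_const_zero, add_zero] at h
  rw [h]
  show Finsupp.mapDomain.addMonoidHom (hom R' (F.f x.1)) _ = _
  rw [map_sub]
  show Finsupp.mapDomain (hom R' (F.f x.1)) _ - Finsupp.mapDomain (hom R' (F.f x.1)) _ = _
  rw [Finsupp.mapDomain_single, Finsupp.mapDomain_single]

theorem hmt_succ {F F' : GF R R'} (t : NT F F') {m : ℕ} (x : S × (Fin (m + 1) → Γ)) :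
    comb ℤ R'.bdz (hz t x) + comb ℤ (hz t) (R.bdz x) =
      Finsupp.single (F'.tup x) 1 - Finsupp.single (F.tup x) 1 := by
  rw [eq_hom R x]
  generalize x.1 = s
  generalize Fin.partialProd x.2 = Q
  rw [hz_hom, comb_bdz_hom, tup_hom' t, tup_hom]
  have e : comb ℤ (hz t) (R.bdz (hom R s Q)) =
      Finsupp.mapDomain.addMonoidHom (hom R' (F.f s)) (∑ i : Fin (m + 2), ((-1 : ℤ) ^ (i : ℕ)) •
        pr (m + 1) (fun k => F.φ s (Q (i.succAbove k)))
          (fun k => t.τ s * F'.φ s (Q (i.succAbove k)))) := by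
    unfold RA.bdz
    rw [map_sum, map_sum]
    refine Finset.sum_congr rfl fun i _ => ?_
    rw [map_zsmul, map_zsmul, comb_single_one, face_hom, hz_hom]
    rfl
  rw [e]
  have h := key (m + 1) (fun k => F.φ s (Q k)) (fun k => t.τ s * F'.φ s (Q k))
  show Finsupp.mapDomain.addMonoidHom (hom R' (F.f s)) _ + _ = _
  rw [← map_add, h, map_sub]
  show Finsupp.mapDomain (hom R' (F.f s)) _ - Finsupp.mapDomain (hom R' (F.f s)) _ = _
  rw [Finsupp.mapDomain_single, Finsupp.mapDomain_single]

end functors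

end Hmt860

open Hmt860 in
theorem t_hmt : S_hmt := by
  intro S S' Γ Γ' _ _ R R' F F' t A _
  refine ⟨fun c => ?_, fun m c => ?_⟩
  · show comb A R'.bdz (comb A (hz t) c) = comb A _ c - comb A _ c
    rw [comb_comp, ← comb_sub]
    congr 2
    funext x
    exact hmt_zero t x
  · show comb A R'.bdz (comb A (hz t) c) + comb A (hz t) (comb A R.bdz c) =
      comb A _ c - comb A _ c
    rw [comb_comp, comb_comp, ← comb_sub, ← comb_add]
    congr 2
    funext x
    exact hmt_succ t x

end Pool.Agent.H316.TF
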