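import Pool.Agent.H316.TF.Lem

/-!
# TF-LD, TF-Lam: operators of crossed homomorphisms and the boundary
-/

set_option autoImplicit false

namespace Pool.Agent.H316.TF

open Finsupp

namespace LDLam

variable {Γ : Type} [Group Γ] {m : ℕ}

/-- the first entry of the contraction at `0` -/
theorem contr_zero_zero (g : Fin (m + 2) → Γ) :
    Fin.contractNth 0 (· * ·) g 0 = g 0 * g 1 := by
  rw [Fin.contractNth_apply_of_eq 0 (· * ·) g 0 rfl]
  rfl

/-- the tail of the contraction at `0` -/
theorem contr_zero_succ (g : Fin (m + 2) → Γ) :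
    (fun k : Fin m => Fin.contractNth 0 (· * ·) g k.succ) = fun k => g k.succ.succ := by
  funext k
  rw [Fin.contractNth_apply_of_gt 0 (· * ·) g k.succ (Nat.succ_pos _)]

/-- the first entry of the contraction at `j + 1` -/
theorem contr_succ_zero (j : Fin (m + 1)) (g : Fin (m + 2) → Γ) :
    Fin.contractNth j.succ (· * ·) g 0 = g 0 := by
  rw [Fin.contractNth_apply_of_lt j.succ (· * ·) g 0 (Nat.succ_pos _)]
  rfl

/-- the tail of the contraction at `j + 1` -/
theorem contr_succ_succ (j : Fin (m + 1)) (g : Fin (m + 2) → Γ) :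
    (fun k : Fin m => Fin.contractNth j.succ (· * ·) g k.succ) =
      Fin.contractNth j (· * ·) fun k => g k.succ := by
  funext k
  rcases lt_trichotomy (k : ℕ) (j : ℕ) with h | h | h
  · rw [Fin.contractNth_apply_of_lt j.succ (· * ·) g k.succ (by simpa using h),
      Fin.contractNth_apply_of_lt j (· * ·) _ k h]
    rfl
  · rw [Fin.contractNth_apply_of_eq j.succ (· * ·) g k.succ (by simpa using h),
      Fin.contractNth_apply_of_eq j (· * ·) _ k h]
    rfl
  · rw [Fin.contractNth_apply_of_gt j.succ (· * ·) g k.succ (by simpa using h),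
      Fin.contractNth_apply_of_gt j (· * ·) _ k h]

/-- the boundary of a string, the face `0` separated -/
theorem bdz_eq {S : Type} (R : RA S Γ) (s : S) (g : Fin (m + 1) → Γ) :
    R.bdz (s, g) = Finsupp.single (R.act s (g 0), fun k => g k.succ) 1 +
      ∑ j : Fin (m + 1), ((-1 : ℤ) ^ ((j : ℕ) + 1)) •
        Finsupp.single (s, Fin.contractNth j (· * ·) g) 1 := by
  unfold RA.bdz
  rw [Fin.sum_univ_succ, RA.face_zero]
  simp only [RA.face_succ, Fin.val_zero, pow_zero, one_smul, Fin.val_succ]

end LDLam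

open LDLam in
theorem t_LD : S_LD := by
  intro S Γ _ R D hD A _ m c
  unfold LD RA.bd
  rw [comb_comp, comb_comp, ← comb_neg]
  congr 2
  funext x
  obtain ⟨u, g⟩ := x
  rw [comb_mapDomain]
  -- the left column
  have hL : comb ℤ (fun s => R.bdz (s, fun k : Fin (m + 1) => g k.succ)) (D (g 0)) =
      Finsupp.mapDomain (fun s => (R.act s (g 1), fun k : Fin m => g k.succ.succ)) (D (g 0)) +
      ∑ j : Fin (m + 1), ((-1 : ℤ) ^ ((j : ℕ) + 1)) •
        Finsupp.mapDomain (fun s => (s, Fin.contractNth j (· * ·) fun k : Fin (m + 1) => g k.succ))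
          (D (g 0)) := by
    simp only [bdz_eq]
    rw [comb_add, comb_sum]
    simp only [comb_zsmul]
    rw [comb_map]
    congr 1
    refine Finset.sum_congr rfl fun j _ => ?_
    rw [comb_map]
  -- the right column
  have hR : comb ℤ (fun x : Unit × (Fin (m + 1) → Γ) =>
        Finsupp.mapDomain (fun s => (s, fun k : Fin m => x.2 k.succ)) (D (x.2 0)))
        ((pt Γ).bdz (u, g)) =
      Finsupp.mapDomain (fun s => (s, fun k : Fin m => g k.succ.succ)) (D (g 1)) -
      Finsupp.mapDomain (fun s => (s, fun k : Fin m => g k.succ.succ)) (D (g 0 * g 1)) +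
      ∑ j : Fin (m + 1), ((-1 : ℤ) ^ ((j : ℕ) + 2)) •
        Finsupp.mapDomain (fun s => (s, Fin.contractNth j (· * ·) fun k : Fin (m + 1) => g k.succ))
          (D (g 0)) := by
    rw [bdz_eq, map_add, map_sum, Fin.sum_univ_succ]
    simp only [map_zsmul, comb_single_one, contr_zero_zero, contr_zero_succ, contr_succ_zero,
      contr_succ_succ]
    simp only [Fin.val_zero, Fin.val_succ, zero_add, pow_one, neg_smul, one_smul]
    rw [sub_eq_add_neg, ← add_assoc]
    rfl
  show comb ℤ (fun s => R.bdz (s, fun k : Fin (m + 1) => g k.succ)) (D (g 0)) = - _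
  rw [hL]
  refine Eq.trans ?_ (congrArg Neg.neg hR).symm
  rw [hD (g 0) (g 1), Finsupp.mapDomain_add, ← Finsupp.mapDomain_comp, neg_add, neg_sub,
    ← Finset.sum_neg_distrib]
  have h1 : ∀ j : Fin (m + 1), ∀ v : Ch S Γ ℤ m,
      -((-1 : ℤ) ^ ((j : ℕ) + 2) • v) = (-1 : ℤ) ^ ((j : ℕ) + 1) • v := by
    intro j v
    rw [pow_succ (-1 : ℤ) ((j : ℕ) + 1), mul_neg_one, neg_smul, neg_neg]
  simp only [h1]
  rw [add_sub_cancel_right]
  rfl

open LDLam in
theorem t_Lam : S_Lam := by
  intro Γ B _ _ π A _ m c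
  unfold LD RA.bd Lam psh
  rw [comb_comp, comb_comp, ← comb_add]
  congr 2
  funext x
  obtain ⟨u, g⟩ := x
  rw [comb_single_one, bdz_eq, bdz_eq, map_add, map_sum]
  simp only [map_zsmul, comb_single_one, D0]
  have h1 : Finsupp.mapDomain (fun s : B => (s, fun k : Fin m => g k.succ))
      (Finsupp.single (π (g 0)) 1 - Finsupp.single 1 1) =
      Finsupp.single (π (g 0), fun k : Fin m => g k.succ) (1 : ℤ) -
        Finsupp.single (1, fun k : Fin m => g k.succ) 1 := by
    have h2 := map_sub (Finsupp.mapDomain.addMonoidHom (M := ℤ)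
      (fun s : B => (s, fun k : Fin m => g k.succ))) (Finsupp.single (π (g 0)) 1)
      (Finsupp.single 1 1)
    simp only [Finsupp.mapDomain.addMonoidHom_apply, Finsupp.mapDomain_single] at h2
    exact h2
  rw [h1]
  have h3 : (rt π).act 1 (g 0) = π (g 0) := one_mul _
  rw [h3]
  abel

end Pool.Agent.H316.TF
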