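import Pool.Agent.H316.TF.Lem

set_option autoImplicit false

/-!
Functors of action groupoids give chain maps.
-/

namespace Pool.Agent.H316.TF

open Finsupp

namespace MapTask

variable {S S' Γ Γ' : Type} [Group Γ] [Group Γ'] {R : RA S Γ} {R' : RA S' Γ'}

/-- functors commute with the faces -/
theorem face_tup (F : GF R R') {m : ℕ} (i : Fin (m + 2)) (x : S × (Fin (m + 1) → Γ)) :
    R'.face i (F.tup x) = F.tup (R.face i x) := by
  refine Fin.cases ?_ (fun j => ?_) i
  · rw [RA.face_zero, RA.face_zero]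
    unfold GF.tup
    refine Prod.ext ?_ (funext fun k => ?_)
    · show R'.act (F.f x.1) (F.φ (R.act x.1 (Fin.partialProd x.2 (Fin.castSucc 0))) (x.2 0)) =
        F.f (R.act x.1 (x.2 0))
      rw [Fin.castSucc_zero, Fin.partialProd_zero, R.act_one, F.f_act]
    · show F.φ (R.act x.1 (Fin.partialProd x.2 k.succ.castSucc)) (x.2 k.succ) =
        F.φ (R.act (R.act x.1 (x.2 0)) (Fin.partialProd (Fin.tail x.2) k.castSucc)) (x.2 k.succ)
      rw [Fin.castSucc_succ, Fin.partialProd_succ', R.act_mul]
  · rw [RA.face_succ, RA.face_succ]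
    unfold GF.tup
    refine Prod.ext rfl (funext fun k => ?_)
    show Fin.contractNth j (· * ·)
        (fun i => F.φ (R.act x.1 (Fin.partialProd x.2 i.castSucc)) (x.2 i)) k =
      F.φ (R.act x.1 (Fin.partialProd (Fin.contractNth j (· * ·) x.2) k.castSucc))
        (Fin.contractNth j (· * ·) x.2 k)
    rw [Fin.partialProd_contractNth]
    show _ = F.φ (R.act x.1 (Fin.partialProd x.2 (j.succ.succAbove k.castSucc)))
        (Fin.contractNth j (· * ·) x.2 k)
    rcases lt_trichotomy (k : ℕ) j with h | h | h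
    · rw [Fin.contractNth_apply_of_lt _ _ _ _ h, Fin.contractNth_apply_of_lt _ _ _ _ h,
        Fin.succAbove_of_castSucc_lt _ _ (by rw [Fin.lt_def]; simp; omega)]
    · rw [Fin.contractNth_apply_of_eq _ _ _ _ h, Fin.contractNth_apply_of_eq _ _ _ _ h,
        Fin.succAbove_of_castSucc_lt _ _ (by rw [Fin.lt_def]; simp; omega), F.φ_mul,
        ← R.act_mul, ← Fin.partialProd_succ, ← Fin.castSucc_succ]
    · rw [Fin.contractNth_apply_of_gt _ _ _ _ h, Fin.contractNth_apply_of_gt _ _ _ _ h,
        Fin.succAbove_of_le_castSucc _ _ (by rw [Fin.le_def]; simp; omega), Fin.castSucc_succ]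

end MapTask

theorem t_map : S_map := by
  intro S S' Γ Γ' _ _ R R' F A _ m c
  unfold RA.bd GF.map
  rw [comb_comp, comb_comp]
  congr 2
  funext x
  rw [comb_single_one, comb_map]
  unfold RA.bdz
  rw [Finsupp.mapDomain_finsetSum]
  refine Finset.sum_congr rfl fun i _ => ?_
  rw [Finsupp.mapDomain_smul, Finsupp.mapDomain_single, MapTask.face_tup]

end Pool.Agent.H316.TF
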