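import Pool.Agent.H316.TF.Lem

/-!
# Project TF: products of coordinates are cocycles, their values on the shuffle cycles
-/

set_option autoImplicit false

namespace Pool.Agent.H316.TF

open Finsupp

namespace PhiP

theorem phi_single {Ω : Type} {m : ℕ} (τ : Fin m → Ω) {A : Type} [AddCommGroup A]
    (x : Unit × (Fin m → FA Ω)) (a : A) :
    phi τ A (Finsupp.single x a) = (∏ i, (Multiplicative.toAdd (x.2 i)) (τ i) : ℤ) • a := by
  unfold phi
  rw [Finsupp.liftAddHom_apply_single]
  rfl

section faces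

variable {Ω : Type} {m : ℕ} (τ : Fin m → Ω) (n : Fin (m + 1) → FA Ω)

/-- the product with the entry `k` omitted -/
noncomputable def O (k : Fin (m + 1)) : ℤ :=
  ∏ i, (Multiplicative.toAdd (n (k.succAbove i))) (τ i)

theorem O_zero : ∏ i, (Multiplicative.toAdd (n (Fin.succ i))) (τ i) = O τ n 0 := by
  unfold O
  refine Finset.prod_congr rfl fun i _ => ?_
  rw [Fin.zero_succAbove]

theorem O_last : ∏ i, (Multiplicative.toAdd
    (Fin.contractNth (Fin.last m) (· * ·) n i)) (τ i) = O τ n (Fin.last m) := by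
  unfold O
  refine Finset.prod_congr rfl fun i _ => ?_
  rw [Fin.succAbove_last, Fin.contractNth_apply_of_lt]
  show (i : ℕ) < (Fin.last m : ℕ)
  rw [Fin.val_last]
  exact i.2

theorem O_mid (j : Fin m) : ∏ i, (Multiplicative.toAdd
    (Fin.contractNth j.castSucc (· * ·) n i)) (τ i) = O τ n j.succ + O τ n j.castSucc := by
  classical
  unfold O
  rw [← Finset.mul_prod_erase Finset.univ _ (Finset.mem_univ j),
    ← Finset.mul_prod_erase Finset.univ (fun i => (Multiplicative.toAdd
      (n (j.succ.succAbove i))) (τ i)) (Finset.mem_univ j),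
    ← Finset.mul_prod_erase Finset.univ (fun i => (Multiplicative.toAdd
      (n (j.castSucc.succAbove i))) (τ i)) (Finset.mem_univ j)]
  have e1 : ∀ i ∈ Finset.univ.erase j, (Multiplicative.toAdd
      (Fin.contractNth j.castSucc (· * ·) n i)) (τ i) =
      (Multiplicative.toAdd (n (j.succ.succAbove i))) (τ i) := by
    intro i hi
    have hij : i ≠ j := Finset.ne_of_mem_erase hi
    rcases lt_or_gt_of_ne hij with h | h
    · rw [Fin.contractNth_apply_of_lt _ _ _ _ (show (i : ℕ) < (j.castSucc : ℕ) from h),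
        Fin.succAbove_of_castSucc_lt _ _ (show i.castSucc < j.succ from by
          rw [Fin.lt_def, Fin.val_castSucc, Fin.val_succ]
          have : (i : ℕ) < j := h
          omega)]
    · rw [Fin.contractNth_apply_of_gt _ _ _ _ (show (j.castSucc : ℕ) < (i : ℕ) from h),
        Fin.succAbove_of_le_castSucc _ _ (show j.succ ≤ i.castSucc from by
          rw [Fin.le_def, Fin.val_castSucc, Fin.val_succ]
          have : (j : ℕ) < i := h
          omega)]
  have e2 : ∀ i ∈ Finset.univ.erase j, (Multiplicative.toAdd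
      (n (j.castSucc.succAbove i))) (τ i) =
      (Multiplicative.toAdd (n (j.succ.succAbove i))) (τ i) := by
    intro i hi
    have hij : i ≠ j := Finset.ne_of_mem_erase hi
    rcases lt_or_gt_of_ne hij with h | h
    · rw [Fin.succAbove_of_castSucc_lt _ _ (show i.castSucc < j.castSucc from h),
        Fin.succAbove_of_castSucc_lt _ _ (show i.castSucc < j.succ from by
          rw [Fin.lt_def, Fin.val_castSucc, Fin.val_succ]
          have : (i : ℕ) < j := h
          omega)]
    · rw [Fin.succAbove_of_le_castSucc _ _ (show j.castSucc ≤ i.castSucc from le_of_lt h),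
        Fin.succAbove_of_le_castSucc _ _ (show j.succ ≤ i.castSucc from by
          rw [Fin.le_def, Fin.val_castSucc, Fin.val_succ]
          have : (j : ℕ) < i := h
          omega)]
  rw [Finset.prod_congr rfl e1, Finset.prod_congr rfl e2, ← add_mul]
  congr 1
  rw [Fin.contractNth_apply_of_eq _ _ _ _ (show (j : ℕ) = (j.castSucc : ℕ) from rfl),
    Fin.succAbove_of_castSucc_lt j.succ j (show j.castSucc < j.succ from by
      rw [Fin.lt_def, Fin.val_castSucc, Fin.val_succ]
      omega),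
    Fin.succAbove_of_le_castSucc j.castSucc j le_rfl]
  rfl

theorem alt_sum (f : Fin (m + 2) → ℤ) (h0 : f 0 = O τ n 0)
    (hmid : ∀ j : Fin m, f j.castSucc.succ = O τ n j.succ + O τ n j.castSucc)
    (hlast : f (Fin.last m).succ = O τ n (Fin.last m)) :
    ∑ i : Fin (m + 2), (-1 : ℤ) ^ (i : ℕ) * f i = 0 := by
  rw [Fin.sum_univ_succ, Fin.sum_univ_castSucc, h0, hlast]
  have e1 : ∑ j : Fin m, (-1 : ℤ) ^ ((j.castSucc.succ : Fin (m + 2)) : ℕ) * f j.castSucc.succ =
      ∑ j : Fin m, (fun k : Fin (m + 1) => (-1 : ℤ) ^ (k : ℕ) * O τ n k) j.succ -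
      ∑ j : Fin m, (fun k : Fin (m + 1) => (-1 : ℤ) ^ (k : ℕ) * O τ n k) j.castSucc := by
    rw [← Finset.sum_sub_distrib]
    refine Finset.sum_congr rfl fun j _ => ?_
    rw [hmid]
    simp only [Fin.val_succ, Fin.val_castSucc]
    ring
  have e2 := Fin.sum_univ_succ (fun k : Fin (m + 1) => (-1 : ℤ) ^ (k : ℕ) * O τ n k)
  have e3 := Fin.sum_univ_castSucc (fun k : Fin (m + 1) => (-1 : ℤ) ^ (k : ℕ) * O τ n k)
  rw [e1]
  simp only [Fin.val_zero, pow_zero, one_mul, Fin.val_succ, Fin.val_last,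
    Fin.val_castSucc] at e2 e3 ⊢
  rw [pow_succ]
  linarith

end faces

end PhiP

theorem t_phi : S_phi := by
  intro Ω m τ A _ c
  have key : (phi τ A).comp ((pt (FA Ω)).bd A m) = 0 := by
    refine hom_ext fun x a => ?_
    show phi τ A ((pt (FA Ω)).bd A m (Finsupp.single x a)) = 0
    rw [RA.bd_single, map_sum]
    have h1 : ∀ i : Fin (m + 2), phi τ A (((-1 : ℤ) ^ (i : ℕ)) •
        Finsupp.single ((pt (FA Ω)).face i x) a) =
        ((-1 : ℤ) ^ (i : ℕ) *
          ∏ k, (Multiplicative.toAdd (((pt (FA Ω)).face i x).2 k)) (τ k)) • a := by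
      intro i
      rw [map_zsmul, PhiP.phi_single, mul_smul]
    rw [Finset.sum_congr rfl fun i _ => h1 i, ← Finset.sum_smul,
      PhiP.alt_sum τ x.2 (fun i => ∏ k, (Multiplicative.toAdd
        (((pt (FA Ω)).face i x).2 k)) (τ k)) (PhiP.O_zero τ x.2) (PhiP.O_mid τ x.2)
        (PhiP.O_last τ x.2), zero_smul]
  exact DFunLike.congr_fun key c

namespace PhiP

theorem phi_sh {Ω : Type} {m : ℕ} (σ τ : Fin m → Ω) :
    phi τ ℤ (sh fun i => be (σ i)) = ∑ ρ : Equiv.Perm (Fin m), (Equiv.Perm.sign ρ : ℤ) *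
      ∏ i, (Finsupp.single (σ (ρ i)) (1 : ℤ)) (τ i) := by
  unfold sh
  rw [map_sum]
  refine Finset.sum_congr rfl fun ρ _ => ?_
  rw [map_zsmul, phi_single, smul_eq_mul, smul_eq_mul, mul_one]
  rfl

theorem term_zero {Ω : Type} {m : ℕ} (σ τ : Fin m → Ω) (ρ : Equiv.Perm (Fin m))
    (h : τ ≠ σ ∘ ρ) : ∏ i, (Finsupp.single (σ (ρ i)) (1 : ℤ)) (τ i) = 0 := by
  classical
  have h1 : ∃ i, σ (ρ i) ≠ τ i := by
    by_contra hc
    push Not at hc
    exact h (funext fun i => (hc i).symm)
  obtain ⟨i, hi⟩ := h1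
  refine Finset.prod_eq_zero (Finset.mem_univ i) ?_
  rw [Finsupp.single_apply, if_neg hi]

end PhiP

theorem t_phish : S_phish := by
  intro Ω m σ τ hσ
  refine ⟨fun ρ hρ => ?_, fun h => ?_⟩
  · rw [PhiP.phi_sh, Finset.sum_eq_single ρ]
    · have : ∏ i, (Finsupp.single (σ (ρ i)) (1 : ℤ)) (τ i) = 1 := by
        refine Finset.prod_eq_one fun i _ => ?_
        rw [hρ]
        exact Finsupp.single_eq_same
      rw [this, mul_one]
    · intro ρ' _ hne
      rw [PhiP.term_zero σ τ ρ', mul_zero]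
      intro h
      apply hne
      apply Equiv.ext
      intro i
      have h1 := congrFun (h.symm.trans hρ) i
      exact hσ h1
    · intro h
      exact absurd (Finset.mem_univ _) h
  · rw [PhiP.phi_sh]
    refine Finset.sum_eq_zero fun ρ _ => ?_
    rw [PhiP.term_zero σ τ ρ (fun h' => h ⟨ρ, h'⟩), mul_zero]

end Pool.Agent.H316.TF
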