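import Pool.Agent.H316.TF.Stm2

/-!
# Project TF (helper316), subtask TF-relmod: the relation module is the permutation module
-/

set_option autoImplicit false

namespace Pool.Agent.H316.TF

open Finsupp

namespace RelMod

theorem be_zpow {Ω : Type} (ω : Ω) (n : ℤ) :
    (be ω) ^ n = Multiplicative.ofAdd (Finsupp.single ω n) := by
  unfold be
  rw [← ofAdd_zsmul, Finsupp.smul_single, smul_eq_mul, mul_one]

/-- homomorphisms which agree on the basis are equal -/
theorem FA_ext {Ω G : Type} [Group G] {f g : FA Ω →* G} (h : ∀ ω, f (be ω) = g (be ω)) :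
    f = g := by
  refine Finsupp.mulHom_ext fun ω n => ?_
  rw [← be_zpow, map_zpow, map_zpow, h]

/-- a subgroup which contains the basis is everything -/
theorem FA_mem {Ω : Type} (S : Subgroup (FA Ω)) (h : ∀ ω, be ω ∈ S) (w : FA Ω) : w ∈ S := by
  have key : ∀ v : Ω →₀ ℤ, Multiplicative.ofAdd v ∈ S := by
    intro v
    induction v using Finsupp.induction_linear with
    | zero => exact S.one_mem
    | add f g hf hg => rw [ofAdd_add]; exact S.mul_mem hf hg
    | single ω n => rw [← be_zpow]; exact S.zpow_mem (h ω) n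
  exact key (Multiplicative.toAdd w)

/-- the universal property, for values in a commutative subgroup -/
theorem exists_hom {Ω G : Type} [Group G] (N : Subgroup G)
    (hN : ∀ x ∈ N, ∀ y ∈ N, x * y = y * x) (e : Ω → G) (he : ∀ ω, e ω ∈ N) :
    ∃ j : FA Ω →* G, (∀ ω, j (be ω) = e ω) ∧ ∀ w, j w ∈ N := by
  let _ : CommGroup N :=
    { (inferInstance : Group N) with
      mul_comm := fun a b => Subtype.ext (hN a a.2 b b.2) }
  let f : (Ω →₀ ℤ) →+ Additive N :=
    Finsupp.liftAddHom fun ω => zmultiplesHom (Additive N) (Additive.ofMul ⟨e ω, he ω⟩)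
  let g : FA Ω →* N := AddMonoidHom.toMultiplicativeLeft f
  refine ⟨N.subtype.comp g, fun ω => ?_, fun w => (g w).2⟩
  have h1 : f (Finsupp.single ω 1) = Additive.ofMul ⟨e ω, he ω⟩ := by
    show Finsupp.liftAddHom (fun ω => zmultiplesHom (Additive N) (Additive.ofMul ⟨e ω, he ω⟩))
      (Finsupp.single ω 1) = _
    rw [Finsupp.liftAddHom_apply_single]
    simp
  show ((g (be ω) : N) : G) = e ω
  have h2 : g (be ω) = (⟨e ω, he ω⟩ : N) := h1
  rw [h2]

section main

variable {F : Type} [Group F] (R : Subgroup F)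

/-- elements of `R` commute modulo `[R, R]` -/
theorem q_comm [R.Normal] {r s : F} (hr : r ∈ R) (hs : s ∈ R) :
    ((r : F) : F ⧸ ⁅R, R⁆) * (s : F ⧸ ⁅R, R⁆) = (s : F ⧸ ⁅R, R⁆) * (r : F ⧸ ⁅R, R⁆) := by
  rw [← QuotientGroup.mk_mul, ← QuotientGroup.mk_mul, QuotientGroup.eq]
  have h := Subgroup.commutator_mem_commutator (R.inv_mem hs) (R.inv_mem hr)
  rw [commutatorElement_def] at h
  have h2 : (r * s)⁻¹ * (s * r) = s⁻¹ * r⁻¹ * s⁻¹⁻¹ * r⁻¹⁻¹ := by
    group
  rw [h2]
  exact h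

/-- the conjugates of `Y ^ p` depend only on the coset -/
theorem conj_eq [R.Normal] (Y : F) (p : ℕ) (hY : Y ^ p ∈ R) (g h : F)
    (hgh : ((g : F ⧸ R) : (F ⧸ R) ⧸ Subgroup.zpowers (Y : F ⧸ R)) = ((h : F ⧸ R) : (F ⧸ R) ⧸ _)) :
    ((g * Y ^ p * g⁻¹ : F) : F ⧸ ⁅R, R⁆) = ((h * Y ^ p * h⁻¹ : F) : F ⧸ ⁅R, R⁆) := by
  rw [QuotientGroup.eq] at hgh
  obtain ⟨m, hm⟩ := Subgroup.mem_zpowers_iff.mp hgh
  have hρ : (Y ^ m)⁻¹ * (g⁻¹ * h) ∈ R := by
    rw [← QuotientGroup.eq]
    rw [QuotientGroup.mk_zpow, hm]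
    rfl
  set ρ := (Y ^ m)⁻¹ * (g⁻¹ * h) with hρd
  have hh : h = g * Y ^ m * ρ := by
    rw [hρd]
    group
  have hc := q_comm R hρ hY
  have h1 : ((ρ * Y ^ p * ρ⁻¹ : F) : F ⧸ ⁅R, R⁆) = ((Y ^ p : F) : F ⧸ ⁅R, R⁆) := by
    rw [QuotientGroup.mk_mul, QuotientGroup.mk_mul, hc, QuotientGroup.mk_inv, mul_inv_cancel_right]
  have h2 : h * Y ^ p * h⁻¹ = (g * Y ^ m) * (ρ * Y ^ p * ρ⁻¹) * (g * Y ^ m)⁻¹ := by
    rw [hh]
    group
  have h3 : g * Y ^ p * g⁻¹ = (g * Y ^ m) * (Y ^ p) * (g * Y ^ m)⁻¹ := by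
    group
  rw [h2, h3, QuotientGroup.mk_mul _ (g * Y ^ m * Y ^ p), QuotientGroup.mk_mul _ (g * Y ^ m),
    QuotientGroup.mk_mul _ (g * Y ^ m * _), QuotientGroup.mk_mul _ (g * Y ^ m) (ρ * Y ^ p * ρ⁻¹), h1]

/-- a homomorphism from `R` to a commutative group kills the elements of `[R, R]` -/
theorem kills {C : Type} [CommGroup C] (θ : R →* C) (r : R) (hr : (r : F) ∈ ⁅R, R⁆) : θ r = 1 := by
  rw [← Subgroup.map_subtype_commutator] at hr
  obtain ⟨c, hc, hcr⟩ := Subgroup.mem_map.mp hr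
  have : c = r := Subtype.ext hcr
  rw [← this]
  exact (Abelianization.commutator_subset_ker θ) hc

end main

end RelMod

open RelMod

/-- **TF-32**. -/
theorem t_relmod : S_relmod := by
  intro p I t θ hθ1 hθ2
  -- representatives
  have hrep : ∀ ω : t.Om, ∃ b : FreeGroup I,
      (((b : FreeGroup I) : Bu p I) : (Bu p I) ⧸ Subgroup.zpowers ((t.y ω.1 : FreeGroup I) : Bu p I))
        = ω.2 := by
    intro ω
    obtain ⟨c, hc⟩ := QuotientGroup.mk_surjective ω.2
    obtain ⟨b, hb⟩ := QuotientGroup.mk_surjective c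
    exact ⟨b, by rw [hb, hc]⟩
  choose rep hrep using hrep
  let q : FreeGroup I →* FreeGroup I ⧸ ⁅pw (FreeGroup I) p, pw (FreeGroup I) p⁆ := QuotientGroup.mk' _
  let N : Subgroup (FreeGroup I ⧸ ⁅pw (FreeGroup I) p, pw (FreeGroup I) p⁆) := (pw (FreeGroup I) p).map q
  have hN : ∀ x ∈ N, ∀ y ∈ N, x * y = y * x := by
    rintro _ ⟨r, hr, rfl⟩ _ ⟨s, hs, rfl⟩
    exact q_comm (pw (FreeGroup I) p) hr hs
  let e : t.Om → FreeGroup I ⧸ ⁅pw (FreeGroup I) p, pw (FreeGroup I) p⁆ := fun ω => q (rep ω * t.y ω.1 ^ p * (rep ω)⁻¹)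
  have hmem : ∀ (g : FreeGroup I) (k : t.J), g * t.y k ^ p * g⁻¹ ∈ pw (FreeGroup I) p := fun g k =>
    (pw_normal (FreeGroup I) p).conj_mem _ (t.y_mem k) g
  have he : ∀ ω, e ω ∈ N := fun ω => ⟨_, hmem _ _, rfl⟩
  obtain ⟨j, hj, hjN⟩ := exists_hom N hN e he
  -- the key formula
  have hkey : ∀ (g : FreeGroup I) (ω : t.Om),
      (((g : FreeGroup I) : Bu p I) : (Bu p I) ⧸ Subgroup.zpowers ((t.y ω.1 : FreeGroup I) : Bu p I))
        = ω.2 → q (g * t.y ω.1 ^ p * g⁻¹) = j (be ω) := by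
    intro g ω hg
    rw [hj]
    exact conj_eq (pw (FreeGroup I) p) (t.y ω.1) p (t.y_mem ω.1) g (rep ω) (by rw [hg]; exact (hrep ω).symm)
  -- equivariance
  have hequiv : ∀ (g : FreeGroup I) (w : FA t.Om),
      q g * j w * (q g)⁻¹ = j (fam (fun ω : t.Om => ((g : FreeGroup I) : Bu p I) • ω) w) := by
    intro g
    have h1 : (MulAut.conj (q g)).toMonoidHom.comp j =
        j.comp (fam (fun ω : t.Om => ((g : FreeGroup I) : Bu p I) • ω)) := by
      refine FA_ext fun ω => ?_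
      show q g * j (be ω) * (q g)⁻¹ = j (fam (fun ω : t.Om => ((g : FreeGroup I) : Bu p I) • ω) (be ω))
      rw [fam_be, hj, ← hkey (g * rep ω) (((g : FreeGroup I) : Bu p I) • ω) ?_]
      · show q g * q (rep ω * t.y ω.1 ^ p * (rep ω)⁻¹) * (q g)⁻¹ =
          q (g * rep ω * t.y ω.1 ^ p * (g * rep ω)⁻¹)
        rw [← map_mul, ← map_inv, ← map_mul]
        congr 1
        group
      · show ((((g * rep ω : FreeGroup I)) : Bu p I) : (Bu p I) ⧸ Subgroup.zpowers
          ((t.y ω.1 : FreeGroup I) : Bu p I)) = ((g : FreeGroup I) : Bu p I) • ω.2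
        rw [← hrep ω]
        rfl
    intro w
    exact DFunLike.congr_fun h1 w
  refine ⟨j, ?_, ?_, ?_⟩
  · -- injective
    let S : Subgroup (FA t.Om) :=
      { carrier := {w | ∃ r : pw (FreeGroup I) p, q r = j w ∧ θ r = w}
        mul_mem' := by
          rintro a b ⟨r, hr, hr'⟩ ⟨s, hs, hs'⟩
          refine ⟨r * s, ?_, ?_⟩
          · rw [Subgroup.coe_mul, map_mul, map_mul, hr, hs]
          · rw [map_mul, hr', hs']
        one_mem' := ⟨1, by rw [Subgroup.coe_one, map_one, map_one], map_one _⟩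
        inv_mem' := by
          rintro a ⟨r, hr, hr'⟩
          refine ⟨r⁻¹, ?_, ?_⟩
          · rw [Subgroup.coe_inv, map_inv, map_inv, hr]
          · rw [map_inv, hr'] }
    have hS : ∀ w, w ∈ S := FA_mem S (by
      intro ω
      refine ⟨⟨rep ω * t.y ω.1 ^ p * (rep ω)⁻¹, hmem _ _⟩, (hj ω).symm, ?_⟩
      have h1 := hθ2 (rep ω) ⟨t.y ω.1 ^ p, t.y_mem ω.1⟩
      rw [hθ1, fam_be] at h1
      refine h1.trans ?_
      congr 1
      refine Sigma.ext rfl ?_
      apply heq_of_eq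
      show ((((rep ω : FreeGroup I) : Bu p I) * 1 : Bu p I) : (Bu p I) ⧸ _) = ω.2
      rw [mul_one]
      exact hrep ω)
    intro w w' hw
    obtain ⟨r, hr, hr'⟩ := hS w
    obtain ⟨s, hs, hs'⟩ := hS w'
    have h1 : q ((r * s⁻¹ : pw (FreeGroup I) p) : FreeGroup I) = 1 := by
      rw [Subgroup.coe_mul, map_mul, Subgroup.coe_inv, map_inv, hr, hs, hw, mul_inv_cancel]
    have h2 : ((r * s⁻¹ : pw (FreeGroup I) p) : FreeGroup I) ∈ ⁅pw (FreeGroup I) p, pw (FreeGroup I) p⁆ := (QuotientGroup.eq_one_iff _).mp h1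
    have h3 := kills (pw (FreeGroup I) p) θ (r * s⁻¹) h2
    rw [map_mul, map_inv, hr', hs', mul_inv_eq_one] at h3
    exact h3
  · -- range
    intro g
    obtain ⟨f, rfl⟩ := QuotientGroup.mk_surjective g
    constructor
    · intro hf
      have hfR : f ∈ pw (FreeGroup I) p := (QuotientGroup.eq_one_iff f).mp hf
      let K : Subgroup (FreeGroup I) := j.range.comap q
      have hKn : K.Normal := by
        constructor
        rintro n ⟨w, hw⟩ g
        refine ⟨fam (fun ω : t.Om => ((g : FreeGroup I) : Bu p I) • ω) w, ?_⟩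
        rw [← hequiv, hw, map_mul, map_mul, map_inv]
      have hKy : ∀ k : t.J, t.y k ^ p ∈ K := by
        intro k
        refine ⟨be (t.bp k), ?_⟩
        rw [← hkey 1 (t.bp k) rfl]
        show q (1 * t.y k ^ p * 1⁻¹) = q (t.y k ^ p)
        rw [one_mul, inv_one, mul_one]
      obtain ⟨n, hn⟩ := (t.union f).mp hfR
      have hM : ∀ n, t.M n ≤ K := by
        intro n
        induction n with
        | zero => rw [t.M_zero]; exact bot_le
        | succ n ih =>
          rw [t.M_succ]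
          refine sup_le ih ?_
          apply Subgroup.normalClosure_le_normal
          rintro _ ⟨i, rfl⟩
          exact hKy ⟨n, i⟩
      exact hM n hn
    · rintro ⟨w, hw⟩
      obtain ⟨r, hr, hr'⟩ := hjN w
      have h1 : q f = q r := by rw [hr']; exact hw.symm
      have h2 : pr (pw (FreeGroup I) p) (q f) = pr (pw (FreeGroup I) p) (q r) := by rw [h1]
      have h3 : pr (pw (FreeGroup I) p) (q r) = 1 := (QuotientGroup.eq_one_iff r).mpr hr
      exact h2.trans h3
  · -- equivariance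
    intro g w
    obtain ⟨f, rfl⟩ := QuotientGroup.mk_surjective g
    exact hequiv f w

end Pool.Agent.H316.TF
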