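import Pool.Agent.H316.TF.Lem

/-! TF-sch: cycles of the Schreier graph with divisible coefficients. -/

set_option autoImplicit false

namespace Pool.Agent.H316.TF

open Finsupp

namespace Sch

variable {I Γ B T : Type} [Group Γ] [Group B] [MulAction B T]

/-- the paths in the Schreier graph -/
noncomputable def P (T : Type) [MulAction B T] (D : Γ → (I × B) →₀ ℤ) (γ : Γ) (t : T) :
    (I × T) →₀ ℤ :=
  Finsupp.mapDomain (fun s : I × B => (s.1, s.2 • t)) (D γ)

theorem P_mul {π : Γ →* B} {y : I → Γ} {D : Γ → (I × B) →₀ ℤ} (hD : Fox π y D) (γ δ : Γ)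
    (t : T) : P T D (γ * δ) t = P T D γ (π δ • t) + P T D δ t := by
  unfold P
  rw [hD.crossed γ δ, Finsupp.mapDomain_add, ← Finsupp.mapDomain_comp]
  congr 1
  refine Finsupp.mapDomain_congr fun s _ => ?_
  show (s.1, (s.2 * π δ) • t) = (s.1, s.2 • (π δ • t))
  rw [mul_smul]

theorem P_gen {π : Γ →* B} {y : I → Γ} {D : Γ → (I × B) →₀ ℤ} (hD : Fox π y D) (i : I)
    (t : T) : P T D (y i) t = Finsupp.single (i, t) 1 := by
  unfold P
  rw [hD.gen i, Finsupp.mapDomain_single, one_smul]

theorem P_one {π : Γ →* B} {y : I → Γ} {D : Γ → (I × B) →₀ ℤ} (hD : Fox π y D) (t : T) :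
    P T D 1 t = 0 := by
  have h := P_mul hD 1 1 t
  rw [map_one, one_smul, mul_one] at h
  exact left_eq_add.1 h

theorem P_pow {π : Γ →* B} {y : I → Γ} {D : Γ → (I × B) →₀ ℤ} (hD : Fox π y D) (f : Γ) (t : T)
    (hf : π f • t = t) (n : ℕ) : P T D (f ^ n) t = (n : ℤ) • P T D f t := by
  induction n with
  | zero => rw [pow_zero, P_one hD]; simp
  | succ n ih =>
    rw [pow_succ, P_mul hD, hf, ih]
    push_cast
    rw [add_smul, one_smul]

theorem exists_rep {π : Γ →* B} (hπ : Function.Surjective π) :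
    ∃ (r : T → T) (g : T → Γ), (∀ t, π (g t) • r t = t) ∧ ∀ (b : B) (t : T), r (b • t) = r t := by
  classical
  let r : T → T := fun t => Quotient.out (Quotient.mk (MulAction.orbitRel B T) t)
  have h1 : ∀ t, ∃ γ : Γ, π γ • r t = t := by
    intro t
    have h2 : (MulAction.orbitRel B T) (r t) t := @Quotient.mk_out T (MulAction.orbitRel B T) t
    have h3 : (MulAction.orbitRel B T) t (r t) :=
      (MulAction.orbitRel B T).iseqv.symm h2
    rw [MulAction.orbitRel_apply, MulAction.mem_orbit_iff] at h3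
    obtain ⟨b, hb⟩ := h3
    obtain ⟨γ, rfl⟩ := hπ b
    exact ⟨γ, hb⟩
  choose g hg using h1
  refine ⟨r, g, hg, fun b t => ?_⟩
  show Quotient.out (Quotient.mk (MulAction.orbitRel B T) (b • t)) =
    Quotient.out (Quotient.mk (MulAction.orbitRel B T) t)
  congr 1
  apply Quotient.sound
  exact MulAction.mem_orbit t b

end Sch

open Sch in
theorem t_sch : S_sch := by
  intro I Γ B T _ _ _ π y D hD hπ n hn A _ hA v hv
  obtain ⟨r, g, hg, hr⟩ := exists_rep (T := T) hπ
  let F : T → (I × T) →₀ ℤ := fun t => P T D (g t) (r t)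
  let w : I × T → (I × T) →₀ ℤ := fun s =>
    P T D (y s.1) s.2 + F s.2 - F (π (y s.1) • s.2)
  have h1 : comb A (fun s : I × T => P T D (y s.1) s.2) v = v := by
    have e : (fun s : I × T => P T D (y s.1) s.2) = fun s : I × T => Finsupp.single (id s) 1 := by
      funext s
      exact P_gen hD s.1 s.2
    rw [e, comb_map, Finsupp.mapDomain_id]
  have h2 : comb A (fun s : I × T => F (π (y s.1) • s.2)) v -
      comb A (fun s : I × T => F s.2) v = 0 := by
    rw [← comb_mapDomain (fun s : I × T => π (y s.1) • s.2) F v,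
      ← comb_mapDomain (fun s : I × T => s.2) F v, ← map_sub, hv, map_zero]
  have h3 : comb A w v = v := by
    show comb A (fun s => P T D (y s.1) s.2 + F s.2 - F (π (y s.1) • s.2)) v = v
    rw [comb_sub (fun s : I × T => P T D (y s.1) s.2 + F s.2) (fun s => F (π (y s.1) • s.2)),
      comb_add (fun s : I × T => P T D (y s.1) s.2) (fun s => F s.2), h1, sub_eq_zero.1 h2,
      add_sub_cancel_right]
  have h4 : ∀ s : I × T, ∃ (f : Γ) (t₀ : T), π f • t₀ = t₀ ∧ w s = P T D f t₀ := by
    rintro ⟨i, t⟩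
    refine ⟨(g (π (y i) • t))⁻¹ * (y i * g t), r t, ?_, ?_⟩
    · rw [map_mul, map_inv, map_mul, mul_smul, mul_smul, hg, inv_smul_eq_iff, ← hr (π (y i)) t, hg]
    · have e1 : π ((g (π (y i) • t))⁻¹ * (y i * g t)) • r t = r t := by
        rw [map_mul, map_inv, map_mul, mul_smul, mul_smul, hg, inv_smul_eq_iff,
          ← hr (π (y i)) t, hg]
      have e2 : P T D (y i * g t) (r t) = P T D (y i) t + F t := by
        rw [P_mul hD, hg]
      have e3 : P T D (y i * g t) (r t) = F (π (y i) • t) +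
          P T D ((g (π (y i) • t))⁻¹ * (y i * g t)) (r t) := by
        have e4 := P_mul (T := T) hD (g (π (y i) • t)) ((g (π (y i) • t))⁻¹ * (y i * g t)) (r t)
        rw [mul_inv_cancel_left, e1] at e4
        rw [e4]
        show _ = P T D (g (π (y i) • t)) (r (π (y i) • t)) + _
        rw [hr]
      show P T D (y i) t + F t - F (π (y i) • t) = _
      rw [← e2, e3, add_sub_cancel_left]
  have h5 : ∀ u : (I × T) →₀ A, comb A w u ∈ AddSubgroup.closure {u : (I × T) →₀ A |
      ∃ (ρ : Γ) (t : T) (a : A), π ρ = 1 ∧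
      u = tens A (Finsupp.mapDomain (fun s : I × B => (s.1, s.2 • t)) (D ρ)) a} := by
    intro u
    induction u using Finsupp.induction_linear with
    | zero => rw [map_zero]; exact zero_mem _
    | add u u' hu hu' => rw [map_add]; exact add_mem hu hu'
    | single s a =>
      apply AddSubgroup.subset_closure
      obtain ⟨f, t₀, hf, hw⟩ := h4 s
      obtain ⟨a', rfl⟩ := hA a
      refine ⟨f ^ n, t₀, a', by rw [map_pow, hn], ?_⟩
      have e5 := P_pow (T := T) hD f t₀ hf n
      unfold P at e5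
      rw [e5, comb_single, hw, tens_zsmul, map_nsmul, natCast_zsmul]
      rfl
  have h6 := h5 v
  rwa [h3] at h6

end Pool.Agent.H316.TF
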