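import Pool.Agent.H316.TF.Lem

/-!
# TF-06: the lemma of Shapiro on chains (helper264)
-/

set_option autoImplicit false

namespace Pool.Agent.H316.TF

open Finsupp

namespace Shap264

section

variable {N Γ B : Type} [Group N] [Group Γ] [Group B] {π : Γ →* B} {j : N →* Γ}

/-- a section with `τ 1 = 1` -/
lemma exists_section (hπ : Function.Surjective π) :
    ∃ τ : B → Γ, (∀ b, π (τ b) = b) ∧ τ 1 = 1 := by
  classical
  refine ⟨fun b => if b = 1 then 1 else Function.surjInv hπ b, fun b => ?_, by simp⟩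
  by_cases hb : b = 1
  · simp [hb]
  · simp [hb, Function.surjInv_eq hπ b]

/-- the retraction -/
lemma exists_retr (hj : Function.Injective j) (hk : ∀ g, π g = 1 ↔ g ∈ j.range)
    (τ : B → Γ) (hτ : ∀ b, π (τ b) = b) :
    ∃ r : GF (rt π) (pt N), ∀ b γ, j (r.φ b γ) = τ b * γ * (τ (b * π γ))⁻¹ := by
  have hex : ∀ (b : B) (γ : Γ), ∃ n : N, j n = τ b * γ * (τ (b * π γ))⁻¹ := by
    intro b γ
    have h1 : π (τ b * γ * (τ (b * π γ))⁻¹) = 1 := by
      rw [map_mul, map_mul, map_inv, hτ, hτ, mul_inv_cancel]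
    exact (hk _).1 h1
  choose φ hφ using hex
  refine ⟨⟨fun _ => (), φ, fun _ _ => rfl, fun s g h => ?_⟩, hφ⟩
  apply hj
  have e1 : (rt π).act s g = s * π g := rfl
  rw [map_mul, e1, hφ, hφ, hφ, map_mul, ← mul_assoc]
  group

/-- the composite functor -/
def comp (π : Γ →* B) (τ : B → Γ) (hτ : ∀ b, π (τ b) = b) : GF (rt π) (rt π) where
  f _ := 1
  φ b γ := τ b * γ * (τ (b * π γ))⁻¹
  f_act s g := by
    change (1 : B) = 1 * π (τ s * g * (τ (s * π g))⁻¹)
    rw [map_mul, map_mul, map_inv, hτ, hτ, mul_inv_cancel, mul_one]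
  φ_mul s g h := by
    have e1 : (rt π).act s g = s * π g := rfl
    rw [e1, map_mul, ← mul_assoc]
    group

/-- the identity functor -/
def idf (π : Γ →* B) : GF (rt π) (rt π) where
  f s := s
  φ _ g := g
  f_act _ _ := rfl
  φ_mul _ _ _ := rfl

/-- the natural transformation -/
def nt (π : Γ →* B) (τ : B → Γ) (hτ : ∀ b, π (τ b) = b) : NT (comp π τ hτ) (idf π) where
  τ := τ
  f_act s := by
    change (1 : B) * π (τ s) = s
    rw [hτ, one_mul]
  nat s g := by
    change τ s * g * (τ (s * π g))⁻¹ * τ (s * π g) = τ s * g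
    rw [inv_mul_cancel_right]

lemma idf_map {A : Type} [AddCommGroup A] {m : ℕ} (c : Ch B Γ A m) :
    (idf π).map A m c = c := by
  rw [GF.map_eq]
  exact Finsupp.mapDomain_id

lemma pp (hj' : ∀ n, π (j n) = 1) {m : ℕ} (x : Fin m → N) (k : Fin (m + 1)) :
    π (Fin.partialProd (fun i => j (x i)) k) = 1 := by
  induction k using Fin.induction with
  | zero => rw [Fin.partialProd_zero, map_one]
  | succ k ih => rw [Fin.partialProd_succ, map_mul, ih, hj', one_mul]

end

end Shap264

open Shap264 in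
theorem t_shap (h_map : S_map) (h_hmt : S_hmt) : S_shap := by
  intro N Γ B _ _ _ π j hπ hj hk A _ m
  obtain ⟨τ, hτ, hτ1⟩ := exists_section hπ
  obtain ⟨r, hr⟩ := exists_retr hj hk τ hτ
  have hj' : ∀ n, π (j n) = 1 := fun n => (hk _).2 ⟨n, rfl⟩
  -- the composite functor
  have hcomp : ∀ (k : ℕ) (c : Ch B Γ A k), (comp π τ hτ).map A k c = jm B j A k (r.map A k c) := by
    intro k c
    rw [jm_eq_map π j hj', GF.map_eq, GF.map_eq, GF.map_eq, ← Finsupp.mapDomain_comp]
    refine congrArg (fun f => Finsupp.mapDomain f c) (funext fun x => ?_)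
    refine Prod.ext rfl (funext fun i => ?_)
    exact (hr _ _).symm
  constructor
  · intro z hz
    refine ⟨r.map A m z, r.map_isC h_map hz, (nt π τ hτ).hmt A m z, ?_⟩
    have h := h_hmt B B Γ Γ (rt π) (rt π) (comp π τ hτ) (idf π) (nt π τ hτ) A
    cases m with
    | zero => rw [h.1, idf_map, hcomp]
    | succ m =>
      have h2 := h.2 m z
      have h3 : (rt π).bd A m z = 0 := hz
      rw [h3, map_zero, add_zero] at h2
      rw [h2, idf_map, hcomp]
  · intro z0 hz0
    have h1 := r.map_isB h_map hz0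
    have h2 : r.map A m (jm B j A m z0) = z0 := by
      rw [jm_eq_map π j hj', GF.map_eq, GF.map_eq, ← Finsupp.mapDomain_comp]
      have h3 : r.tup (m := m) ∘ (GF.jm π j hj').tup = id := by
        funext x
        refine Prod.ext rfl (funext fun i => ?_)
        apply hj
        change j (r.φ ((rt π).act 1 (Fin.partialProd (fun i => j (x.2 i)) i.castSucc))
          (j (x.2 i))) = j (x.2 i)
        have e1 : (rt π).act 1 (Fin.partialProd (fun i => j (x.2 i)) i.castSucc) = 1 := by
          change (1 : B) * π (Fin.partialProd (fun i => j (x.2 i)) i.castSucc) = 1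
          rw [pp hj', mul_one]
        rw [e1, hr, hj', mul_one, hτ1, inv_one, mul_one, one_mul]
      rw [h3]
      exact Finsupp.mapDomain_id
    rw [h2] at h1
    exact h1

end Pool.Agent.H316.TF
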