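import Pool.Agent.H316.TF.Stm2

/-!
# Project TF (helper316): shuffle chains (TF-09, TF-10, TF-19a), by helper94
-/

set_option autoImplicit false

namespace Pool.Agent.H316.TF

open Finsupp

namespace Shuf94

/-- the permutation with `σ j = 0` and `σ (j.succAbove i) = (e i).succ` -/
def mk {m : ℕ} (x : Fin (m + 1) × Equiv.Perm (Fin m)) : Equiv.Perm (Fin (m + 1)) :=
  Equiv.Perm.decomposeFin.symm (0, x.2) * Fin.cycleRange x.1

theorem mk_self {m : ℕ} (j : Fin (m + 1)) (e : Equiv.Perm (Fin m)) : mk (j, e) j = 0 := by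
  unfold mk
  rw [Equiv.Perm.mul_apply, Fin.cycleRange_self, Equiv.Perm.decomposeFin_symm_apply_zero]

theorem mk_succAbove {m : ℕ} (j : Fin (m + 1)) (e : Equiv.Perm (Fin m)) (i : Fin m) :
    mk (j, e) (j.succAbove i) = (e i).succ := by
  unfold mk
  rw [Equiv.Perm.mul_apply, Fin.cycleRange_succAbove, Equiv.Perm.decomposeFin_symm_apply_succ,
    Equiv.swap_self, Equiv.refl_apply]

theorem sign_mk {m : ℕ} (j : Fin (m + 1)) (e : Equiv.Perm (Fin m)) :
    (Equiv.Perm.sign (mk (j, e)) : ℤ) = (-1) ^ (j : ℕ) * (Equiv.Perm.sign e : ℤ) := by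
  unfold mk
  rw [Equiv.Perm.sign_mul, Equiv.Perm.decomposeFin.symm_sign, if_pos rfl, one_mul,
    Fin.sign_cycleRange]
  push_cast
  ring

theorem mk_injective {m : ℕ} : Function.Injective (mk (m := m)) := by
  rintro ⟨j, e⟩ ⟨j', e'⟩ h
  have h1 : j = j' := by
    apply (mk (j, e)).injective
    rw [mk_self, h, mk_self]
  subst h1
  have h2 : e = e' := by
    apply Equiv.ext
    intro i
    have h3 := mk_succAbove j e i
    rw [h, mk_succAbove] at h3
    exact (Fin.succ_injective _ h3).symm
  rw [h2]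

theorem mk_bijective {m : ℕ} : Function.Bijective (mk (m := m)) := by
  rw [Fintype.bijective_iff_injective_and_card]
  refine ⟨mk_injective, ?_⟩
  rw [Fintype.card_prod, Fintype.card_perm, Fintype.card_perm, Fintype.card_fin, Fintype.card_fin,
    Nat.factorial_succ]

theorem cons_comp_mk {G : Type} {m : ℕ} (t : G) (g : Fin m → G) (j : Fin (m + 1))
    (e : Equiv.Perm (Fin m)) :
    (Fin.cons (α := fun _ => G) t g) ∘ (mk (j, e)) =
      Fin.insertNth (α := fun _ => G) j t (g ∘ e) := by
  funext x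
  refine Fin.succAboveCases j ?_ ?_ x
  · rw [Function.comp_apply, mk_self, Fin.cons_zero, Fin.insertNth_apply_same]
  · intro i
    rw [Function.comp_apply, mk_succAbove, Fin.cons_succ, Fin.insertNth_apply_succAbove,
      Function.comp_apply]

end Shuf94

open Shuf94

theorem t_shuf : S_shuf := by
  intro G m t g
  have h1 : prod t ℤ m (sh g) = ∑ e : Equiv.Perm (Fin m), ∑ j : Fin (m + 1),
      ((-1 : ℤ) ^ (j : ℕ) * (Equiv.Perm.sign e : ℤ)) •
        Finsupp.single ((), Fin.insertNth (α := fun _ => G) j t (g ∘ e)) (1 : ℤ) := by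
    unfold prod sh
    rw [map_sum]
    refine Finset.sum_congr rfl fun e _ => ?_
    rw [map_zsmul, comb_single_one, Finset.smul_sum]
    refine Finset.sum_congr rfl fun j _ => ?_
    rw [smul_smul, mul_comm]
  rw [h1, Finset.sum_comm]
  unfold sh
  rw [← Fintype.sum_prod_type']
  refine Fintype.sum_bijective mk mk_bijective _ _ ?_
  rintro ⟨j, e⟩
  rw [sign_mk, cons_comp_mk]

theorem t_shalt : S_shalt := by
  intro G m g
  have key : ∀ (g : Fin m → G) (ρ : Equiv.Perm (Fin m)),
      sh (g ∘ ρ) = (Equiv.Perm.sign ρ : ℤ) • sh g := by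
    intro g ρ
    unfold sh
    rw [Finset.smul_sum]
    refine Eq.trans ?_ (Equiv.sum_comp (Equiv.mulLeft ρ) _)
    refine Finset.sum_congr rfl fun σ _ => ?_
    rw [smul_smul, Equiv.coe_mulLeft, Equiv.Perm.sign_mul, Units.val_mul, ← mul_assoc,
      ← Units.val_mul, ← sq, Int.units_sq, Units.val_one, one_mul]
    rfl
  refine ⟨key g, fun hg => ?_⟩
  unfold Function.Injective at hg
  push Not at hg
  obtain ⟨a, b, hab, hne⟩ := hg
  have h1 : g ∘ (Equiv.swap a b) = g := by
    funext x
    rw [Function.comp_apply, Equiv.swap_apply_def]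
    split_ifs with h h'
    · rw [h, hab]
    · rw [h', hab]
    · rfl
  have h2 := key g (Equiv.swap a b)
  rw [h1, Equiv.Perm.sign_swap hne] at h2
  ext x
  have h3 := DFunLike.congr_fun h2 x
  rw [Finsupp.smul_apply] at h3
  simp only [Units.val_neg, Units.val_one, smul_eq_mul, neg_mul, one_mul] at h3
  rw [Finsupp.zero_apply]
  omega

theorem t_shcyc (h_prod : S_prod) : S_shcyc := by
  intro G _ m
  induction m with
  | zero => exact fun _ => trivial
  | succ m ih =>
    intro g
    show (pt G).bd ℤ m (sh g) = 0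
    have h1 : g = Fin.cons (α := fun _ => G) (g 0) (Fin.tail g) := (Fin.cons_self_tail g).symm
    have h2 : sh g = prod (g 0) ℤ m (sh (Fin.tail g)) := by
      rw [t_shuf]
      exact congrArg sh h1
    rw [h2]
    have h3 := h_prod G (g 0) (fun x => mul_comm _ _) ℤ
    cases m with
    | zero => exact h3.1 _
    | succ m =>
      have h4 : (pt G).bd ℤ m (sh (Fin.tail g)) = 0 := ih (Fin.tail g)
      rw [h3.2, h4, map_zero, neg_zero]

end Pool.Agent.H316.TF
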