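import Pool.Agent.H316.TF.Defs

/-!
# Project TF (helper316, MP_3ab0ed_al): the statements of the subtasks
-/

set_option autoImplicit false

namespace Pool.Agent.H316.TF

open Finsupp

/-- TF-01: `∂∂ = 0`. -/
def S_dd : Prop := ∀ (S Γ : Type) [Group Γ] (R : RA S Γ) (A : Type) [AddCommGroup A] (m : ℕ)
    (c : Ch S Γ A (m + 2)), R.bd A m (R.bd A (m + 1) c) = 0

/-- TF-02: the map of a functor is a chain map. -/
def S_map : Prop := ∀ (S S' Γ Γ' : Type) [Group Γ] [Group Γ'] (R : RA S Γ) (R' : RA S' Γ')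
    (F : GF R R') (A : Type) [AddCommGroup A] (m : ℕ) (c : Ch S Γ A (m + 1)),
    R'.bd A m (F.map A (m + 1) c) = F.map A m (R.bd A m c)

/-- TF-03: the prism operator of a natural transformation is a chain homotopy. -/
def S_hmt : Prop := ∀ (S S' Γ Γ' : Type) [Group Γ] [Group Γ'] (R : RA S Γ) (R' : RA S' Γ')
    (F F' : GF R R') (t : NT F F') (A : Type) [AddCommGroup A],
    (∀ c : Ch S Γ A 0, R'.bd A 0 (t.hmt A 0 c) = F'.map A 0 c - F.map A 0 c) ∧
    ∀ (m : ℕ) (c : Ch S Γ A (m + 1)), R'.bd A (m + 1) (t.hmt A (m + 1) c) +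
      t.hmt A m (R.bd A m c) = F'.map A (m + 1) c - F.map A (m + 1) c

/-- TF-04: the operator of a crossed homomorphism anticommutes with the boundary. -/
def S_LD : Prop := ∀ (S Γ : Type) [Group Γ] (R : RA S Γ) (D : Γ → S →₀ ℤ), IsX R D →
    ∀ (A : Type) [AddCommGroup A] (m : ℕ) (c : Ch Unit Γ A (m + 2)),
    R.bd A m (LD D A (m + 1) c) = - LD D A m ((pt Γ).bd A (m + 1) c)

/-- TF-05: the boundary of the lift with base point `1`. -/
def S_Lam : Prop := ∀ (Γ B : Type) [Group Γ] [Group B] (π : Γ →* B) (A : Type) [AddCommGroup A]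
    (m : ℕ) (c : Ch Unit Γ A (m + 1)),
    (rt π).bd A m (Lam Γ B A (m + 1) c) = Lam Γ B A m ((pt Γ).bd A m c) + LD (D0 π) A m c

/-- TF-06: the lemma of Shapiro. -/
def S_shap : Prop := ∀ (N Γ B : Type) [Group N] [Group Γ] [Group B] (π : Γ →* B) (j : N →* Γ),
    Function.Surjective π → Function.Injective j → (∀ g, π g = 1 ↔ g ∈ j.range) →
    ∀ (A : Type) [AddCommGroup A] (m : ℕ),
    (∀ z : Ch B Γ A m, (rt π).IsC z →
      ∃ z0 : Ch Unit N A m, (pt N).IsC z0 ∧ (rt π).IsB (z - jm B j A m z0)) ∧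
    ∀ z0 : Ch Unit N A m, (rt π).IsB (jm B j A m z0) → (pt N).IsB z0

/-- TF-07: left multiplication by `π γ` corresponds to the conjugation by `γ`. -/
def S_conj : Prop := ∀ (N Γ B : Type) [Group N] [Group Γ] [Group B] (π : Γ →* B) (j : N →* Γ)
    (κ : N →* N) (γ : Γ), (∀ n, π (j n) = 1) → (∀ n, j (κ n) = γ * j n * γ⁻¹) →
    ∀ (A : Type) [AddCommGroup A] (m : ℕ) (z0 : Ch Unit N A m), (pt N).IsC z0 →
    (rt π).IsB (lm (π γ) Γ A m (jm B j A m z0) - jm B j A m (hm κ A m z0))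

/-- TF-08: the product with a central element anticommutes with the boundary. -/
def S_prod : Prop := ∀ (G : Type) [Group G] (t : G), (∀ g, t * g = g * t) →
    ∀ (A : Type) [AddCommGroup A],
    (∀ c : Ch Unit G A 0, (pt G).bd A 0 (prod t A 0 c) = 0) ∧
    ∀ (m : ℕ) (c : Ch Unit G A (m + 1)),
      (pt G).bd A (m + 1) (prod t A (m + 1) c) = - prod t A m ((pt G).bd A m c)

/-- TF-09: the product of a shuffle cycle with `t`. -/
def S_shuf : Prop := ∀ (G : Type) (m : ℕ) (t : G) (g : Fin m → G),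
    prod t ℤ m (sh g) = sh (Fin.cons (α := fun _ => G) t g)

/-- TF-10: the shuffle cycles are cycles (`G` is commutative). -/
def S_shcyc : Prop := ∀ (G : Type) [CommGroup G] (m : ℕ) (g : Fin m → G), (pt G).IsC (sh g)

/-- TF-11: a crossed homomorphism for a homomorphism onto the infinite cyclic group. -/
def S_foxZ : Prop := ∀ (G : Type) [Group G] (π : G →* Multiplicative ℤ) (t : G),
    π t = Multiplicative.ofAdd 1 →
    ∃ D : G → (Unit × Multiplicative ℤ) →₀ ℤ, Fox π (fun _ : Unit => t) D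

/-- TF-12: the homology of `G = G0 × ⟨t⟩`. -/
def S_G : Prop := ∀ (G G0 : Type) [Group G] [Group G0] (π : G →* Multiplicative ℤ) (t : G)
    (ι : G0 →* G), (∀ g, t * g = g * t) → π t = Multiplicative.ofAdd 1 → Function.Injective ι →
    (∀ g, π g = 1 ↔ g ∈ ι.range) → ∀ (A : Type) [AddCommGroup A] (m : ℕ)
    (z : Ch Unit G A (m + 1)), (pt G).IsC z →
    ∃ (z0 : Ch Unit G0 A (m + 1)) (z1 : Ch Unit G0 A m), (pt G0).IsC z0 ∧ (pt G0).IsC z1 ∧
      (pt G).IsB (z - hm ι A (m + 1) z0 - prod t A m (hm ι A m z1))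

/-- TF-13: the trivial group has no homology in positive degrees. -/
def S_triv : Prop := ∀ (G : Type) [Group G], Subsingleton G → Gen G ∅

/-- TF-14: the induction step for the generation of the homology by shuffle cycles. -/
def S_gstep : Prop := ∀ (G G0 : Type) [Group G] [Group G0] (π : G →* Multiplicative ℤ) (t : G)
    (ι : G0 →* G), (∀ g, t * g = g * t) → π t = Multiplicative.ofAdd 1 → Function.Injective ι →
    (∀ g, π g = 1 ↔ g ∈ ι.range) → ∀ C0 : Set G0, Gen G0 C0 → Gen G (insert t (ι '' C0))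

/-- TF-15: the homology of a free abelian group is generated by the shuffle cycles of the basis
elements. -/
def S_gFA : Prop := ∀ Ω : Type, Gen (FA Ω) (Set.range (be : Ω → FA Ω))

/-- TF-16: the product of coordinates is a cocycle. -/
def S_phi : Prop := ∀ (Ω : Type) (m : ℕ) (τ : Fin m → Ω) (A : Type) [AddCommGroup A]
    (c : Ch Unit (FA Ω) A (m + 1)), phi τ A ((pt (FA Ω)).bd A m c) = 0

/-- TF-17: the values of these cocycles on the shuffle cycles of the basis elements. -/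
def S_phish : Prop := ∀ (Ω : Type) (m : ℕ) (σ τ : Fin m → Ω), Function.Injective σ →
    (∀ ρ : Equiv.Perm (Fin m), τ = σ ∘ ρ →
      phi τ ℤ (sh fun i => be (σ i)) = (Equiv.Perm.sign ρ : ℤ)) ∧
    ((¬ ∃ ρ : Equiv.Perm (Fin m), τ = σ ∘ ρ) → phi τ ℤ (sh fun i => be (σ i)) = 0)

/-- TF-18: an invariant half of a set with a free involution which commutes with the action of a
group of odd exponent. -/
def S_half : Prop := ∀ (B S : Type) [Group B] [MulAction B S] (n : ℕ), Odd n →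
    (∀ b : B, b ^ n = 1) → ∀ s : S → S, (∀ x, s (s x) = x) → (∀ x, s x ≠ x) →
    (∀ (b : B) (x : S), s (b • x) = b • s x) →
    ∃ T : Set S, (∀ (b : B), ∀ x ∈ T, b • x ∈ T) ∧ (∀ x, x ∈ T ∨ s x ∈ T) ∧ ∀ x ∈ T, s x ∉ T

/-- TF-19: a permuted basis of the homology of a free abelian group with a permuted basis, for a
group of odd exponent. -/
def S_HW : Prop := ∀ (Ω B : Type) [Group B] [MulAction B Ω] (n : ℕ), Odd n →
    (∀ b : B, b ^ n = 1) → ∀ m : ℕ, Nonempty (HW Ω B (m + 1))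

/-- TF-20: a permuted basis of the homology of `Γ` with coefficients in `A[B]`. -/
def S_HB : Prop := ∀ (Ω Γ B : Type) [Group Γ] [Group B] [MulAction B Ω] (π : Γ →* B)
    (j : FA Ω →* Γ), Function.Surjective π → Function.Injective j →
    (∀ g, π g = 1 ↔ g ∈ j.range) →
    (∀ (g : Γ) (w : FA Ω), g * j w * g⁻¹ = j (fam (fun ω : Ω => π g • ω) w)) →
    ∀ m : ℕ, Nonempty (HW Ω B m) → Nonempty (HB π m)

/-- TF-21: cycles of the Schreier graph. -/
def S_sch : Prop := ∀ (I Γ B T : Type) [Group Γ] [Group B] [MulAction B T] (π : Γ →* B)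
    (y : I → Γ) (D : Γ → (I × B) →₀ ℤ), Fox π y D → Function.Surjective π →
    ∀ n : ℕ, (∀ b : B, b ^ n = 1) → ∀ (A : Type) [AddCommGroup A],
    (∀ a : A, ∃ a' : A, n • a' = a) → ∀ v : (I × T) →₀ A,
    Finsupp.mapDomain (fun s : I × T => π (y s.1) • s.2) v -
      Finsupp.mapDomain (fun s : I × T => s.2) v = 0 →
    v ∈ AddSubgroup.closure {u : (I × T) →₀ A | ∃ (ρ : Γ) (t : T) (a : A), π ρ = 1 ∧
      u = tens A (Finsupp.mapDomain (fun s : I × B => (s.1, s.2 • t)) (D ρ)) a}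

/-- TF-22: the map from the homology with coefficients `A[B]` to the homology with coefficients
`A` is onto if `A` is divisible by the exponent of `B`. -/
def S_lift : Prop := ∀ (I Γ B : Type) [Group Γ] [Group B] (π : Γ →* B) (y : I → Γ)
    (D : Γ → (I × B) →₀ ℤ), Fox π y D → Function.Surjective π →
    ∀ n : ℕ, (∀ b : B, b ^ n = 1) → ∀ (A : Type) [AddCommGroup A],
    (∀ a : A, ∃ a' : A, n • a' = a) → ∀ m : ℕ, HB π (m + 1) → ∀ c : Ch Unit Γ A (m + 2),
    (pt Γ).IsC c → ∃ c' : Ch B Γ A (m + 2), (rt π).IsC c' ∧ eps B Γ A (m + 2) c' = c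

/-- TF-23: the integral homology has no torsion. -/
def S_chase : Prop := ∀ (Γ B : Type) [Group Γ] [Group B] (π : Γ →* B) (m : ℕ), HB π (m + 1) →
    (∀ c : Ch Unit Γ (AddCircle (1 : ℚ)) (m + 2), (pt Γ).IsC c →
      ∃ c' : Ch B Γ (AddCircle (1 : ℚ)) (m + 2), (rt π).IsC c' ∧
        eps B Γ (AddCircle (1 : ℚ)) (m + 2) c' = c) →
    ∀ u : Ch Unit Γ ℤ (m + 1), (pt Γ).IsC u → ∀ k : ℕ, 0 < k → (pt Γ).IsB (k • u) →
    (pt Γ).IsB u

/-- the projection `F/[R,R] → F/R` -/
def pr {F : Type} [Group F] (R : Subgroup F) [R.Normal] : F ⧸ ⁅R, R⁆ →* F ⧸ R :=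
  QuotientGroup.lift ⁅R, R⁆ (QuotientGroup.mk' R) fun g hg =>
    (QuotientGroup.eq_one_iff g).2 (Subgroup.commutator_le_left R R hg)

/-- TF-24: the Fox derivatives on `F/[R,R]`. -/
def S_fox : Prop := ∀ (I : Type) (R : Subgroup (FreeGroup I)) [R.Normal],
    ∃ D : FreeGroup I ⧸ ⁅R, R⁆ → (I × (FreeGroup I ⧸ R)) →₀ ℤ,
      Fox (pr R) (fun i => ((FreeGroup.of i : FreeGroup I) : FreeGroup I ⧸ ⁅R, R⁆)) D

/-- TF-25: the bridge to the group homology of Mathlib. -/
def S_bridge : Prop := ∀ (Γ : Type) [Group Γ],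
    (∀ (m : ℕ) (u : Ch Unit Γ ℤ (m + 1)), (pt Γ).IsC u → ∀ k : ℕ, 0 < k →
      (pt Γ).IsB (k • u) → (pt Γ).IsB u) →
    ∀ n : ℕ, 1 ≤ n → ∀ (k : ℕ) (x : groupHomology (Rep.trivial ℤ Γ ℤ) n), 0 < k → k • x = 0 →
      x = 0

/-! ### The part on large exponents -/

/-- the normal subgroup generated by the `p`-th powers -/
def pw (G : Type) [Group G] (p : ℕ) : Subgroup G :=
  Subgroup.normalClosure (Set.range fun g : G => g ^ p)

instance pw_normal (G : Type) [Group G] (p : ℕ) : (pw G p).Normal :=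
  Subgroup.normalClosure_normal

/-- the tower of normal subgroups of the free group with union the subgroup of `p`-th powers -/
structure Tower (p : ℕ) (I : Type) where
  M : ℕ → Subgroup (FreeGroup I)
  hM : ∀ n, (M n).Normal
  M_zero : M 0 = ⊥
  ι : ℕ → Type
  x : ∀ n, ι n → FreeGroup I
  M_succ : ∀ n, M (n + 1) = M n ⊔ Subgroup.normalClosure (Set.range fun i => x n i ^ p)
  lift : ∀ (n : ℕ) (A : Type) [Group A] (φ : A →* FreeGroup I ⧸ M n), Function.Surjective φ →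
    ∀ r : ι n → A, (∀ i, φ (r i) = ((x n i : FreeGroup I) : FreeGroup I ⧸ M n) ^ p) →
    (∀ i b, φ b ∈ Subgroup.zpowers ((x n i : FreeGroup I) : FreeGroup I ⧸ M n) →
      b * r i = r i * b) →
    ∀ b ∈ Subgroup.normalClosure (Set.range r), φ b = 1 → b = 1
  union : ∀ g, g ∈ pw (FreeGroup I) p ↔ ∃ n, g ∈ M n

section TW

variable {p : ℕ} {I : Type} (t : Tower p I)

/-- the relators of all stages -/
abbrev Tower.J : Type := Σ n, t.ι n

/-- the elements `x j` -/
def Tower.y (j : t.J) : FreeGroup I := t.x j.1 j.2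

/-- the free Burnside group -/
abbrev Bu (p : ℕ) (I : Type) : Type := FreeGroup I ⧸ pw (FreeGroup I) p

/-- the basis of the relation module -/
abbrev Tower.Om : Type :=
  Σ j : t.J, (Bu p I) ⧸ (Subgroup.zpowers ((t.y j : FreeGroup I) : Bu p I))

/-- the base points of the basis -/
def Tower.bp (j : t.J) : t.Om := ⟨j, ((1 : Bu p I) : (Bu p I) ⧸ _)⟩

theorem Tower.y_mem (j : t.J) : t.y j ^ p ∈ pw (FreeGroup I) p :=
  Subgroup.subset_normalClosure ⟨t.y j, rfl⟩

end TW

/-- TF-31: the relation module maps to the permutation module. -/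
def S_theta : Prop := ∀ (p : ℕ) (I : Type) (t : Tower p I),
    ∃ θ : (pw (FreeGroup I) p) →* FA t.Om,
      (∀ j, θ ⟨t.y j ^ p, t.y_mem j⟩ = be (t.bp j)) ∧
      ∀ (g : FreeGroup I) (r : pw (FreeGroup I) p),
        θ ⟨g * r * g⁻¹, (pw_normal (FreeGroup I) p).conj_mem r r.2 g⟩ =
          fam (fun ω : t.Om => (g : Bu p I) • ω) (θ r)

/-- TF-32: the relation module is the permutation module. -/
def S_relmod : Prop := ∀ (p : ℕ) (I : Type) (t : Tower p I)
    (θ : (pw (FreeGroup I) p) →* FA t.Om),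
      (∀ j, θ ⟨t.y j ^ p, t.y_mem j⟩ = be (t.bp j)) →
      (∀ (g : FreeGroup I) (r : pw (FreeGroup I) p),
        θ ⟨g * r * g⁻¹, (pw_normal (FreeGroup I) p).conj_mem r r.2 g⟩ =
          fam (fun ω : t.Om => (g : Bu p I) • ω) (θ r)) →
    ∃ j : FA t.Om →* FreeGroup I ⧸ ⁅pw (FreeGroup I) p, pw (FreeGroup I) p⁆,
      Function.Injective j ∧ (∀ g, pr (pw (FreeGroup I) p) g = 1 ↔ g ∈ j.range) ∧
      ∀ (g : FreeGroup I ⧸ ⁅pw (FreeGroup I) p, pw (FreeGroup I) p⁆) (w : FA t.Om),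
        g * j w * g⁻¹ = j (fam (fun ω : t.Om => pr (pw (FreeGroup I) p) g • ω) w)

/-- the towers exist for all large primes, and the free Burnside groups are not abelian -/
def S_tower : Prop := ∃ p0 : ℕ, ∀ p : ℕ, p.Prime → p0 ≤ p →
    (∀ I : Type, Nonempty (Tower p I)) ∧
    ∃ a b : Bu p (Fin 2), a * b ≠ b * a

/-! ### Varieties -/

/-- the group `G` satisfies the laws `L` -/
def Sat (L : Set (FreeGroup ℕ)) (G : Type) [Group G] : Prop :=
  ∀ w ∈ L, ∀ f : FreeGroup ℕ →* G, f w = 1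

/-- the verbal subgroup -/
def verb (L : Set (FreeGroup ℕ)) (G : Type) [Group G] : Subgroup G :=
  Subgroup.closure {g | ∃ w ∈ L, ∃ f : FreeGroup ℕ →* G, f w = g}

instance verb_normal (L : Set (FreeGroup ℕ)) (G : Type) [Group G] : (verb L G).Normal := by
  constructor
  intro n hn g
  have h : (verb L G).map (MulAut.conj g).toMonoidHom ≤ verb L G := by
    unfold verb
    rw [MonoidHom.map_closure, Subgroup.closure_le]
    rintro _ ⟨_, ⟨w, hw, f, rfl⟩, rfl⟩
    exact Subgroup.subset_closure ⟨w, hw, (MulAut.conj g).toMonoidHom.comp f, rfl⟩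
  exact h ⟨n, hn, rfl⟩

/-- the free group of the variety given by the laws `L`, on the set `I` -/
abbrev RelFree (L : Set (FreeGroup ℕ)) (I : Type) : Type :=
  FreeGroup I ⧸ verb L (FreeGroup I)

/-- the law `[x^p, y^p] = 1` -/
def lawP (p : ℕ) : Set (FreeGroup ℕ) :=
  {FreeGroup.of 0 ^ p * FreeGroup.of 1 ^ p * (FreeGroup.of 0 ^ p)⁻¹ * (FreeGroup.of 1 ^ p)⁻¹}

/-- TF-33: the verbal subgroup of the law `[x^p, y^p] = 1`. -/
def S_verb : Prop := ∀ (p : ℕ) (G : Type) [Group G], verb (lawP p) G = ⁅pw G p, pw G p⁆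

/-- TF-34: the variety of the law `[x^p, y^p] = 1` is proper, and it contains the groups of exponent
`p`. -/
def S_proper : Prop := ∀ p : ℕ, 0 < p → (¬ Sat (lawP p) (FreeGroup (Fin 2))) ∧
    ∀ (G : Type) [Group G], (∀ g : G, g ^ p = 1) → Sat (lawP p) G

end Pool.Agent.H316.TF
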