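import Pool.Agent.H316.TF.StepG
import Pool.Agent.H316.TF.Stm
import Pool.Graph.R_seed8.TH54.BU.Iter

/-!
# The tower of the free Burnside groups with control of all lifts (helper316)

A variant of the iteration `Pool.Agent.TH54.BU.burnside` (library, helper54), based on `stepP`.
-/

set_option autoImplicit false

namespace Pool.Agent.H316.TF

open Pool.Agent.TH54.BU

section

variable (F0 : Type) [Group F0] (p K B T : ℕ)

/-- a stage of the construction -/
structure StgP where
  M : Subgroup F0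
  hM : M.Normal
  le : M ≤ pw F0 p
  tor : Tor (F0 ⧸ M) p
  H : GH (F0 ⧸ M)
  hD : H.D = 4
  stab : H.Stab T
  acy : H.Acy K B

variable {F0 p K B T}

instance (s : StgP F0 p K B T) : s.M.Normal := s.hM

/-- the length of an element at a stage -/
def StgP.ln (s : StgP F0 p K B T) (g : F0) : ℕ := s.H.len (g : F0 ⧸ s.M)

/-- the relation between successive stages -/
structure NxtP (s s' : StgP F0 p K B T) (ι : Type) (x : ι → F0) : Prop where
  eq : s'.M = s.M ⊔ Subgroup.normalClosure (Set.range fun i => x i ^ p)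
  lift : ∀ (A : Type) [Group A] (φ : A →* F0 ⧸ s.M), Function.Surjective φ → ∀ r : ι → A,
    (∀ i, φ (r i) = ((x i : F0) : F0 ⧸ s.M) ^ p) →
    (∀ i b, φ b ∈ Subgroup.zpowers ((x i : F0) : F0 ⧸ s.M) → b * r i = r i * b) →
    ∀ b ∈ Subgroup.normalClosure (Set.range r), φ b = 1 → b = 1
  len : ∀ g, s'.ln g ≤ (s.ln g + 1) / 2
  kill : ∀ g, s.ln g ≤ 1 → ∃ m : ℕ, 0 < m ∧ g ^ m ∈ s'.M

theorem exists_nextP
    (hstep : ∀ (G : Type) [Group G], Tor G p → ∀ H : GH G, H.D = 4 → H.Stab T → H.Acy K B →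
      ∃ (ι : Type) (x : ι → G) (M : Subgroup G) (_ : M.Normal), StepP p K B T H ι x M)
    (s : StgP F0 p K B T) : ∃ (s' : StgP F0 p K B T) (ι : Type) (x : ι → F0), NxtP s s' ι x := by
  have hMn := s.hM
  obtain ⟨ι, x, M1, hM1, S⟩ := hstep (F0 ⧸ s.M) s.tor s.H s.hD s.stab s.acy
  obtain ⟨F, hFD, hFS, hFA, hFlen⟩ := S.len
  choose y hy using fun i => QuotientGroup.mk_surjective (s := s.M) (x i)
  -- the new subgroup
  let M' : Subgroup F0 := M1.comap (QuotientGroup.mk' s.M)
  have hM'n : M'.Normal := hM1.comap _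
  have memM : ∀ g : F0, g ∈ M' ↔ (g : F0 ⧸ s.M) ∈ M1 := fun g => Iff.rfl
  let ψ : F0 →* (F0 ⧸ s.M) ⧸ M1 := (QuotientGroup.mk' M1).comp (QuotientGroup.mk' s.M)
  have hψker : ∀ g, ψ g = 1 ↔ g ∈ M' := by
    intro g
    show (((g : F0 ⧸ s.M) : (F0 ⧸ s.M)) : (F0 ⧸ s.M) ⧸ M1) = 1 ↔ _
    rw [QuotientGroup.eq_one_iff, memM]
  let e0 : F0 ⧸ M' →* (F0 ⧸ s.M) ⧸ M1 := QuotientGroup.lift M' ψ (fun g hg => (hψker g).2 hg)
  have he0 : Function.Bijective e0 := by
    constructor
    · rw [injective_iff_map_eq_one]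
      intro g hg
      obtain ⟨g, rfl⟩ := QuotientGroup.mk_surjective g
      exact (QuotientGroup.eq_one_iff _).2 ((hψker g).1 hg)
    · intro g
      obtain ⟨g, rfl⟩ := QuotientGroup.mk_surjective g
      obtain ⟨g, rfl⟩ := QuotientGroup.mk_surjective g
      exact ⟨(g : F0 ⧸ M'), rfl⟩
  let e : F0 ⧸ M' ≃* (F0 ⧸ s.M) ⧸ M1 := MulEquiv.ofBijective e0 he0
  have finM : ∀ g : F0, (∃ m : ℕ, 0 < m ∧ g ^ m ∈ M') ↔
      IsOfFinOrder ((g : F0 ⧸ s.M) : (F0 ⧸ s.M) ⧸ M1) := by
    intro g
    rw [fin_mk]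
    constructor
    · rintro ⟨m, hm, h⟩
      exact ⟨m, hm, by rw [← QuotientGroup.mk_pow]; exact h⟩
    · rintro ⟨m, hm, h⟩
      refine ⟨m, hm, ?_⟩
      rw [memM, QuotientGroup.mk_pow]
      exact h
  have hset : (QuotientGroup.mk' s.M : F0 →* F0 ⧸ s.M) '' (Set.range fun i => y i ^ p) =
      Set.range fun i => x i ^ p := by
    rw [← Set.range_comp]
    congr 1
    funext i
    show ((y i ^ p : F0) : F0 ⧸ s.M) = x i ^ p
    rw [QuotientGroup.mk_pow, hy]
  have hmapy : (Subgroup.normalClosure (Set.range fun i => y i ^ p)).map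
      (QuotientGroup.mk' s.M) = M1 := by
    rw [Subgroup.map_normalClosure _ _ (QuotientGroup.mk'_surjective s.M), hset, S.eq]
  have heq : M' = s.M ⊔ Subgroup.normalClosure (Set.range fun i => y i ^ p) := by
    show M1.comap (QuotientGroup.mk' s.M) = _
    rw [← hmapy, Subgroup.comap_map_eq, QuotientGroup.ker_mk', sup_comm]
  have hle : M' ≤ pw F0 p := by
    rw [heq]
    refine sup_le s.le ?_
    unfold pw
    apply Subgroup.normalClosure_mono
    rintro _ ⟨i, rfl⟩
    exact ⟨y i, rfl⟩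
  have htor : Tor (F0 ⧸ M') p := by
    intro q hq
    have h1 : IsOfFinOrder (e q) := (isOfFinOrder_equiv e q).2 hq
    have h2 := S.tor _ h1
    rw [← map_pow] at h2
    exact (map_eq_one_iff e e.injective).1 h2
  refine ⟨⟨M', hM'n, hle, htor, F.comapE e, hFD, F.comapE_stab e hFS, F.comapE_acy e hFA⟩,
    ι, y, ?_⟩
  refine ⟨heq, ?_, ?_, ?_⟩
  · intro A _ φ hφ r hr hc
    refine S.lift A φ hφ r ?_ ?_
    · intro i
      rw [hr, hy]
    · intro i b hb
      rw [← hy i] at hb
      exact hc i b hb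
  · intro g
    exact hFlen (g : F0 ⧸ s.M)
  · intro g h1
    exact (finM g).2 (S.kill (g : F0 ⧸ s.M) h1)

end

theorem t_tower : S_tower := by
  obtain ⟨K, B, T, hK, hB, hT, p0, hstep⟩ := stepP
  obtain ⟨p1, hburn⟩ := burnside
  refine ⟨max p0 p1, fun p hp hpp => ⟨?_, ?_⟩⟩
  · intro I
    have hst := hstep p hp ((le_max_left _ _).trans hpp)
    let F0 := FreeGroup I
    obtain ⟨H0, hD0, hS0, hA0, -⟩ := base I
    have htf : ∀ g : F0, ∀ m : ℕ, 0 < m → g ^ m = 1 → g = 1 := by
      intro g m hm h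
      have h1 : g ^ m = 1 ^ m := by rw [h, one_pow]
      exact pow_left_injective hm.ne' h1
    -- the first stage
    let e0 : F0 ⧸ (⊥ : Subgroup F0) ≃* F0 := QuotientGroup.quotientBot
    let s0 : StgP F0 p K B T :=
      { M := ⊥
        hM := inferInstance
        le := bot_le
        tor := by
          intro q hq
          have h1 : IsOfFinOrder (e0 q) := (isOfFinOrder_equiv e0 q).2 hq
          obtain ⟨m, hm, h2⟩ := isOfFinOrder_iff_pow_eq_one.1 h1
          have h3 : q = 1 := (map_eq_one_iff e0 e0.injective).1 (htf _ m hm h2)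
          rw [h3, one_pow]
        H := H0.comapE e0
        hD := hD0
        stab := by
          intro g hg m
          have := H0.comapE_stab e0 hS0 g hg m
          calc m ≤ 1 * (H0.comapE e0).len (g ^ m) := this
            _ ≤ T * (H0.comapE e0).len (g ^ m) := Nat.mul_le_mul_right _ hT
        acy := H0.comapE_acy e0 (hA0 K B hB) }
    have hnext := fun s : StgP F0 p K B T => exists_nextP hst s
    choose nx ix xx hnx using hnext
    let s : ℕ → StgP F0 p K B T := fun n => nx^[n] s0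
    have hsucc : ∀ n, s (n + 1) = nx (s n) := fun n => Function.iterate_succ_apply' nx n s0
    have hs : ∀ n, NxtP (s n) (s (n + 1)) (ix (s n)) (xx (s n)) := by
      intro n
      rw [hsucc]
      exact hnx _
    have hMmono : Monotone fun n => (s n).M := monotone_nat_of_le_succ fun n => by
      rw [(hs n).eq]
      exact le_sup_left
    -- lengths decrease
    have hdec : ∀ g : F0, ∀ k n : ℕ, (s n).ln g ≤ k + 1 → ∃ n', (s n').ln g ≤ 1 := by
      intro g k
      induction k with
      | zero => exact fun n h => ⟨n, h⟩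
      | succ k ih =>
        intro n h
        have := (hs n).len g
        exact ih (n + 1) (by omega)
    have htors : ∀ g : F0, ∃ n, ∃ m : ℕ, 0 < m ∧ g ^ m ∈ (s n).M := by
      intro g
      obtain ⟨n, hn⟩ := hdec g ((s 0).ln g) 0 (by omega)
      exact ⟨n + 1, (hs n).kill g hn⟩
    have hpow : ∀ g : F0, ∃ n, g ^ p ∈ (s n).M := by
      intro g
      obtain ⟨n, hn⟩ := htors g
      refine ⟨n, ?_⟩
      have h1 := (s n).tor (g : F0 ⧸ (s n).M) ((fin_mk _ g).2 hn)
      rw [← QuotientGroup.mk_pow, QuotientGroup.eq_one_iff] at h1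
      exact h1
    let Minf : Subgroup F0 := ⨆ n, (s n).M
    have memM : ∀ g : F0, g ∈ Minf ↔ ∃ n, g ∈ (s n).M := fun g =>
      Subgroup.mem_iSup_of_directed hMmono.directed_le
    have hMn : Minf.Normal := by
      constructor
      intro a ha g
      obtain ⟨n, hn⟩ := (memM a).1 ha
      exact (memM _).2 ⟨n, (s n).hM.conj_mem a hn g⟩
    have hMinf : Minf = pw F0 p := by
      apply le_antisymm
      · exact iSup_le fun n => (s n).le
      · unfold pw
        apply Subgroup.normalClosure_le_normal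
        rintro _ ⟨g, rfl⟩
        exact (memM _).2 (hpow g)
    exact ⟨
      { M := fun n => (s n).M
        hM := fun n => (s n).hM
        M_zero := rfl
        ι := fun n => ix (s n)
        x := fun n => xx (s n)
        M_succ := fun n => (hs n).eq
        lift := fun n => (hs n).lift
        union := fun g => by rw [← hMinf, memM] }⟩
  · obtain ⟨A, _, z, φ, -, -, -, -, -, hc⟩ := hburn p hp ((le_max_right _ _).trans hpp) (Fin 2)
    exact ⟨_, _, hc 0 1 (by decide)⟩

end Pool.Agent.H316.TF
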