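import Pool.Agent.H316.TF.Stm

set_option autoImplicit false

namespace Pool.Agent.H316.TF

open Finsupp
open scoped commutatorElement

namespace TFverb

variable {G : Type} [Group G] (p : ℕ)

theorem pw_le (K : Subgroup G) (hK : ∀ g, g ^ p ∈ K) : pw G p ≤ K := by
  unfold pw Subgroup.normalClosure
  rw [Subgroup.closure_le]
  intro x hx
  obtain ⟨a, ⟨g, rfl⟩, hc⟩ := Group.mem_conjugatesOfSet_iff.1 hx
  obtain ⟨c, rfl⟩ := isConj_iff.1 hc
  show c * g ^ p * c⁻¹ ∈ K
  rw [← conj_pow]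
  exact hK _

theorem law_mem (a b : G) : a ^ p * b ^ p * (a ^ p)⁻¹ * (b ^ p)⁻¹ ∈ verb (lawP p) G := by
  refine Subgroup.subset_closure ⟨_, rfl, FreeGroup.lift (fun n : ℕ => if n = 0 then a else b), ?_⟩
  simp

theorem law_comm (a b : G) : QuotientGroup.mk' (verb (lawP p) G) (a ^ p) *
    QuotientGroup.mk' (verb (lawP p) G) (b ^ p) = QuotientGroup.mk' (verb (lawP p) G) (b ^ p) *
    QuotientGroup.mk' (verb (lawP p) G) (a ^ p) := by
  have h := (QuotientGroup.eq_one_iff _).2 (law_mem p a b)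
  have h2 : QuotientGroup.mk' (verb (lawP p) G) (a ^ p) *
    QuotientGroup.mk' (verb (lawP p) G) (b ^ p) * (QuotientGroup.mk' (verb (lawP p) G) (a ^ p))⁻¹ *
    (QuotientGroup.mk' (verb (lawP p) G) (b ^ p))⁻¹ = 1 := by
    rw [← map_inv, ← map_inv, ← map_mul, ← map_mul, ← map_mul]
    exact h
  rw [mul_inv_eq_one, mul_inv_eq_iff_eq_mul] at h2
  exact h2

theorem pw_comm (x y : G) (hx : x ∈ pw G p) (hy : y ∈ pw G p) :
    QuotientGroup.mk' (verb (lawP p) G) x * QuotientGroup.mk' (verb (lawP p) G) y =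
      QuotientGroup.mk' (verb (lawP p) G) y * QuotientGroup.mk' (verb (lawP p) G) x := by
  have h1 : ∀ b : G, ∀ x ∈ pw G p, QuotientGroup.mk' (verb (lawP p) G) (b ^ p) *
      QuotientGroup.mk' (verb (lawP p) G) x = QuotientGroup.mk' (verb (lawP p) G) x *
      QuotientGroup.mk' (verb (lawP p) G) (b ^ p) := by
    intro b x hx
    have h2 := pw_le p ((Subgroup.centralizer {QuotientGroup.mk' (verb (lawP p) G) (b ^ p)}).comap
      (QuotientGroup.mk' (verb (lawP p) G))) (fun a => by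
        rw [Subgroup.mem_comap, Subgroup.mem_centralizer_iff]
        intro h hh
        rw [Set.mem_singleton_iff.1 hh]
        exact law_comm p b a) hx
    rw [Subgroup.mem_comap, Subgroup.mem_centralizer_iff] at h2
    exact h2 _ rfl
  have h3 := pw_le p ((Subgroup.centralizer {QuotientGroup.mk' (verb (lawP p) G) x}).comap
      (QuotientGroup.mk' (verb (lawP p) G))) (fun a => by
        rw [Subgroup.mem_comap, Subgroup.mem_centralizer_iff]
        intro h hh
        rw [Set.mem_singleton_iff.1 hh]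
        exact (h1 a x hx).symm) hy
  rw [Subgroup.mem_comap, Subgroup.mem_centralizer_iff] at h3
  exact h3 _ rfl

theorem up_pow (k : ℕ) : (!![1, 1; 0, 1] : Matrix (Fin 2) (Fin 2) ℤ) ^ k = !![1, (k : ℤ); 0, 1] := by
  induction k with
  | zero => simp [Matrix.one_fin_two]
  | succ k ih => rw [pow_succ, ih, Matrix.mul_fin_two]; simp [add_comm]

theorem lo_pow (k : ℕ) : (!![1, 0; 1, 1] : Matrix (Fin 2) (Fin 2) ℤ) ^ k = !![1, 0; (k : ℤ), 1] := by
  induction k with
  | zero => simp [Matrix.one_fin_two]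
  | succ k ih => rw [pow_succ, ih, Matrix.mul_fin_two]; simp [add_comm]

end TFverb

theorem t_verb : S_verb := by
  intro p G _
  apply le_antisymm
  · unfold verb
    rw [Subgroup.closure_le]
    rintro g ⟨w, hw, f, rfl⟩
    rw [Set.mem_singleton_iff.1 hw]
    have h0 : f (FreeGroup.of 0) ^ p ∈ pw G p :=
      Subgroup.subset_normalClosure ⟨f (FreeGroup.of 0), rfl⟩
    have h1 : f (FreeGroup.of 1) ^ p ∈ pw G p :=
      Subgroup.subset_normalClosure ⟨f (FreeGroup.of 1), rfl⟩
    have h : ⁅f (FreeGroup.of 0) ^ p, f (FreeGroup.of 1) ^ p⁆ ∈ ⁅pw G p, pw G p⁆ :=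
      Subgroup.commutator_mem_commutator h0 h1
    rw [commutatorElement_def] at h
    rw [map_mul, map_mul, map_mul, map_inv, map_inv, map_pow, map_pow]
    exact h
  · rw [Subgroup.commutator_le]
    intro x hx y hy
    have h := TFverb.pw_comm p x y hx hy
    have h2 : QuotientGroup.mk' (verb (lawP p) G) ⁅x, y⁆ = 1 := by
      rw [commutatorElement_def, map_mul, map_mul, map_mul, map_inv, map_inv, h]
      group
    exact (QuotientGroup.eq_one_iff _).1 h2

theorem t_proper : S_proper := by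
  intro p hp
  constructor
  · intro h
    have h1 := h _ rfl (FreeGroup.lift (fun n : ℕ => if n = 0 then FreeGroup.of (0 : Fin 2)
      else FreeGroup.of (1 : Fin 2)))
    obtain ⟨a, ha⟩ : ∃ a : Matrix.SpecialLinearGroup (Fin 2) ℤ, (a : Matrix (Fin 2) (Fin 2) ℤ) =
      !![1, 1; 0, 1] := ⟨⟨!![1, 1; 0, 1], by simp [Matrix.det_fin_two]⟩, rfl⟩
    obtain ⟨b, hb⟩ : ∃ a : Matrix.SpecialLinearGroup (Fin 2) ℤ, (a : Matrix (Fin 2) (Fin 2) ℤ) =
      !![1, 0; 1, 1] := ⟨⟨!![1, 0; 1, 1], by simp [Matrix.det_fin_two]⟩, rfl⟩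
    have h2 := congrArg (FreeGroup.lift (fun i : Fin 2 => if i = 0 then a else b)) h1
    simp only [map_mul, map_inv, map_pow, FreeGroup.lift_apply_of, if_true, one_ne_zero,
      if_false, map_one] at h2
    rw [mul_inv_eq_one, mul_inv_eq_iff_eq_mul] at h2
    have h3 := congrArg (fun x : Matrix.SpecialLinearGroup (Fin 2) ℤ =>
      (x : Matrix (Fin 2) (Fin 2) ℤ) 0 0) h2
    simp only [Matrix.SpecialLinearGroup.coe_mul, Matrix.SpecialLinearGroup.coe_pow, ha, hb,
      TFverb.up_pow, TFverb.lo_pow, Matrix.mul_fin_two] at h3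
    simp at h3
    omega
  · intro G _ hG w hw f
    rw [Set.mem_singleton_iff.1 hw]
    simp only [map_mul, map_inv, map_pow, hG]
    simp

end Pool.Agent.H316.TF
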