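import Pool.Agent.H316.TF.Asm
import Pool.Agent.H316.TF.Dd
import Pool.Agent.H316.TF.Map
import Pool.Agent.H316.TF.Hmt
import Pool.Agent.H316.TF.LDLam
import Pool.Agent.H316.TF.Shap
import Pool.Agent.H316.TF.ConjProd
import Pool.Agent.H316.TF.Shuf
import Pool.Agent.H316.TF.Fox
import Pool.Agent.H316.TF.GG
import Pool.Agent.H316.TF.Gn
import Pool.Agent.H316.TF.GFA
import Pool.Agent.H316.TF.Phi
import Pool.Agent.H316.TF.HW
import Pool.Agent.H316.TF.HB
import Pool.Agent.H316.TF.Sch
import Pool.Agent.H316.TF.Copies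
import Pool.Agent.H316.TF.Lift
import Pool.Agent.H316.TF.Chase
import Pool.Agent.H316.TF.Bridge
import Pool.Agent.H316.TF.Relmod
import Pool.Agent.H316.TF.Verb
import Pool.Agent.H316.TF.TowerG

/-!
# Project TF: everything together
-/

set_option autoImplicit false

namespace Pool.Agent.H316.TF

theorem all_HW : S_HW := by
  have h_shap : S_shap := t_shap t_map t_hmt
  have h_prod : S_prod := t_prod t_hmt
  have h_G : S_G := t_G t_dd t_map t_hmt t_LD t_Lam h_shap t_foxZ
  have h_gstep : S_gstep := t_gstep t_map h_G h_prod t_shuf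
  have h_gFA : S_gFA := t_gFA t_map t_triv h_gstep
  exact t_HW t_map (t_shcyc h_prod) t_shalt h_gFA t_phi t_phish t_half

theorem all_HB : S_HB := t_HB t_map (t_shap t_map t_hmt) (t_conj t_map t_hmt)

theorem all_lift : S_lift :=
  t_lift t_map t_LD t_Lam t_sch (t_copies t_map) (t_rel t_map) (t_kill t_map)

theorem final0 (h_theta : S_theta) : ∃ p0 : ℕ, ∀ p : ℕ, p.Prime → p0 ≤ p →
      (¬ Sat (lawP p) (FreeGroup (Fin 2))) ∧
      (∃ (G : Type) (_ : Group G), Sat (lawP p) G ∧ ∃ a b : G, a * b ≠ b * a) ∧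
      ∀ (I : Type) (n : ℕ), 1 ≤ n → ∀ (k : ℕ)
        (x : groupHomology (Rep.trivial ℤ (RelFree (lawP p) I) ℤ) n), 0 < k → k • x = 0 →
        x = 0 :=
  main all_HW all_HB all_lift (t_chase t_dd t_map) t_bridge t_fox h_theta t_relmod t_tower t_verb
    t_proper

end Pool.Agent.H316.TF
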