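import Pool.Graph.R_seed8.TH54.BU.Step

/-!
# One step of the construction of the free Burnside groups, with control of all lifts (helper316)

This is a variant of `Pool.Agent.TH54.BU.step` (library, helper54): the statement speaks about the
group `G` alone, and it records that for every extension `A → G` in which the relators have
commuting lifts the normal closure of the lifts meets the kernel trivially.
-/

set_option autoImplicit false

namespace Pool.Agent.H316.TF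

open Pool.Agent.TH54.BU

/-- the conclusion of one step -/
structure StepP {G : Type} [Group G] (p K B T : ℕ) (H : GH G) (ι : Type) (x : ι → G)
    (M : Subgroup G) [M.Normal] : Prop where
  eq : M = Subgroup.normalClosure (Set.range fun i => x i ^ p)
  lift : ∀ (A : Type) [Group A] (φ : A →* G), Function.Surjective φ → ∀ r : ι → A,
    (∀ i, φ (r i) = x i ^ p) → (∀ i b, φ b ∈ Subgroup.zpowers (x i) → b * r i = r i * b) →
    ∀ b ∈ Subgroup.normalClosure (Set.range r), φ b = 1 → b = 1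
  tor : Tor (G ⧸ M) p
  len : ∃ F : GH (G ⧸ M), F.D = 4 ∧ F.Stab T ∧ F.Acy K B ∧
    ∀ g : G, F.len (g : G ⧸ M) ≤ (H.len g + 1) / 2
  small : ∀ g : G, H.len g ≤ 4 → g ∈ M → g = 1
  kill : ∀ g : G, H.len g ≤ 1 → IsOfFinOrder (g : G ⧸ M)

theorem stepP : ∃ K B T : ℕ, 500 ≤ K ∧ 8 * K + 20 ≤ B ∧ 1 ≤ T ∧ ∃ p0 : ℕ, ∀ p : ℕ, p.Prime →
    p0 ≤ p → ∀ (G : Type) [Group G], Tor G p →
    ∀ H : GH G, H.D = 4 → H.Stab T → H.Acy K B →
    ∃ (ι : Type) (x : ι → G) (M : Subgroup G) (_ : M.Normal), StepP p K B T H ι x M := by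
  obtain ⟨De, hDe⟩ := exists_cone 4 3250
  obtain ⟨QD, hQD⟩ : ∃ x, x = 2 * De + 2 := ⟨_, rfl⟩
  obtain ⟨Nb, hNb⟩ : ∃ x, x = (2 * (101 * QD + 100) + 3) ^ 2 := ⟨_, rfl⟩
  obtain ⟨B, hB⟩ : ∃ x, x = 8 * (Nb + 3) * 500 + 2 := ⟨_, rfl⟩
  obtain ⟨θ, hθ⟩ : ∃ x, x = B + 200 * (220 + 3250 + 4 + 1) := ⟨_, rfl⟩
  obtain ⟨Θ, hΘ⟩ := hDe θ
  obtain ⟨Cm, hCm⟩ := mixQ 4 3250 θ Θ De B
  obtain ⟨Te, hTe⟩ : ∃ x, x = 2 * (θ + 2 * Θ + 100 * (4 + 3250 + 1) + 2) := ⟨_, rfl⟩
  obtain ⟨κ, hκ1, hκ2⟩ := exists_kappa Cm (QD + 2) (100 * QD + 100) Te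
  obtain ⟨T, hT⟩ : ∃ x, x = κ * Te := ⟨_, rfl⟩
  rw [← hT] at hκ2
  have hκ : 2 ≤ κ := by omega
  have hT1 : 1 ≤ T := by
    rw [hT]
    exact Nat.mul_pos (by omega) (by omega)
  obtain ⟨n0, hn0⟩ := hCm T
  obtain ⟨th, hth⟩ : ∃ x, x = T * (2 * 3250 + θ + 1) := ⟨_, rfl⟩
  obtain ⟨p0, hp0⟩ : ∃ x, x = n0 + (40 * th + 1) + (24 * th + T * (2 * 3250 + 1) +
    4 * (T * Θ + 1)) + (4 * T * (1000 * (4 + 3250 + θ + 1)) + 4 * T * Θ + 48 * th + 4) +
    T * (4 + 3250) + 3 := ⟨_, rfl⟩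
  refine ⟨500, B, T, le_rfl, ?_, hT1, p0, ?_⟩
  · omega
  intro p hp hpp G _ htor H hD hS hA
  have hp3 : 3 ≤ p := by omega
  have hodd : Odd p := hp.odd_of_ne_two (by omega)
  have hK : 100 * H.D + 100 ≤ 500 := by rw [hD]
  obtain ⟨L, hprim, hxlen, hshort⟩ := exists_LS' H hK hS hA hodd htor 220 3250 θ
    (by rw [hD]) (by rw [hD, hθ])
  have hthr : L.thr = th := hth.symm
  set M := Subgroup.normalClosure (Set.range fun i => L.x i ^ p) with hM
  have hMn : M.Normal := Subgroup.normalClosure_normal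
  have hn1 : 40 * L.thr + 1 ≤ p := by rw [hthr]; omega
  have F : L.Fil p M := L.fil hn1
  have hxM : ∀ i, L.x i ^ p ∈ M := fun i => Subgroup.subset_normalClosure ⟨i, rfl⟩
  obtain ⟨E, hED, hcone⟩ := hΘ G H T L (by rw [hD])
  obtain ⟨Q, hQD', hQ1, hQ2⟩ := L.exists_quo F hcone hT1 (by rw [hthr]; omega)
  have hQDQ : Q.D = QD := by rw [hQD', hED, hQD]
  have S : Setup L 500 B p 220 Θ p E M Q :=
    { hK := hK, stab := hS, hT := hT1, acy := hA, odd := hodd, tor := htor, prim := hprim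
      xlen := hxlen, hL1 := by omega, short := hshort, fil := F, cone := hcone
      le := hQ1, lift := hQ2, hQD := hQD' }
  obtain ⟨hQS, hQT⟩ := S.stab_tor (by rw [hthr, hD]; omega)
  have htorQ : Tor (G ⧸ M) p := by
    intro q hq
    obtain ⟨g, rfl, hg2⟩ := hQT _ hq
    rw [← QuotientGroup.mk_pow, QuotientGroup.eq_one_iff]
    rcases hg2 with hg2 | ⟨i, u, k, hk⟩
    · rw [htor g hg2]
      exact M.one_mem
    · rw [hk, conj_pow, ← zpow_natCast, ← zpow_mul, mul_comm, zpow_mul, zpow_natCast]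
      exact hMn.conj_mem _ (M.zpow_mem (hxM i) k) u
  have hmix := hn0 G H L 500 p 220 E M Q (by rw [hD]) (by rw [hED]) hp (by omega) htorQ S
  rw [hQDQ, ← hNb] at hmix
  have hacyQ := Q.mixA (by rw [hQDQ]) hQS hmix (κ * 500)
  obtain ⟨F', hF'D, hF'⟩ := rescale Q (κ := κ) (by omega) (by rw [hQDQ]; omega)
  have hceil : ∀ q, Q.len q ≤ κ * F'.len q := by
    intro q
    rw [hF']
    have := Nat.div_add_mod (Q.len q + κ - 1) κ
    have h2 := Nat.mod_lt (Q.len q + κ - 1) (show 0 < κ by omega)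
    omega
  refine ⟨L.ι, L.x, M, hMn, ?_⟩
  refine
    { eq := hM
      lift := ?_
      tor := htorQ
      len := ⟨F', hF'D, ?_, ?_, ?_⟩
      small := ?_
      kill := ?_ }
  · intro A _ φ hφ r hφr hrc b hb hb1
    by_contra hne
    obtain ⟨i, u, hiu⟩ := L.gr_ext φ hφ hn1 r hφr hrc hb hne 1
    rw [hb1, mul_one, L.s_self, abs_zero, hthr] at hiu
    omega
  · intro q hq m
    have h1 := hQS q hq m
    have h2 : 2 * (θ + 2 * Θ + 100 * (H.D + 3250 + 1) + 2) = Te := by rw [hD, hTe]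
    rw [h2] at h1
    calc m ≤ Te * Q.len (q ^ m) := h1
      _ ≤ Te * (κ * F'.len (q ^ m)) := Nat.mul_le_mul_left _ (hceil _)
      _ = T * F'.len (q ^ m) := by rw [hT]; ring
  · intro q hq g hg
    have hq1 : κ * (B - 1) + 1 ≤ Q.len q := by
      rw [hF'] at hq
      by_contra hcon
      push Not at hcon
      have h1 : (Q.len q + κ - 1) / κ ≤ B - 1 := by
        rw [← Nat.lt_succ_iff, Nat.div_lt_iff_lt_mul (by omega)]
        have : κ * (B - 1) = (B - 1) * κ := Nat.mul_comm _ _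
        rw [Nat.succ_mul]
        omega
      omega
    have hB1 : B - 1 = 8 * (Nb + 3) * 500 + 1 := by omega
    have e1 : κ * (B - 1) = 8 * (Nb + 3) * (κ * 500) + κ := by rw [hB1]; ring
    have hsd : ∀ g, g ∈ F'.SD 500 q → g ∈ Q.SD (κ * 500) q := by
      rintro g ⟨g1, g2⟩
      exact ⟨(hceil g).trans (Nat.mul_le_mul_left _ g1),
        (hceil _).trans (Nat.mul_le_mul_left _ g2)⟩
    obtain ⟨a1, a2⟩ := hacyQ q (by rw [hQDQ]; omega) g (hsd g hg)
    exact ⟨a1, fun h hh => a2 h (hsd h hh)⟩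
  · intro g
    rw [hF']
    have h1 := hQ1 g
    have h2 := hcone.le g
    have h3 : Q.len (g : G ⧸ M) ≤ H.len g := h1.trans h2
    rw [← Nat.lt_succ_iff, Nat.div_lt_iff_lt_mul (by omega)]
    have h4 : ((H.len g + 1) / 2 + 1) * 2 ≤ ((H.len g + 1) / 2).succ * κ :=
      Nat.mul_le_mul_left _ hκ
    have h5 : ((H.len g + 1) / 2).succ * κ = (H.len g + 1) / 2 * κ + κ := Nat.succ_mul _ _
    have h6 : (H.len g + 1) / 2 * 2 ≤ (H.len g + 1) / 2 * κ := Nat.mul_le_mul_left _ hκ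
    omega
  · intro g hg hgM
    by_contra hne
    obtain ⟨i, u, hiu⟩ := F.gr g hgM hne 1
    have h1 := L.s_le i u 1 (g * 1)
    rw [mul_one] at h1 hiu
    rw [H.d_one] at h1
    have h2 : T * (H.len g + 3250) ≤ T * (4 + 3250) := Nat.mul_le_mul_left _ (by omega)
    rw [hthr] at hiu
    have h3 : (p : ℤ) ≤ ((T * (4 + 3250) : ℕ) : ℤ) + 12 * th := by
      have : ((T * (H.len g + 3250) : ℕ) : ℤ) ≤ ((T * (4 + 3250) : ℕ) : ℤ) := by exact_mod_cast h2
      omega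
    have h4 : p ≤ T * (4 + 3250) + 12 * th := by exact_mod_cast h3
    omega
  · intro g hg
    by_cases hgt : IsOfFinOrder g
    · exact (QuotientGroup.mk' M).isOfFinOrder hgt
    · obtain ⟨i, u, k, hk⟩ := hshort g hgt (by rw [hD]; omega)
      rw [isOfFinOrder_iff_pow_eq_one]
      refine ⟨p, by omega, ?_⟩
      rw [← QuotientGroup.mk_pow, QuotientGroup.eq_one_iff, hk, conj_pow, ← zpow_natCast,
        ← zpow_mul, mul_comm, zpow_mul, zpow_natCast]
      exact hMn.conj_mem _ (M.zpow_mem (hxM i) k) u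

end Pool.Agent.H316.TF
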