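import Pool.Agent.H316.TF.Lem

/-!
# Project TF: further statements (the lemmas for TF-19, TF-22)
-/

set_option autoImplicit false

namespace Pool.Agent.H316.TF

open Finsupp

/-- TF-19a: shuffle chains are alternating. -/
def S_shalt : Prop := ∀ (G : Type) (m : ℕ) (g : Fin m → G),
    (∀ ρ : Equiv.Perm (Fin m), sh (g ∘ ρ) = (Equiv.Perm.sign ρ : ℤ) • sh g) ∧
    (¬ Function.Injective g → sh g = 0)

/-- the chains `w t` in the copy `i` -/
noncomputable def cmb {I B Γ T : Type} {m : ℕ} (w : T → Ch B Γ ℤ m) (x : I × T) :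
    Ch (I × B) Γ ℤ m :=
  psh (fun b => (x.1, b)) Γ ℤ m (w x.2)

/-- TF-22a: cycles in `I` copies. -/
def S_copies : Prop := ∀ (I Γ B : Type) [Group Γ] [Group B] (π : Γ →* B) (A : Type)
    [AddCommGroup A] (m : ℕ) (H : HB π m) (z : Ch (I × B) Γ A m), (cop I (rt π)).IsC z →
    ∃ V : (I × H.T) →₀ A, (cop I (rt π)).IsB (z - comb A (cmb H.w) V)

/-- TF-22b: the Schreier graph cycles coming from the kernel can be moved into the kernel of
`Xm`. -/
def S_kill : Prop := ∀ (I Γ B : Type) [Group Γ] [Group B] (π : Γ →* B) (y : I → Γ)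
    (D : Γ → (I × B) →₀ ℤ), Fox π y D → ∀ (A : Type) [AddCommGroup A] (m : ℕ) (H : HB π m)
    (V : (I × H.T) →₀ A),
    V ∈ AddSubgroup.closure {u : (I × H.T) →₀ A | ∃ (ρ : Γ) (t : H.T) (a : A), π ρ = 1 ∧
      u = tens A (Finsupp.mapDomain (fun s : I × B => (s.1, H.act.smul s.2 t)) (D ρ)) a} →
    ∃ η : Ch (I × B) Γ A (m + 1),
      Xm (fun i => π (y i)) Γ A m (comb A (cmb H.w) V - (cop I (rt π)).bd A m η) = 0

/-- TF-22c: the boundary relation in terms of the basis. -/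
def S_rel : Prop := ∀ (I Γ B : Type) [Group Γ] [Group B] (π : Γ →* B) (x : I → B) (A : Type)
    [AddCommGroup A] (m : ℕ) (H : HB π m) (V : (I × H.T) →₀ A),
    (rt π).IsB (Xm x Γ A m (comb A (cmb H.w) V)) →
    Finsupp.mapDomain (fun s : I × H.T => H.act.smul (x s.1) s.2) V -
      Finsupp.mapDomain (fun s : I × H.T => s.2) V = 0

end Pool.Agent.H316.TF
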