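import Pool.Agent.H316.TF.Stm2

/-!
# Project TF (helper316), task TF-theta (helper335): the relation module of the tower maps to the
permutation module
-/

set_option autoImplicit false

namespace Pool.Agent.H316.TF

open Finsupp

namespace Theta

variable {p : ℕ} {I : Type} (t : Tower p I)

/-- the free abelian group on the basis of the relation module -/
abbrev W : Type := FA t.Om

/-- the permutation of the basis -/
def mv (g : FreeGroup I) (ω : t.Om) : t.Om := (g : Bu p I) • ω

theorem mv_one : mv t 1 = id := by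
  funext ω
  show ((1 : FreeGroup I) : Bu p I) • ω = ω
  rw [QuotientGroup.mk_one, one_smul]

theorem mv_mul (g h : FreeGroup I) : mv t (g * h) = mv t g ∘ mv t h := by
  funext ω
  show ((g * h : FreeGroup I) : Bu p I) • ω = (g : Bu p I) • ((h : Bu p I) • ω)
  rw [QuotientGroup.mk_mul, mul_smul]

theorem mv_pw {g : FreeGroup I} (hg : g ∈ pw (FreeGroup I) p) : mv t g = id := by
  funext ω
  show (g : Bu p I) • ω = ω
  rw [(QuotientGroup.eq_one_iff g).2 hg, one_smul]

theorem fam_id' {Ω : Type} (w : FA Ω) : fam (id : Ω → Ω) w = w := by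
  show Multiplicative.ofAdd (Finsupp.mapDomain id (Multiplicative.toAdd w)) = w
  rw [Finsupp.mapDomain_id]
  rfl

theorem fam_comp' {Ω Ω' Ω'' : Type} (f : Ω → Ω') (g : Ω' → Ω'') (w : FA Ω) :
    fam (g ∘ f) w = fam g (fam f w) := by
  show Multiplicative.ofAdd (Finsupp.mapDomain (g ∘ f) (Multiplicative.toAdd w)) =
    Multiplicative.ofAdd (Finsupp.mapDomain g (Finsupp.mapDomain f (Multiplicative.toAdd w)))
  rw [Finsupp.mapDomain_comp]

/-- the action on the free abelian group -/
noncomputable def act (g : FreeGroup I) : MulAut (W t) where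
  toFun := fam (mv t g)
  invFun := fam (mv t g⁻¹)
  left_inv w := by
    rw [← fam_comp', ← mv_mul, inv_mul_cancel, mv_one, fam_id']
  right_inv w := by
    rw [← fam_comp', ← mv_mul, mul_inv_cancel, mv_one, fam_id']
  map_mul' := map_mul _

theorem act_apply (g : FreeGroup I) (w : W t) : act t g w = fam (mv t g) w := rfl

/-- the action as a homomorphism -/
noncomputable def ph : FreeGroup I →* MulAut (W t) where
  toFun := act t
  map_one' := by
    apply MulEquiv.ext
    intro w
    show fam (mv t 1) w = w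
    rw [mv_one, fam_id']
  map_mul' g h := by
    apply MulEquiv.ext
    intro w
    show fam (mv t (g * h)) w = fam (mv t g) (fam (mv t h) w)
    rw [mv_mul, fam_comp']

theorem ph_apply (g : FreeGroup I) (w : W t) : ph t g w = fam (mv t g) w := rfl

theorem ph_pw {g : FreeGroup I} (hg : g ∈ pw (FreeGroup I) p) (w : W t) : ph t g w = w := by
  rw [ph_apply, mv_pw t hg, fam_id']

/-- the semidirect product -/
abbrev A0 : Type := W t ⋊[ph t] FreeGroup I

/-- the lifted relators -/
noncomputable def r (j : t.J) : A0 t := ⟨(be (t.bp j))⁻¹, t.y j ^ p⟩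

/-- the tower in the semidirect product -/
noncomputable def N (n : ℕ) : Subgroup (A0 t) :=
  Subgroup.normalClosure {a | ∃ k, k < n ∧ ∃ i, a = r t ⟨k, i⟩}

instance N_normal (n : ℕ) : (N t n).Normal := Subgroup.normalClosure_normal

theorem N_mono {m n : ℕ} (h : m ≤ n) : N t m ≤ N t n := by
  apply Subgroup.normalClosure_mono
  rintro a ⟨k, hk, i, rfl⟩
  exact ⟨k, lt_of_lt_of_le hk h, i, rfl⟩

theorem N_zero : N t 0 = ⊥ := by
  have h : {a : A0 t | ∃ k, k < 0 ∧ ∃ i, a = r t ⟨k, i⟩} = ∅ := by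
    ext a
    simp
  unfold N
  rw [h, Subgroup.normalClosure_empty]

theorem r_mem (n : ℕ) (i : t.ι n) : r t ⟨n, i⟩ ∈ N t (n + 1) :=
  Subgroup.subset_normalClosure ⟨n, Nat.lt_succ_self n, i, rfl⟩

theorem N_succ (n : ℕ) :
    N t (n + 1) = N t n ⊔ Subgroup.normalClosure (Set.range fun i => r t ⟨n, i⟩) := by
  apply le_antisymm
  · apply Subgroup.normalClosure_le_normal
    rintro a ⟨k, hk, i, rfl⟩
    rcases Nat.lt_succ_iff_lt_or_eq.1 hk with h | h
    · exact Subgroup.mem_sup_left (Subgroup.subset_normalClosure ⟨k, h, i, rfl⟩)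
    · subst h
      exact Subgroup.mem_sup_right (Subgroup.subset_normalClosure ⟨i, rfl⟩)
  · apply sup_le
    · exact N_mono t (Nat.le_succ n)
    · apply Subgroup.normalClosure_le_normal
      rintro _ ⟨i, rfl⟩
      exact r_mem t n i

/-- the second projection -/
noncomputable abbrev pi : A0 t →* FreeGroup I := SemidirectProduct.rightHom

theorem pi_surj : Function.Surjective (pi t) := SemidirectProduct.rightHom_surjective

theorem map_N (n : ℕ) : (N t n).map (pi t) = t.M n := by
  have := t.hM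
  induction n with
  | zero => rw [N_zero, t.M_zero, Subgroup.map_bot]
  | succ n ih =>
    rw [N_succ, t.M_succ, Subgroup.map_sup, ih, Subgroup.map_normalClosure _ _ (pi_surj t)]
    congr 2
    rw [← Set.range_comp]
    rfl

theorem smul_bp (j : t.J) (k : ℤ) : mv t (t.y j ^ k) (t.bp j) = t.bp j := by
  show ((t.y j ^ k : FreeGroup I) : Bu p I) • (⟨j, ((1 : Bu p I) : (Bu p I) ⧸ _)⟩ : t.Om) = ⟨j, _⟩
  have h : ((t.y j ^ k : FreeGroup I) : Bu p I) •
      (((1 : Bu p I) : (Bu p I) ⧸ (Subgroup.zpowers ((t.y j : FreeGroup I) : Bu p I)))) =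
      ((1 : Bu p I) : (Bu p I) ⧸ (Subgroup.zpowers ((t.y j : FreeGroup I) : Bu p I))) := by
    show (((((t.y j ^ k : FreeGroup I) : Bu p I) * 1 : Bu p I)) :
      (Bu p I) ⧸ (Subgroup.zpowers ((t.y j : FreeGroup I) : Bu p I))) = _
    rw [mul_one]
    apply (QuotientGroup.eq).2
    rw [mul_one]
    apply Subgroup.inv_mem
    rw [QuotientGroup.mk_zpow]
    exact Subgroup.zpow_mem_zpowers _ k
  show (⟨j, ((t.y j ^ k : FreeGroup I) : Bu p I) • ((1 : Bu p I) : (Bu p I) ⧸ _)⟩ : t.Om) = ⟨j, _⟩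
  rw [h]

theorem comm (j : t.J) (a : A0 t) (k : ℤ) (ha : a.right = t.y j ^ k) :
    a * r t j = r t j * a := by
  apply SemidirectProduct.ext
  · rw [SemidirectProduct.mul_left, SemidirectProduct.mul_left, ha]
    have h1 : ph t (t.y j ^ k) (r t j).left = (be (t.bp j))⁻¹ := by
      show ph t (t.y j ^ k) (be (t.bp j))⁻¹ = _
      rw [map_inv, ph_apply, fam_be, smul_bp]
    have h2 : ph t (r t j).right a.left = a.left := ph_pw t (t.y_mem j) _
    rw [h1, h2]
    show a.left * (be (t.bp j))⁻¹ = (be (t.bp j))⁻¹ * a.left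
    rw [mul_comm]
  · rw [SemidirectProduct.mul_right, SemidirectProduct.mul_right, ha]
    show t.y j ^ k * t.y j ^ p = t.y j ^ p * t.y j ^ k
    rw [← zpow_natCast, ← zpow_add, ← zpow_add, add_comm]

theorem inj_N (n : ℕ) : ∀ a ∈ N t n, a.right = 1 → a = 1 := by
  have := t.hM
  induction n with
  | zero =>
    intro a ha _
    rw [N_zero] at ha
    exact Subgroup.mem_bot.1 ha
  | succ n ih =>
    have hle : N t n ≤ (t.M n).comap (pi t) := by
      rw [← map_N t n]
      exact Subgroup.le_comap_map _ _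
    let f : (A0 t ⧸ N t n) →* (FreeGroup I ⧸ t.M n) :=
      QuotientGroup.map (N t n) (t.M n) (pi t) hle
    have hf : ∀ a : A0 t, f (a : A0 t ⧸ N t n) = ((a.right : FreeGroup I) : FreeGroup I ⧸ t.M n) :=
      fun a => rfl
    have hsurj : Function.Surjective f := by
      intro b
      obtain ⟨g, rfl⟩ := QuotientGroup.mk_surjective b
      obtain ⟨a, rfl⟩ := pi_surj t g
      exact ⟨(a : A0 t ⧸ N t n), rfl⟩
    have key := t.lift n (A0 t ⧸ N t n) f hsurj (fun i => ((r t ⟨n, i⟩ : A0 t) : A0 t ⧸ N t n))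
      (fun i => by
        rw [hf]
        show ((t.x n i ^ p : FreeGroup I) : FreeGroup I ⧸ t.M n) = _
        rw [QuotientGroup.mk_pow])
      (fun i b hb => by
        obtain ⟨a, rfl⟩ := QuotientGroup.mk_surjective b
        rw [hf] at hb
        obtain ⟨k, hk⟩ := Subgroup.mem_zpowers_iff.1 hb
        rw [← QuotientGroup.mk_zpow] at hk
        have h1 : (t.x n i ^ k)⁻¹ * a.right ∈ t.M n := QuotientGroup.eq.1 hk
        rw [← map_N t n] at h1
        obtain ⟨c, hc, hc'⟩ := h1
        have h2 : ((a * c⁻¹ : A0 t) : A0 t ⧸ N t n) = (a : A0 t ⧸ N t n) := by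
          apply QuotientGroup.eq.2
          rw [mul_inv_rev, inv_inv, mul_assoc, inv_mul_cancel, mul_one]
          exact hc
        have h3 : (a * c⁻¹ : A0 t).right = t.x n i ^ k := by
          rw [SemidirectProduct.mul_right, SemidirectProduct.inv_right]
          have hc'' : c.right = (t.x n i ^ k)⁻¹ * a.right := hc'
          rw [hc'', mul_inv_rev, inv_inv, mul_inv_cancel_left]
        rw [← h2]
        show (((a * c⁻¹) * r t ⟨n, i⟩ : A0 t) : A0 t ⧸ N t n) =
          ((r t ⟨n, i⟩ * (a * c⁻¹) : A0 t) : A0 t ⧸ N t n)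
        rw [comm t ⟨n, i⟩ (a * c⁻¹) k h3])
    intro a ha hr
    have h4 : ((a : A0 t) : A0 t ⧸ N t n) ∈ Subgroup.normalClosure
        (Set.range fun i => ((r t ⟨n, i⟩ : A0 t) : A0 t ⧸ N t n)) := by
      have h5 : N t (n + 1) ≤ (Subgroup.normalClosure
          (Set.range fun i => ((r t ⟨n, i⟩ : A0 t) : A0 t ⧸ N t n))).comap
          (QuotientGroup.mk' (N t n)) := by
        apply Subgroup.normalClosure_le_normal
        rintro b ⟨k, hk, i, rfl⟩
        rcases Nat.lt_succ_iff_lt_or_eq.1 hk with h | h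
        · have h6 : r t ⟨k, i⟩ ∈ N t n := Subgroup.subset_normalClosure ⟨k, h, i, rfl⟩
          have h7 : QuotientGroup.mk' (N t n) (r t ⟨k, i⟩) = 1 := (QuotientGroup.eq_one_iff _).2 h6
          rw [SetLike.mem_coe, Subgroup.mem_comap, h7]
          exact Subgroup.one_mem _
        · subst h
          exact Subgroup.subset_normalClosure ⟨i, rfl⟩
      exact h5 ha
    have h8 : f (a : A0 t ⧸ N t n) = 1 := by
      rw [hf, hr]
      rfl
    exact ih a ((QuotientGroup.eq_one_iff a).1 (key _ h4 h8)) hr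

theorem exists_lift (ρ : pw (FreeGroup I) p) : ∃ a : A0 t, (∃ n, a ∈ N t n) ∧ a.right = ρ := by
  obtain ⟨n, hn⟩ := (t.union (ρ : FreeGroup I)).1 ρ.2
  rw [← map_N t n] at hn
  obtain ⟨a, ha, ha'⟩ := hn
  exact ⟨a, ⟨n, ha⟩, ha'⟩

theorem unique_lift {a b : A0 t} (ha : ∃ n, a ∈ N t n) (hb : ∃ n, b ∈ N t n)
    (h : a.right = b.right) : a = b := by
  obtain ⟨m, ha⟩ := ha
  obtain ⟨n, hb⟩ := hb
  have h1 : a * b⁻¹ ∈ N t (max m n) :=
    Subgroup.mul_mem _ (N_mono t (le_max_left m n) ha)
      (Subgroup.inv_mem _ (N_mono t (le_max_right m n) hb))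
  have h2 : (a * b⁻¹).right = 1 := by
    rw [SemidirectProduct.mul_right, SemidirectProduct.inv_right, h, mul_inv_cancel]
  exact mul_inv_eq_one.1 (inj_N t _ _ h1 h2)

/-- the lift -/
noncomputable def lf (ρ : pw (FreeGroup I) p) : A0 t := (exists_lift t ρ).choose

theorem lf_mem (ρ : pw (FreeGroup I) p) : ∃ n, lf t ρ ∈ N t n := (exists_lift t ρ).choose_spec.1

theorem lf_right (ρ : pw (FreeGroup I) p) : (lf t ρ).right = ρ := (exists_lift t ρ).choose_spec.2

theorem lf_eq {ρ : pw (FreeGroup I) p} {a : A0 t} (ha : ∃ n, a ∈ N t n) (h : a.right = ρ) :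
    lf t ρ = a :=
  unique_lift t (lf_mem t ρ) ha ((lf_right t ρ).trans h.symm)

theorem lf_mul (ρ σ : pw (FreeGroup I) p) : lf t (ρ * σ) = lf t ρ * lf t σ := by
  apply lf_eq
  · obtain ⟨m, hm⟩ := lf_mem t ρ
    obtain ⟨n, hn⟩ := lf_mem t σ
    exact ⟨max m n, Subgroup.mul_mem _ (N_mono t (le_max_left m n) hm)
      (N_mono t (le_max_right m n) hn)⟩
  · rw [SemidirectProduct.mul_right, lf_right, lf_right]
    rfl

/-- the map to the permutation module -/
noncomputable def th : (pw (FreeGroup I) p) →* FA t.Om :=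
  MonoidHom.mk' (fun ρ => (lf t ρ).left⁻¹) (by
    intro ρ σ
    show (lf t (ρ * σ)).left⁻¹ = (lf t ρ).left⁻¹ * (lf t σ).left⁻¹
    rw [lf_mul, SemidirectProduct.mul_left, ph_pw t (by rw [lf_right]; exact ρ.2), mul_inv])

theorem th_apply (ρ : pw (FreeGroup I) p) : th t ρ = (lf t ρ).left⁻¹ := rfl

end Theta

open Theta in
theorem t_theta : S_theta := by
  intro p I t
  refine ⟨th t, ?_, ?_⟩
  · intro j
    rw [th_apply, lf_eq t (a := r t j) ⟨j.1 + 1, r_mem t j.1 j.2⟩ rfl]
    show ((be (t.bp j))⁻¹)⁻¹ = _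
    rw [inv_inv]
  · intro g ρ
    have h : lf t ⟨g * ρ * g⁻¹, (pw_normal (FreeGroup I) p).conj_mem ρ ρ.2 g⟩ =
        (SemidirectProduct.inr g : A0 t) * lf t ρ * (SemidirectProduct.inr g : A0 t)⁻¹ := by
      apply lf_eq
      · obtain ⟨n, hn⟩ := lf_mem t ρ
        exact ⟨n, (N_normal t n).conj_mem _ hn _⟩
      · rw [SemidirectProduct.mul_right, SemidirectProduct.mul_right, SemidirectProduct.inv_right,
          SemidirectProduct.right_inr, lf_right]
    rw [th_apply, th_apply, h, map_inv, ← map_inv (SemidirectProduct.inr : FreeGroup I →* A0 t),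
      SemidirectProduct.mul_left, SemidirectProduct.mul_left, SemidirectProduct.left_inr,
      SemidirectProduct.left_inr, SemidirectProduct.right_inr, map_one, one_mul, mul_one]
    rfl

end Pool.Agent.H316.TF
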